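import Pool.Agent.PKE.Targets

set_option autoImplicit false

/-!
# BOX: lattice points in a box with prescribed residues
-/

namespace PKE

namespace BOX_

/-- congruence modulo all the primes of a finite set -/
lemma dvd_of_residues (P : Finset ℕ) (hP : ∀ p ∈ P, p.Prime) (a b : ℤ)
    (h : ∀ p ∈ P, (a : ZMod p) = (b : ZMod p)) : ((∏ p ∈ P, p : ℕ) : ℤ) ∣ b - a := by
  push_cast
  refine Finset.prod_dvd_of_coprime ?_ ?_
  · intro x hx y hy hxy
    have := (Nat.coprime_primes (hP x hx) (hP y hy)).2 hxy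
    exact Nat.isCoprime_iff_coprime.2 this
  · intro p hp
    exact (ZMod.intCast_eq_intCast_iff_dvd_sub _ _ _).1 (h p hp)

/-- an integer is determined by its quotient and residue -/
lemma eq_of_div (q : ℕ) (u v : ℤ) (h1 : (q : ℤ) ∣ v - u) (h2 : u / q = v / q) :
    u = v := by
  have h3 : u % q = v % q := (Int.modEq_iff_dvd.2 h1)
  rw [← Int.mul_ediv_add_emod u q, ← Int.mul_ediv_add_emod v q, h2, h3]

end BOX_

open BOX_ in
theorem p_BOX : T_BOX := by
  intro κ _ _ P hP B H hH hq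
  classical
  set q : ℕ := ∏ p ∈ P, p with hqdef
  have hq0 : 0 < q := Finset.prod_pos fun p hp => (hP p hp).pos
  set M : ℕ := 2 * H / q + 1 with hM
  have hbd : ∀ a : ℤ, |a| ≤ (H : ℤ) → 0 ≤ (a + H) / q ∧ ((a + H) / q).toNat < M := by
    intro a ha
    rw [abs_le] at ha
    have h1 : 0 ≤ (a + H) / q := Int.ediv_nonneg (by linarith [ha.1]) (Int.natCast_nonneg q)
    refine ⟨h1, ?_⟩
    have h2 : (a + H) / q ≤ (2 * H : ℤ) / q :=
      Int.ediv_le_ediv (by exact_mod_cast hq0) (by linarith [ha.2])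
    have h3 : ((2 * H / q : ℕ) : ℤ) = (2 * H : ℤ) / q := by push_cast; rfl
    rw [← h3] at h2
    omega
  let F : {a : κ → ℤ // (∀ i, |a i| ≤ (H : ℤ)) ∧ ∀ p ∈ P, (fun i => (a i : ZMod p)) ∈ B p} →
      (κ → Fin M) × ((p : {x // x ∈ P}) → {y // y ∈ B p.1}) :=
    fun a => (fun i => ⟨((a.1 i + H) / q).toNat, (hbd _ (a.2.1 i)).2⟩,
      fun p => ⟨fun i => (a.1 i : ZMod p.1), a.2.2 p.1 p.2⟩)
  have hF : Function.Injective F := by
    rintro ⟨a, ha⟩ ⟨b, hb⟩ hab
    have h1 := congrArg Prod.fst hab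
    have h2 := congrArg Prod.snd hab
    refine Subtype.ext (funext fun i => ?_)
    show a i = b i
    have h3 : ((a i + H) / q).toNat = ((b i + H) / q).toNat :=
      congrArg Fin.val (congrFun h1 i)
    have h4 : (a i + H) / q = (b i + H) / q := by
      rw [← Int.toNat_of_nonneg (hbd _ (ha.1 i)).1, ← Int.toNat_of_nonneg (hbd _ (hb.1 i)).1, h3]
    have h5 : ∀ p ∈ P, (a i : ZMod p) = (b i : ZMod p) := by
      intro p hp
      have h6 : (fun i => (a i : ZMod p)) = fun i => (b i : ZMod p) :=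
        congrArg Subtype.val (congrFun h2 ⟨p, hp⟩)
      exact congrFun h6 i
    have h7 := dvd_of_residues P hP _ _ h5
    have h8 : (a i + H) = (b i + H) := by
      refine eq_of_div q _ _ ?_ h4
      rw [add_sub_add_right_eq_sub]
      exact h7
    linarith
  have hcard := Nat.card_le_card_of_injective F hF
  have hT : Nat.card ((κ → Fin M) × ((p : {x // x ∈ P}) → {y // y ∈ B p.1})) =
      M ^ Fintype.card κ * ∏ p ∈ P, (B p).card := by
    rw [Nat.card_eq_fintype_card, Fintype.card_prod, Fintype.card_fun, Fintype.card_fin,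
      Fintype.card_pi]
    congr 1
    simp only [Fintype.card_coe]
    exact Finset.prod_coe_sort P (fun p => (B p).card)
  rw [hT] at hcard
  have hMq : M * q ≤ 2 * (2 * H + 1) := by
    have h1 : 2 * H / q * q ≤ 2 * H := Nat.div_mul_le_self _ _
    rw [hM, add_mul, one_mul]
    omega
  calc _ ≤ (M ^ Fintype.card κ * ∏ p ∈ P, (B p).card) * q ^ Fintype.card κ :=
        Nat.mul_le_mul_right _ hcard
    _ = (M * q) ^ Fintype.card κ * ∏ p ∈ P, (B p).card := by rw [mul_pow]; ring
    _ ≤ _ := Nat.mul_le_mul_right _ (Nat.pow_le_pow_left hMq _)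

end PKE
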