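import Pool.Agent.PKE.CRE
import Pool.Agent.PKD.PLCM

/-! The arithmetic core, uniformly in the elliptic schemes and in the fixed parts of the abscissas. -/

set_option autoImplicit false
set_option maxHeartbeats 4000000

namespace PKE

open MvPolynomial RD PKD

/-- `x` is integral over `ℤ[1/Δ]` -/
def SI {Ω : Type} [Field Ω] (Δ : ℕ) (x : Ω) : Prop := ∃ j : ℕ, IsIntegral ℤ ((Δ : Ω) ^ j * x)

/-- the uniform arithmetic core -/
def T_CR2 : Prop := ∀ (K Ω : Type) [Field K] [NumberField K] [Field Ω] [CharZero Ω]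
  [IsAlgClosed Ω] [DecidableEq Ω] [Algebra K Ω] [Algebra.IsAlgebraic K Ω]
  (m : ℕ) (g : Fin m → ℕ) (d n D : ℕ), DegC g d (Module.finrank ℚ K) →
  ∀ (om : Module.Basis (Fin (Module.finrank ℚ K)) ℚ K) (ρ : Fin n → ℕ)
    (b : Fin n → ℕ → MvPolynomial (Fin d) Ω)
    (I : Finset (MonS d n D)), (∀ ty, al0 D ty ∈ I) →
    (∀ j l, l < ρ j → (b j l).totalDegree ≤ ρ j - l) → ∀ Δ : ℕ, 0 < Δ →
  ∃ C p0 : ℕ, ∀ p : ℕ, p0 ≤ p → p.Prime →
    ∃ Bp : Finset (((Σ k, Fin (g k)) × {α // α ∈ I}) → Fin (Module.finrank ℚ K) → ZMod p),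
      Bp.card * p ≤
        C * p ^ (Module.finrank ℚ K * Fintype.card ((Σ k, Fin (g k)) × {α // α ∈ I})) ∧
      ∀ (β : ℕ) (a : ((Σ k, Fin (g k)) × {α // α ∈ I}) → Fin (Module.finrank ℚ K) → ℤ),
        0 < β → p ∣ β →
        ∀ (A B : Fin m → MvPolynomial (Fin d ⊕ Fin n) Ω)
          (F0 : (Σ k, Fin (g k)) × MonS d n D → Ω),
        (∀ k, (A k).totalDegree ≤ 2 * D ∧ (B k).totalDegree ≤ 3 * D) →
        (∀ k t, SI Δ ((A k).coeff t) ∧ SI Δ ((B k).coeff t)) → (∀ u, SI Δ (F0 u)) →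
        Bad g D ρ b A B (cf I F0 fun u => algebraMap K Ω (∑ l, (a u l : ℚ) • om l) / (β : Ω)) →
        (fun u l => (a u l : ZMod p)) ∈ Bp

namespace CR2_

/-- integral elements -/
theorem na_integral {Ω : Type} [Field Ω] {v : AbsoluteValue Ω ℝ} (na : IsNonarchimedean v) (x : Ω)
    (hx : IsIntegral ℤ x) : v x ≤ 1 := by
  obtain ⟨P, hP, hPx⟩ := hx
  refine PKD.PLCM_root na P.natDegree (fun l => ((P.coeff l : ℤ) : Ω)) (fun l _ => na_int na _) x ?_
  have h1 := hPx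
  rw [Polynomial.eval₂_eq_sum_range, Finset.sum_range_succ, hP.coeff_natDegree] at h1
  simp only [map_one, one_mul] at h1
  rw [add_comm, ← h1]
  congr 1

/-- elements integral over `ℤ[1/Δ]` -/
theorem na_SI {Ω : Type} [Field Ω] [CharZero Ω] {v : AbsoluteValue Ω ℝ} (na : IsNonarchimedean v)
    {p : ℕ} (hp : p.Prime) (hvp : v (p : Ω) < 1) {Δ : ℕ} (hΔ : 0 < Δ) (hΔp : Δ < p) (x : Ω)
    (hx : SI Δ x) : v x ≤ 1 := by
  obtain ⟨j, hj⟩ := hx
  have h1 := na_integral na _ hj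
  have hcop : IsCoprime (Δ : ℤ) (p : ℤ) := by
    rw [Nat.isCoprime_iff_coprime]
    exact ((Nat.Prime.coprime_iff_not_dvd hp).2 fun h => by
      have := Nat.le_of_dvd hΔ h
      omega).symm
  have h2 := na_coprime na hvp hcop
  have h3 : v (Δ : Ω) = 1 := by exact_mod_cast h2
  rw [v.map_mul, v.map_pow, h3, one_pow, one_mul] at h1
  exact h1

theorem SI_map {Ω : Type} [Field Ω] {Δ : ℕ} {x : Ω} (hx : SI Δ x) (σ : Ω →+* Ω) :
    SI Δ (σ x) := by
  obtain ⟨j, hj⟩ := hx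
  refine ⟨j, ?_⟩
  have := hj.map (σ.toIntAlgHom)
  simpa using this

theorem core (hREL : PKD.T_REL) (hPLC : T_PLC) (hDAT : T_DAT) (hELQ : T_ELQ) (hCNT : PKD.T_CNT)
    (hEXP : PKD.T_EXP) (hALM : PKD.T_ALM) (K Ω : Type) [Field K] [NumberField K] [Field Ω]
    [CharZero Ω] [IsAlgClosed Ω] [DecidableEq Ω] [Algebra K Ω] [Algebra.IsAlgebraic K Ω]
    (m : ℕ) (g : Fin m → ℕ) (d n D N : ℕ) (hK : DegC g d N)
    (om : Module.Basis (Fin N) ℚ K) (σ : Fin N → Ω →+* Ω)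
    (hσ : (Matrix.of fun (j l : Fin N) => σ j (algebraMap K Ω (om l))).det ≠ 0) (ρ : Fin n → ℕ)
    (b : Fin n → ℕ → MvPolynomial (Fin d) Ω)
    (I : Finset (MonS d n D)) (hI : ∀ ty, al0 D ty ∈ I)
    (hb : ∀ j l, l < ρ j → (b j l).totalDegree ≤ ρ j - l) (Δ : ℕ) (hΔ : 0 < Δ) :
    ∃ C p0 : ℕ, ∀ p : ℕ, p0 ≤ p → p.Prime →
    ∃ Bp : Finset (((Σ k, Fin (g k)) × {α // α ∈ I}) → Fin N → ZMod p),
      Bp.card * p ≤ C * p ^ (N * Fintype.card ((Σ k, Fin (g k)) × {α // α ∈ I})) ∧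
      ∀ (β : ℕ) (a : ((Σ k, Fin (g k)) × {α // α ∈ I}) → Fin N → ℤ), 0 < β → p ∣ β →
        ∀ (A B : Fin m → MvPolynomial (Fin d ⊕ Fin n) Ω)
          (F0 : (Σ k, Fin (g k)) × MonS d n D → Ω),
        (∀ k, (A k).totalDegree ≤ 2 * D ∧ (B k).totalDegree ≤ 3 * D) →
        (∀ k t, SI Δ ((A k).coeff t) ∧ SI Δ ((B k).coeff t)) → (∀ u, SI Δ (F0 u)) →
        Bad g D ρ b A B (cf I F0 fun u => algebraMap K Ω (∑ l, (a u l : ℚ) • om l) / (β : Ω)) →
        (fun u l => (a u l : ZMod p)) ∈ Bp := by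
  classical
  have halg : Algebra.IsAlgebraic ℚ Ω := Algebra.IsAlgebraic.trans ℚ K Ω
  obtain ⟨M, hM⟩ := CRE_.elim hELQ d n D ρ (Σ k, Fin (g k)) I hI
  choose Cd hCd using fun (k : Fin m) (e : ℕ) => hDAT (g k) e
  set Mt : Matrix (Fin N) (Fin N) Ω := Matrix.of fun j l => σ j (algebraMap K Ω (om l)) with hMt
  have hdet : Mt.det ≠ 0 := hσ
  -- the finite set of numbers which have to be integral
  let F : Finset Ω :=
    (Finset.univ.image fun x : Fin N × Fin N => Mt x.1 x.2) ∪ {Mt.det⁻¹} ∪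
    (Finset.univ.biUnion fun i : Fin N => Finset.univ.biUnion fun j : Fin n =>
      (Finset.range (ρ j)).biUnion fun l => (b j l).support.image fun t => σ i ((b j l).coeff t))
  obtain ⟨p1, hp1⟩ := PKD.COR_.alm_finset hALM Ω F
  -- the vectors of codimensions
  let Es : Finset (Fin m → ℕ) :=
    (Fintype.piFinset fun k => Finset.range (g k + 1)).filter fun e => ∑ k, e k ≤ d + 1
  -- the number of the discrete data
  let X0 : Type := Finset (Fin d) × (Fin N → (Fin m → Bool) × Finset (Σ k, Fin (g k)) ×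
    Finset (Σ k, Fin (g k)) × Finset (Σ k, Fin (g k)) × Finset (Σ k, Fin (g k)))
  set C1 : ℕ := Fintype.card X0 * ∑ e ∈ Es, ∏ k, Cd k (e k) with hC1
  refine ⟨C1 * M ^ N, p1 + Δ + 1 + N * M + 5, fun p hp hpp => ?_⟩
  obtain ⟨v, kk, _, hchar, r, hr, hvp⟩ := hEXP Ω p hpp
  haveI : Fact p.Prime := ⟨hpp⟩
  choose Ds hDsc hDs using fun (k : Fin m) (e : ℕ) => hCd k e kk p hpp hchar
  have hF := hp1 p (by omega) hpp v hr.na hvp
  have hMi : ∀ i j, v (Mt i j) ≤ 1 := fun i j => hF _ (by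
    simp only [F, Finset.mem_union, Finset.mem_image]
    exact Or.inl (Or.inl ⟨(i, j), Finset.mem_univ _, rfl⟩))
  have hdi : v (Mt.det⁻¹) ≤ 1 := hF _ (by
    simp only [F, Finset.mem_union, Finset.mem_singleton]
    exact Or.inl (Or.inr trivial))
  have hbi : ∀ i j l, l < ρ j → ∀ t, v (σ i ((b j l).coeff t)) ≤ 1 := by
    intro i j l hl t
    by_cases ht : t ∈ (b j l).support
    · refine hF _ ?_
      simp only [F, Finset.mem_union]
      refine Or.inr ?_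
      simp only [Finset.mem_biUnion, Finset.mem_image, Finset.mem_univ, true_and, Finset.mem_range]
      exact ⟨i, j, l, hl, t, ht, rfl⟩
    · rw [notMem_support_iff.1 ht, map_zero, v.map_zero]
      exact zero_le_one
  -- the reduced matrix
  set Θ : Matrix (Fin N) (Fin N) kk := Matrix.of fun i j => r (Mt i j) with hΘ
  have hΘdet : Θ.det ≠ 0 := by
    obtain ⟨h1, h2⟩ := PKD.COR_.red_det hr Mt hMi
    rw [← h2]
    intro h0
    rw [hr.ker _ h1] at h0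
    rw [map_inv₀] at hdi
    have hpos : 0 < v Mt.det := v.pos hdet
    have := (inv_le_one₀ hpos).1 hdi
    linarith
  -- the eliminants
  have hΨex : ∀ (j : Fin N) (Q : Finset (Fin d)) (S J W : Finset (Σ k, Fin (g k)))
      (τ : (Σ k, Fin (g k)) → (Σ k, Fin (g k)) → kk),
      ∃ Ψ : MvPolynomial ((Σ k, Fin (g k)) × {α // α ∈ I}) kk, Ψ ≠ 0 ∧ Ψ.totalDegree ≤ M ∧
      (Disjoint S W → J ⊆ W → S.card + J.card + Q.card = d + 1 → ∀ ty c x s h,
        Sys ρ (bty (fun x => r (σ j x)) ρ b ty) (fun α : {α // α ∈ I} => uty kk ty α.1)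
          ⟨al0 D ty, hI ty⟩ Q S J W τ c x s h → eval c Ψ = 0) := fun j Q S J W τ =>
    hM Ω kk (v.comp (σ j).injective) (fun x => r (σ j x)) (hr.comp (σ j)) b hb Q S J W τ
  choose Ψ hΨ0 hΨd hΨ using hΨex
  -- the configurations
  let Xs : Finset (X0 × ((k : Fin m) → Bool → Dat (g k) kk)) :=
    Es.biUnion fun e => (Finset.univ : Finset X0) ×ˢ Fintype.piFinset fun k => Ds k (e k)
  have hXs : Xs.card * p ≤ C1 * p ^ N := by
    have h1 : Xs.card ≤ ∑ e ∈ Es, Fintype.card X0 * ∏ k, (Ds k (e k)).card := by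
      refine Finset.card_biUnion_le.trans (Finset.sum_le_sum fun e _ => ?_)
      rw [Finset.card_product, Fintype.card_piFinset, Finset.card_univ]
    have h2 : ∀ e ∈ Es, (∏ k, (Ds k (e k)).card) * p ≤ (∏ k, Cd k (e k)) * p ^ N := by
      intro e he
      simp only [Es, Finset.mem_filter, Fintype.mem_piFinset, Finset.mem_range] at he
      have h3 := hK e (fun k => Nat.lt_succ_iff.1 (he.1 k)) he.2
      calc (∏ k, (Ds k (e k)).card) * p
          ≤ (∏ k, Cd k (e k) * p ^ (2 * (e k * (g k - e k)))) * p := by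
            gcongr with k _
            exact hDsc k (e k)
        _ = (∏ k, Cd k (e k)) * p ^ (2 * ∑ k, e k * (g k - e k) + 1) := by
            rw [Finset.prod_mul_distrib, Finset.prod_pow_eq_pow_sum, ← Finset.mul_sum, pow_succ]
            ring
        _ ≤ (∏ k, Cd k (e k)) * p ^ N := by
            gcongr
            · exact hpp.one_le
            · omega
    calc Xs.card * p ≤ (∑ e ∈ Es, Fintype.card X0 * ∏ k, (Ds k (e k)).card) * p :=
          Nat.mul_le_mul_right _ h1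
      _ = Fintype.card X0 * ∑ e ∈ Es, (∏ k, (Ds k (e k)).card) * p := by
          rw [Finset.sum_mul, Finset.mul_sum]
          exact Finset.sum_congr rfl fun e _ => by ring
      _ ≤ Fintype.card X0 * ∑ e ∈ Es, (∏ k, Cd k (e k)) * p ^ N :=
          Nat.mul_le_mul_left _ (Finset.sum_le_sum h2)
      _ = C1 * p ^ N := by
          rw [hC1, ← Finset.sum_mul]
          ring
  obtain ⟨Bp, hBc, hBp⟩ := CRE_.union hCNT p Θ hΘdet M C1 (by omega) Xs hXs
    (fun j x => Ψ j x.1.1 (x.1.2 j).2.2.1 (x.1.2 j).2.2.2.1 (x.1.2 j).2.2.2.2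
      (flat x.2 (x.1.2 j).1 (x.1.2 j).2.1))
    (fun j x => ⟨hΨ0 _ _ _ _ _ _, hΨd _ _ _ _ _ _⟩)
  refine ⟨Bp, hBc, fun β a hβpos hβ A B F0 hdeg hAB hF0' hbad => ?_⟩
  have hF0 : ∀ i u, v (σ i (F0 u)) ≤ 1 := fun i u =>
    na_SI hr.na hpp hvp hΔ (by omega) _ (SI_map (hF0' u) (σ i))
  have hABi : ∀ i k t, v (σ i ((A k).coeff t)) ≤ 1 ∧ v (σ i ((B k).coeff t)) ≤ 1 := fun i k t =>
    ⟨na_SI hr.na hpp hvp hΔ (by omega) _ (SI_map (hAB k t).1 (σ i)),
      na_SI hr.na hpp hvp hΔ (by omega) _ (SI_map (hAB k t).2 (σ i))⟩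
  have hβ0 : (β : Ω) ≠ 0 := Nat.cast_ne_zero.2 hβpos.ne'
  have hvβ : v (β : Ω) ≤ v (p : Ω) := by
    obtain ⟨q, rfl⟩ := hβ
    push_cast
    rw [v.map_mul]
    calc v (p : Ω) * v (q : Ω) ≤ v (p : Ω) * 1 :=
          mul_le_mul_of_nonneg_left (na_nat hr.na _) (v.nonneg _)
      _ = v (p : Ω) := mul_one _
  set c : (Σ k, Fin (g k)) × {α // α ∈ I} → Ω :=
    fun u => algebraMap K Ω (∑ l, (a u l : ℚ) • om l) / (β : Ω) with hc
  have hβc : ∀ i u, σ i ((β : Ω) * c u) = ∑ l, ((a u l : ℤ) : Ω) * Mt i l := by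
    intro i u
    have h1 : (β : Ω) * c u = algebraMap K Ω (∑ l, (a u l : ℚ) • om l) := by
      rw [hc]
      field_simp
    rw [h1, map_sum, map_sum]
    refine Finset.sum_congr rfl fun l _ => ?_
    have h2 : ((a u l : ℚ) • om l : K) = ((a u l : ℤ) : K) * om l := by
      rw [Algebra.smul_def]
      simp
    rw [h2, map_mul, map_mul, map_intCast, map_intCast]
    rfl
  have hci : ∀ i u, v (σ i ((β : Ω) * c u)) ≤ 1 := by
    intro i u
    rw [hβc]
    refine na_sum hr.na _ _ _ zero_le_one fun l _ => ?_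
    rw [v.map_mul]
    exact mul_le_one₀ (na_int hr.na _) (v.nonneg _) (hMi _ _)
  have hcr : ∀ i u, r (σ i ((β : Ω) * c u)) =
      ∑ l, Θ i l * ZMod.castHom (dvd_refl p) kk ((a u l : ZMod p)) := by
    intro i u
    rw [hβc, hr.sum _ _ fun l _ => by
      rw [v.map_mul]
      exact mul_le_one₀ (na_int hr.na _) (v.nonneg _) (hMi _ _)]
    refine Finset.sum_congr rfl fun l _ => ?_
    rw [hr.mul _ _ (na_int hr.na _) (hMi _ _), hr.int, mul_comm]
    congr 1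
    simp
  -- the fixed part
  have hβF : ∀ i u, v (σ i ((β : Ω) * F0 u)) < 1 := by
    intro i u
    rw [map_mul, v.map_mul, map_natCast]
    calc v (β : Ω) * v (σ i (F0 u)) ≤ v (p : Ω) * 1 :=
          mul_le_mul hvβ (hF0 i u) (v.nonneg _) (v.nonneg _)
      _ < 1 := by rw [mul_one]; exact hvp
  have hFr : ∀ i u, r (σ i ((β : Ω) * F0 u)) = 0 := fun i u => (hr.ker _ (hβF i u).le).2 (hβF i u)
  have hcf : ∀ i u, v (σ i ((β : Ω) * cf I F0 c u)) ≤ 1 ∧
      r (σ i ((β : Ω) * cf I F0 c u)) =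
        if h : u.2 ∈ I then r (σ i ((β : Ω) * c (u.1, ⟨u.2, h⟩))) else 0 := by
    intro i u
    unfold cf
    rw [mul_add, map_add]
    by_cases h : u.2 ∈ I
    · rw [dif_pos h, dif_pos h]
      refine ⟨(hr.na _ _).trans (max_le (hβF i u).le (hci i _)), ?_⟩
      rw [hr.add _ _ (hβF i u).le (hci i _), hFr, zero_add]
    · rw [dif_neg h, dif_neg h, mul_zero, map_zero, add_zero]
      exact ⟨(hβF i u).le, hFr i u⟩
  obtain ⟨Q, e, De, heg, he, hDe, hsys⟩ :=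
    step hREL hPLC hr hpp (by omega) hvp g le_rfl σ Ds
      (fun k e a t n' ha U hU => hDs k e Ω v r hr hvp a t n' ha U hU) ρ b A B hb hbi hABi hdeg
      (β : Ω) (cf I F0 c) hβ0 (fun i => by rw [map_natCast]; exact hvβ) (fun i u => (hcf i u).1) hbad
  choose cl S S' J W hSW hJW hSJ ty x' s' h hs using hsys
  refine hBp _ ⟨((Q, fun j => (cl j, S j, S' j, J j, W j)), De), ?_, fun j => ?_⟩
  · simp only [Xs, Es, Finset.mem_biUnion, Finset.mem_filter, Fintype.mem_piFinset,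
      Finset.mem_range, Finset.mem_product, Finset.mem_univ, true_and]
    exact ⟨e, ⟨fun k => Nat.lt_succ_of_le (heg k), by omega⟩, hDe⟩
  obtain ⟨hs1, hs2, hs3, hs4, hs5, hs6⟩ := hs j
  have hsum : ∀ i, ∑ α : MonS d n D, r (σ j ((β : Ω) * cf I F0 c (i, α))) *
      eval (Sum.elim (x' j) (s' j)) (uty kk (ty j) α) =
      ∑ α : {α // α ∈ I}, r (σ j ((β : Ω) * c (i, α))) *
        eval (Sum.elim (x' j) (s' j)) (uty kk (ty j) α.1) := by
    intro i
    rw [PKD.COR_.sum_restrict I _ (fun α hα => by rw [(hcf j (i, α)).2, dif_neg hα, zero_mul])]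
    refine Finset.sum_congr rfl fun α _ => ?_
    rw [(hcf j (i, α.1)).2, dif_pos α.2]
  have h1 := hΨ j Q (S' j) (J j) (W j) (flat De (cl j) (S j)) (hSW j) (hJW j) (hSJ j) (ty j)
    (fun u => r (σ j ((β : Ω) * c u))) (x' j) (s' j) (h j)
    ⟨hs1, hs2, hs3, fun i hi => by rw [← hsum i]; exact hs4 i hi,
      fun i hi => by rw [← hsum i]; exact hs5 i hi, hs6⟩
  rw [← h1]
  congr 1
  congr 1
  funext u
  exact (hcr j u).symm

end CR2_

theorem p_CR2 (hREL : PKD.T_REL) (hPLC : T_PLC) (hDAT : T_DAT) (hELQ : T_ELQ) (hCNT : PKD.T_CNT)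
    (hEXP : PKD.T_EXP) (hALM : PKD.T_ALM) (hEMB : PKD.T_EMB) : T_CR2 := by
  intro K Ω _ _ _ _ _ _ _ _ m g d n D hK om ρ b I hI hb Δ hΔ
  obtain ⟨σ, hσ⟩ := hEMB K Ω
  exact CR2_.core hREL hPLC hDAT hELQ hCNT hEXP hALM K Ω m g d n D _ hK om σ (hσ om) ρ b I hI hb Δ hΔ

end PKE
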