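import Pool.Agent.PKE.Targets
import Pool.Agent.PKD.GRP
import Pool.Agent.PKD.RES

/-!
DAT: the pairs of residual data at the two classes of embeddings
-/

set_option autoImplicit false

namespace PKE

open MvPolynomial RD PKD

namespace DAT_

/-- patterns -/
abbrev Pt (g e : ℕ) : Type :=
  (Fin e → Fin g) × (Finset (Fin g) → (Fin e → Fin g)) × (Finset (Fin g) → Finset (Fin g))

/-- the variables -/
abbrev Vt (g e : ℕ) (b0 : Fin e → Fin g) : Type := Fin e × {i : Fin g // ∀ l, b0 l ≠ i}

/-- the indices of the values -/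
abbrev Mt (g : ℕ) : Type := Finset (Fin g) × Fin g × Fin g

open Classical in
/-- numerators -/
noncomputable def num (g e : ℕ) (P : Pt g e) (m : Mt g) : MvPolynomial (Vt g e P.1) ℤ :=
  if h : m.2.1 ∈ P.2.2 m.1 ∧ ∃ l, P.2.1 m.1 l = m.2.1 then
    nm e g P.1 (P.2.1 m.1) h.2.choose m.2.2 else 0

open Classical in
/-- denominators -/
noncomputable def den (g e : ℕ) (P : Pt g e) (m : Mt g) : MvPolynomial (Vt g e P.1) ℤ :=
  if m.2.1 ∈ P.2.2 m.1 ∧ ∃ l, P.2.1 m.1 l = m.2.1 then dn e g P.1 (P.2.1 m.1) else 1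

lemma card_V (g e : ℕ) (b0 : Fin e → Fin g) (h : Function.Injective b0) :
    Fintype.card (Vt g e b0) = e * (g - e) := by
  rw [Fintype.card_prod, Fintype.card_fin]
  congr 1
  rw [Fintype.card_subtype]
  have h1 : (Finset.univ.filter (fun i : Fin g => ∀ l, b0 l ≠ i)) = (Finset.univ.image b0)ᶜ := by
    ext i
    simp
  rw [h1, Finset.card_compl, Finset.card_image_of_injective _ h, Finset.card_univ,
    Fintype.card_fin, Fintype.card_fin]

lemma inj_of_dn {F : Type} [Field F] (g e : ℕ) (b0 b : Fin e → Fin g) (t : Vt g e b0 → F)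
    (h : aeval t (dn e g b0 b) ≠ 0) (l l' : Fin e) (hl : b l = b l') : l = l' := by
  by_contra hne
  apply h
  have h1 : dn e g b0 b = 0 := by
    unfold dn
    apply Matrix.det_zero_of_column_eq hne
    intro k
    rw [Matrix.submatrix_apply, Matrix.submatrix_apply, hl]
  rw [h1, map_zero]

lemma val_mem {F : Type} [Field F] (g e : ℕ) (P : Pt g e) (t : Vt g e P.1 → F) (S : Finset (Fin g))
    (j i : Fin g) (hj : j ∈ P.2.2 S) (hd : aeval t (dn e g P.1 (P.2.1 S)) ≠ 0) (l : Fin e)
    (hl : P.2.1 S l = j) :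
    aeval t (num g e P (S, j, i)) / aeval t (den g e P (S, j, i)) =
      aeval t (nm e g P.1 (P.2.1 S) l i) / aeval t (dn e g P.1 (P.2.1 S)) := by
  have hc : j ∈ P.2.2 S ∧ ∃ l, P.2.1 S l = j := ⟨hj, l, hl⟩
  have h1 : hc.2.choose = l := by
    apply inj_of_dn g e P.1 (P.2.1 S) t hd
    rw [hc.2.choose_spec, hl]
  unfold num den
  simp only
  rw [dif_pos hc, if_pos hc, h1]

lemma val_notMem {F : Type} [Field F] (g e : ℕ) (P : Pt g e) (t : Vt g e P.1 → F)
    (S : Finset (Fin g)) (j i : Fin g) (hj : j ∉ P.2.2 S) :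
    aeval t (num g e P (S, j, i)) / aeval t (den g e P (S, j, i)) = 0 := by
  have hc : ¬ (j ∈ P.2.2 S ∧ ∃ l, P.2.1 S l = j) := fun h => hj h.1
  unfold num den
  simp only
  rw [dif_neg hc, if_neg hc, map_zero, zero_div]

lemma den_ne {F : Type} [Field F] (g e : ℕ) (P : Pt g e) (t : Vt g e P.1 → F)
    (hd : ∀ S, aeval t (dn e g P.1 (P.2.1 S)) ≠ 0) (m : Mt g) :
    aeval t (den g e P m) ≠ 0 := by
  unfold den
  split_ifs
  · exact hd m.1
  · rw [map_one]
    exact one_ne_zero

/-- all the residual data -/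
lemma exists_DD (h1 : T_RAT) (h2 : T_ECH) (g e : ℕ) : ∃ C1 : ℕ, ∀ (k : Type) [Field k]
    (p f : ℕ), p.Prime → 1 ≤ f → CharP k p → ∃ DD : Finset (Dat g k),
      DD.card ≤ C1 * (p ^ f) ^ (e * (g - e)) ∧
      ∀ (F : Type) [Field F] [CharZero F] (v : AbsoluteValue F ℝ) (r : F → k), Red v r →
        v (p : F) < 1 → (∀ x, v x ≤ 1 → r x ^ (p ^ f) = r x) →
        ∀ U : Submodule F (Fin g → F), Module.finrank F U = e →
          ∃ D ∈ DD, Rz (fun x => v x) r U e D := by
  classical
  choose CP hCP using (fun P : Pt g e => h1 (Vt g e P.1) (Mt g) (num g e P) (den g e P))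
  refine ⟨∑ P : Pt g e, CP P, ?_⟩
  intro k _ p f hp hf hk
  choose Y hYc hY using (fun P : Pt g e => hCP P k p f hp hf hk)
  refine ⟨(Finset.univ.filter (fun P : Pt g e => Function.Injective P.1)).biUnion
    (fun P => (Y P).image (fun y => (fun S => (P.2.2 S, fun j i => y (S, j, i)) : Dat g k))),
    ?_, ?_⟩
  · refine Finset.card_biUnion_le.trans ?_
    rw [Finset.sum_mul]
    refine (Finset.sum_le_sum (g := fun P : Pt g e => CP P * (p ^ f) ^ (e * (g - e)))
      ?_).trans (Finset.sum_le_sum_of_subset (Finset.filter_subset _ _))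
    intro P hP
    refine Finset.card_image_le.trans ?_
    have h3 := hYc P
    rwa [card_V g e P.1 (Finset.mem_filter.mp hP).2] at h3
  · intro F _ _ v r hr hvp hfix U hU
    obtain ⟨b0, t, hb0, hE⟩ := h2 F g e U hU
    choose J τ hJc hτ using (fun S : Finset (Fin g) => RD.p_PIV F (fun x => v x) (map_zero v)
      (fun x hx => v.pos hx) (fun x y => map_mul v x y) (fun x y => hr.na x y) g
      (U ⊓ (⨅ i ∈ S, LinearMap.ker (LinearMap.proj i : (Fin g → F) →ₗ[F] F)) :
        Submodule F (Fin g → F)))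
    have hmem : ∀ S, ∀ i ∈ J S, τ S i ∈ U ∧ ∀ i' ∈ S, τ S i i' = 0 := by
      intro S i hi
      have h3 := (hτ S i hi).1
      rw [Submodule.mem_inf] at h3
      refine ⟨h3.1, ?_⟩
      intro i' hi'
      have h4 := h3.2
      simp only [Submodule.mem_iInf] at h4
      exact h4 i' hi'
    choose b hbd hb using (fun S : Finset (Fin g) => hE S (J S) (τ S) (fun j hj =>
      ⟨(hmem S j hj).1, (hτ S j hj).2.1, (hτ S j hj).2.2.1, (hmem S j hj).2⟩) (hJc S))
    set P : Pt g e := (b0, b, J) with hP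
    have hval : ∀ S j i, j ∈ J S →
        aeval t (num g e P (S, j, i)) / aeval t (den g e P (S, j, i)) = τ S j i := by
      intro S j i hj
      obtain ⟨l, hl, h3⟩ := hb S j hj
      rw [h3 i]
      exact val_mem g e P t S j i hj (hbd S) l hl
    have hval0 : ∀ S j i, j ∉ J S →
        aeval t (num g e P (S, j, i)) / aeval t (den g e P (S, j, i)) = 0 :=
      fun S j i hj => val_notMem g e P t S j i hj
    have hle : ∀ m : Mt g, v (aeval t (num g e P m) / aeval t (den g e P m)) ≤ 1 := by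
      rintro ⟨S, j, i⟩
      by_cases hj : j ∈ J S
      · rw [hval S j i hj]
        exact (hτ S j hj).2.2.2 i
      · rw [hval0 S j i hj, map_zero]
        exact zero_le_one
    have hy := hY P F v r hr hvp t (den_ne g e P t hbd) hle (fun m => hfix _ (hle m))
    refine ⟨_, Finset.mem_biUnion.mpr ⟨P, Finset.mem_filter.mpr ⟨Finset.mem_univ _, hb0⟩,
      Finset.mem_image.mpr ⟨_, hy, rfl⟩⟩, ?_⟩
    intro S
    refine ⟨?_, ?_, τ S, ?_⟩
    · show Disjoint (J S) S
      rw [Finset.disjoint_left]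
      intro i hi hi'
      have h3 := (hτ S i hi).2.1
      rw [(hmem S i hi).2 i hi'] at h3
      exact zero_ne_one h3
    · show e ≤ (J S).card + S.card
      have hdim := RD.p_DIM F g U S
      rw [hU, ← hJc S] at hdim
      exact hdim
    · intro i hi
      have hi' : i ∈ J S := hi
      refine ⟨(hmem S i hi').1, (hτ S i hi').2.1, (hτ S i hi').2.2.1, (hmem S i hi').2, ?_⟩
      intro i'
      refine ⟨(hτ S i hi').2.2.2 i', ?_⟩
      show r (τ S i i') = r (aeval t (num g e P (S, i, i')) / aeval t (den g e P (S, i, i')))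
      rw [hval S i i' hi']

end DAT_

open DAT_ in
/-- DAT: the pairs of residual data at the two classes of embeddings -/
theorem p_DAT (h1 : T_RAT) (h2 : T_ECH) (h3 : T_FRB) : T_DAT := by
  classical
  intro g e
  obtain ⟨C1, hC1⟩ := exists_DD h1 h2 g e
  refine ⟨C1 ^ 2 + C1, ?_⟩
  intro k _ p hp hk
  obtain ⟨D1, hD1c, hD1⟩ := hC1 k p 1 hp le_rfl hk
  obtain ⟨D2, hD2c, hD2⟩ := hC1 k p 2 hp (by norm_num) hk
  set m := e * (g - e) with hm
  set A : Finset (Bool → Dat g k) :=
    (D1 ×ˢ D1).image (fun q => fun b : Bool => if b then q.1 else q.2) with hA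
  set fr : Dat g k → Dat g k := fun D S => ((D S).1, fun i i' => (D S).2 i i' ^ p) with hfr
  set B : Finset (Bool → Dat g k) :=
    D2.image (fun D => fun b : Bool => if b then D else fr D) with hB
  refine ⟨A ∪ B, ?_, ?_⟩
  · have hAc : A.card ≤ C1 ^ 2 * p ^ (2 * m) := by
      refine Finset.card_image_le.trans ?_
      rw [Finset.card_product]
      rw [pow_one] at hD1c
      calc D1.card * D1.card ≤ (C1 * p ^ m) * (C1 * p ^ m) := Nat.mul_le_mul hD1c hD1c
        _ = C1 ^ 2 * p ^ (2 * m) := by ring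
    have hBc : B.card ≤ C1 * p ^ (2 * m) := by
      refine Finset.card_image_le.trans ?_
      rw [← pow_mul] at hD2c
      exact hD2c
    calc (A ∪ B).card ≤ A.card + B.card := Finset.card_union_le _ _
      _ ≤ C1 ^ 2 * p ^ (2 * m) + C1 * p ^ (2 * m) := Nat.add_le_add hAc hBc
      _ = (C1 ^ 2 + C1) * p ^ (2 * m) := by ring
  · intro Ω _ _ v r hr hvp a t n ha U hU
    -- the lemma for one embedding
    have key : ∀ (f : ℕ) (DD : Finset (Dat g k)), (∀ (F : Type) [Field F] [CharZero F]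
        (v : AbsoluteValue F ℝ) (r : F → k), Red v r →
        v (p : F) < 1 → (∀ x, v x ≤ 1 → r x ^ (p ^ f) = r x) →
        ∀ U : Submodule F (Fin g → F), Module.finrank F U = e →
          ∃ D ∈ DD, Rz (fun x => v x) r U e D) → ∀ σ : Ω →+* Ω,
        (∀ x ∈ IntermediateField.adjoin ℚ {a}, v (σ x) ≤ 1 → r (σ x) ^ (p ^ f) = r (σ x)) →
        ∃ D ∈ DD, Rz (fun x : IntermediateField.adjoin ℚ {a} => v (σ (x : Ω)))
            (fun x => r (σ (x : Ω))) U e D := by
      intro f DD hDD σ hσ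
      have hcomp := hr.comp (σ.comp (algebraMap (IntermediateField.adjoin ℚ {a}) Ω))
      refine hDD (IntermediateField.adjoin ℚ {a}) _ _ hcomp ?_ ?_ U hU
      · show v ((σ.comp (algebraMap (IntermediateField.adjoin ℚ {a}) Ω)) (p : _)) < 1
        rw [map_natCast]
        exact hvp
      · intro x hx
        exact hσ x x.2 hx
    -- the class of the identity
    have hid : ∀ D : Dat g k, Rz (fun x : IntermediateField.adjoin ℚ {a} =>
          v ((RingHom.id Ω) (x : Ω))) (fun x => r ((RingHom.id Ω) (x : Ω))) U e D →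
        ∀ σ : Ω →+* Ω, σ a = a → Rz (fun x : IntermediateField.adjoin ℚ {a} => v (σ (x : Ω)))
            (fun x => r (σ (x : Ω))) U e D := by
      intro D hD σ hσ
      have hx : ∀ x : IntermediateField.adjoin ℚ {a}, σ (x : Ω) = (RingHom.id Ω) (x : Ω) :=
        fun x => PKD.GRP_.sigma_eq σ (RingHom.id Ω) a t n ha hσ x x.2
      have e1 : (fun x : IntermediateField.adjoin ℚ {a} => v (σ (x : Ω))) =
          fun x : IntermediateField.adjoin ℚ {a} => v ((RingHom.id Ω) (x : Ω)) := by
        funext x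
        rw [hx x]
      have e2 : (fun x : IntermediateField.adjoin ℚ {a} => r (σ (x : Ω))) =
          fun x : IntermediateField.adjoin ℚ {a} => r ((RingHom.id Ω) (x : Ω)) := by
        funext x
        rw [hx x]
      rw [e1, e2]
      exact hD
    rcases h3 Ω k p v r hr hp hvp a t n ha with hcase | hcase
    · have hc1 : ∀ σ : Ω →+* Ω, ∀ x ∈ IntermediateField.adjoin ℚ {a}, v (σ x) ≤ 1 →
          r (σ x) ^ (p ^ 1) = r (σ x) := by
        intro σ x hx h
        rw [pow_one]
        exact hcase σ x hx h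
      obtain ⟨Dt, hDt, hRt⟩ := key 1 D1 hD1 (RingHom.id Ω) (hc1 _)
      by_cases hex : ∃ σ2 : Ω →+* Ω, σ2 a ≠ a
      · obtain ⟨σ2, hσ2⟩ := hex
        obtain ⟨Df, hDf, hRf⟩ := key 1 D1 hD1 σ2 (hc1 _)
        refine ⟨fun b : Bool => if b then Dt else Df, ?_, ?_⟩
        · exact Finset.mem_union_left _ (Finset.mem_image.mpr ⟨(Dt, Df),
            Finset.mem_product.mpr ⟨hDt, hDf⟩, rfl⟩)
        · intro σ
          refine ⟨fun h => hid Dt hRt σ h, fun h => ?_⟩
          have hσσ : σ a = σ2 a := by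
            rcases PKD.GRP_.root_cases a (σ a) t n ha (PKD.GRP_.sigma_root σ a t n ha) with h6 | h6
            · exact absurd h6 h
            · rcases PKD.GRP_.root_cases a (σ2 a) t n ha
                (PKD.GRP_.sigma_root σ2 a t n ha) with h7 | h7
              · exact absurd h7 hσ2
              · rw [h6, h7]
          have hx : ∀ x : IntermediateField.adjoin ℚ {a}, σ (x : Ω) = σ2 (x : Ω) :=
            fun x => PKD.GRP_.sigma_eq σ σ2 a t n ha hσσ x x.2
          have e1 : (fun x : IntermediateField.adjoin ℚ {a} => v (σ (x : Ω))) =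
              fun x : IntermediateField.adjoin ℚ {a} => v (σ2 (x : Ω)) := by
            funext x
            rw [hx x]
          have e2 : (fun x : IntermediateField.adjoin ℚ {a} => r (σ (x : Ω))) =
              fun x : IntermediateField.adjoin ℚ {a} => r (σ2 (x : Ω)) := by
            funext x
            rw [hx x]
          rw [e1, e2]
          exact hRf
      · refine ⟨fun b : Bool => if b then Dt else Dt, ?_, ?_⟩
        · exact Finset.mem_union_left _ (Finset.mem_image.mpr ⟨(Dt, Dt),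
            Finset.mem_product.mpr ⟨hDt, hDt⟩, rfl⟩)
        · intro σ
          exact ⟨fun h => hid Dt hRt σ h, fun h => absurd ⟨σ, h⟩ hex⟩
    · have hc2 : ∀ x ∈ IntermediateField.adjoin ℚ {a}, v ((RingHom.id Ω) x) ≤ 1 →
          r ((RingHom.id Ω) x) ^ (p ^ 2) = r ((RingHom.id Ω) x) := by
        intro x hx h
        obtain ⟨q', r', s', hq', hx'⟩ := RD.p_QFD Ω a t n ha x hx
        exact PKD.p_RES Ω k p v r hr hp hvp a x t n q' r' s' ha hq' hx' h
      obtain ⟨Dt, hDt, hRt⟩ := key 2 D2 hD2 (RingHom.id Ω) hc2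
      refine ⟨fun b : Bool => if b then Dt else fr Dt, ?_, ?_⟩
      · exact Finset.mem_union_right _ (Finset.mem_image.mpr ⟨Dt, hDt, rfl⟩)
      · intro σ
        refine ⟨fun h => hid Dt hRt σ h, fun h => ?_⟩
        have hfrob := hcase (RingHom.id Ω) σ (fun h' => h h'.symm)
        intro S
        obtain ⟨hS1, hS2, τ, hτ⟩ := hRt S
        refine ⟨hS1, hS2, τ, ?_⟩
        intro i hi
        obtain ⟨a1, a2, a3, a4, a5⟩ := hτ i hi
        refine ⟨a1, a2, a3, a4, ?_⟩
        intro i'
        obtain ⟨b1, b2⟩ := hfrob (τ i i' : Ω) (τ i i').2 (a5 i').1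
        refine ⟨b1, ?_⟩
        show r (σ (τ i i' : Ω)) = (Dt S).2 i i' ^ p
        rw [b2]
        exact congrArg (· ^ p) (a5 i').2

end PKE
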