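import Pool.Agent.PKE.Targets
import Pool.Agent.RD.PIV

/-!
ECH: echelon bases of the coordinate sections of a subspace.
-/

set_option autoImplicit false

namespace PKE

open MvPolynomial

namespace ECH_

variable {F : Type} [Field F]

/-- A vector of a space with an echelon basis is determined by the pivots. -/
lemma pivot {g : ℕ} {W : Submodule F (Fin g → F)} {J : Finset (Fin g)}
    {τ : Fin g → Fin g → F}
    (h : ∀ j ∈ J, τ j ∈ W ∧ τ j j = 1 ∧ ∀ j' ∈ J, j' ≠ j → τ j j' = 0)
    (hJ : J.card = Module.finrank F W) :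
    ∀ u ∈ W, (∀ j ∈ J, u j = 0) → u = 0 := by
  classical
  let φ : W →ₗ[F] (J → F) :=
    { toFun := fun u j => u.1 j.1
      map_add' := fun u w => rfl
      map_smul' := fun c u => rfl }
  have hsurj : Function.Surjective φ := by
    intro c
    refine ⟨⟨∑ j : J, c j • τ j.1, W.sum_mem fun j _ => W.smul_mem _ (h j.1 j.2).1⟩, ?_⟩
    funext j'
    show (∑ j : J, c j • τ j.1) j'.1 = c j'
    rw [Finset.sum_apply, Finset.sum_eq_single j']
    · rw [Pi.smul_apply, (h j'.1 j'.2).2.1, smul_eq_mul, mul_one]
    · intro j _ hj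
      rw [Pi.smul_apply, (h j.1 j.2).2.2 j'.1 j'.2 (fun hh => hj (Subtype.ext hh.symm)),
        smul_zero]
    · intro hh
      exact absurd (Finset.mem_univ _) hh
  have hinj : Function.Injective φ := by
    rw [LinearMap.injective_iff_surjective_of_finrank_eq_finrank]
    · exact hsurj
    · rw [Module.finrank_fintype_fun_eq_card, Fintype.card_coe, hJ]
  intro u hu hz
  have h1 : φ ⟨u, hu⟩ = φ 0 := by
    funext j
    show u j.1 = 0
    exact hz j.1 j.2
  have h2 := hinj h1
  exact congrArg Subtype.val h2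

/-- An enumeration of the pivots of a basis. -/
lemma start {g e : ℕ} {U : Submodule F (Fin g → F)} (hU : Module.finrank F U = e) :
    ∃ (b0 : Fin e → Fin g) (u : Fin e → Fin g → F), Function.Injective b0 ∧
      (∀ l, u l ∈ U) ∧ (∀ l l', u l (b0 l') = if l = l' then 1 else 0) ∧
      ∀ x ∈ U, (∀ l, x (b0 l) = 0) → x = 0 := by
  classical
  obtain ⟨J, τ, hJ, hτ⟩ := RD.p_PIV F (fun x => if x = 0 then 0 else 1) (by simp)
    (by intro x hx; simp [hx]) (by
      intro x y
      by_cases hx : x = 0 <;> by_cases hy : y = 0 <;> simp [hx, hy]) (by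
      intro x y
      by_cases hx : x = 0
      · simp only [hx, zero_add]
        exact le_max_right _ _
      · by_cases hxy : x + y = 0
        · simp [hxy, hx]
        · simp [hx, hxy]) g U
  have hJe : J.card = e := hJ.trans hU
  refine ⟨J.orderEmbOfFin hJe, fun l => τ (J.orderEmbOfFin hJe l),
    (J.orderEmbOfFin hJe).injective, fun l => ?_, fun l l' => ?_, fun x hx hz => ?_⟩
  · exact (hτ _ (J.orderEmbOfFin_mem hJe l)).1
  · by_cases hl : l = l'
    · subst hl
      rw [if_pos rfl]
      exact (hτ _ (J.orderEmbOfFin_mem hJe l)).2.1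
    · rw [if_neg hl]
      exact (hτ _ (J.orderEmbOfFin_mem hJe l)).2.2.1 _ (J.orderEmbOfFin_mem hJe l')
        (fun hh => hl ((J.orderEmbOfFin hJe).injective hh).symm)
  · refine pivot (J := J) (τ := τ) (fun j hj => ⟨(hτ j hj).1, (hτ j hj).2.1, (hτ j hj).2.2.1⟩)
      hJ x hx (fun j hj => ?_)
    have : j ∈ Set.range (J.orderEmbOfFin hJe) := by
      rw [Finset.range_orderEmbOfFin]
      exact hj
    obtain ⟨l, hl⟩ := this
    rw [← hl]
    exact hz l

end ECH_

open ECH_ in
theorem p_ECH : T_ECH := by
  classical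
  intro F _ g e U hU
  obtain ⟨b0, u, hb0, huU, hub, huz⟩ := start hU
  let Em : Matrix (Fin e) (Fin g) F := fun l i => u l i
  let t : Fin e × {i : Fin g // ∀ l, b0 l ≠ i} → F := fun q => u q.1 q.2.1
  have hmem : ∀ lam : Fin e → F, Matrix.vecMul lam Em ∈ U := by
    intro lam
    have : Matrix.vecMul lam Em = ∑ l, lam l • u l := by
      funext i
      rw [Finset.sum_apply]
      rfl
    rw [this]
    exact U.sum_mem fun l _ => U.smul_mem _ (huU l)
  have hvb : ∀ (lam : Fin e → F) (l : Fin e), Matrix.vecMul lam Em (b0 l) = lam l := by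
    intro lam l
    show ∑ l', lam l' * u l' (b0 l) = lam l
    simp [hub]
  have hrep : ∀ x ∈ U, Matrix.vecMul (fun l => x (b0 l)) Em = x := by
    intro x hx
    have h1 := huz (Matrix.vecMul (fun l => x (b0 l)) Em - x) (U.sub_mem (hmem _) hx)
      (fun l => by rw [Pi.sub_apply, hvb, sub_self])
    exact sub_eq_zero.1 h1
  have hgen : ∀ l i, aeval t (gen e g b0 l i) = Em l i := by
    intro l i
    unfold gen
    by_cases h : ∀ l', b0 l' ≠ i
    · rw [dif_pos h, aeval_X]
    · rw [dif_neg h]
      push Not at h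
      obtain ⟨l', hl'⟩ := h
      subst hl'
      show _ = u l (b0 l')
      rw [hub]
      by_cases hl : l = l'
      · subst hl
        simp
      · rw [if_neg hl, if_neg (fun hh => hl (hb0 hh)), map_zero]
  have hdet : ∀ b : Fin e → Fin g,
      aeval t (((gen e g b0).submatrix id b).det) = (Em.submatrix id b).det := by
    intro b
    rw [AlgHom.map_det]
    congr 1
    ext l i
    simp only [AlgHom.mapMatrix_apply, Matrix.map_apply, Matrix.submatrix_apply, id]
    exact hgen l (b i)
  refine ⟨b0, t, hb0, fun S J τ hτ hJ => ?_⟩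
  have hmemS : ∀ x : Fin g → F, x ∈ (U ⊓ (⨅ i ∈ S, LinearMap.ker
      (LinearMap.proj i : (Fin g → F) →ₗ[F] F)) : Submodule F (Fin g → F)) ↔
      x ∈ U ∧ ∀ i ∈ S, x i = 0 := by
    intro x
    simp [Submodule.mem_inf, Submodule.mem_iInf, LinearMap.mem_ker]
  have hzero : ∀ x ∈ U, (∀ i ∈ J, x i = 0) → (∀ i ∈ S, x i = 0) → x = 0 := by
    intro x hx h1 h2
    refine pivot (J := J) (τ := τ) (fun j hj => ⟨(hmemS _).2 ⟨(hτ j hj).1, (hτ j hj).2.2.2⟩,
      (hτ j hj).2.1, (hτ j hj).2.2.1⟩) hJ x ((hmemS x).2 ⟨hx, h2⟩) h1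
  -- the columns in `J` are independent
  have hind : LinearIndepOn F (fun i => fun l => Em l i) (J : Set (Fin g)) := by
    rw [linearIndepOn_finset_iff]
    intro f hf j hj
    have h1 : ∀ lam : Fin e → F, ∑ i ∈ J, f i * Matrix.vecMul lam Em i = 0 := by
      intro lam
      have h2 : ∀ l, ∑ i ∈ J, f i * Em l i = 0 := by
        intro l
        have := congrFun hf l
        rw [Finset.sum_apply] at this
        exact this
      calc ∑ i ∈ J, f i * Matrix.vecMul lam Em i
          = ∑ i ∈ J, ∑ l, lam l * (f i * Em l i) := by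
            refine Finset.sum_congr rfl fun i _ => ?_
            show f i * ∑ l, lam l * Em l i = _
            rw [Finset.mul_sum]
            exact Finset.sum_congr rfl fun l _ => by ring
        _ = ∑ l, lam l * ∑ i ∈ J, f i * Em l i := by
            rw [Finset.sum_comm]
            exact Finset.sum_congr rfl fun l _ => by rw [Finset.mul_sum]
        _ = 0 := by simp [h2]
    have h3 := h1 (fun l => τ j (b0 l))
    rw [hrep _ (hτ j hj).1, Finset.sum_eq_single j] at h3
    · rw [(hτ j hj).2.1, mul_one] at h3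
      exact h3
    · intro i hi hij
      rw [(hτ j hj).2.2.1 i hi hij, mul_zero]
    · intro hh
      exact absurd hj hh
  obtain ⟨Bs, hBt, hJB, hspan, hBind⟩ := exists_linearIndepOn_extension hind
    (Set.subset_union_left : (J : Set (Fin g)) ⊆ (J : Set (Fin g)) ∪ (S : Set (Fin g)))
  -- the columns in `J ∪ S` span
  have htop : Submodule.span F ((fun i => fun l => Em l i) '' Bs) = ⊤ := by
    by_contra hcon
    obtain ⟨f, hf0, hf⟩ := Submodule.exists_le_ker_of_lt_top _ (lt_top_iff_ne_top.2 hcon)
    apply hf0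
    let lam : Fin e → F := fun l => f (fun j => if l = j then 1 else 0)
    have hflam : ∀ x : Fin e → F, f x = ∑ l, x l * lam l := by
      intro x
      rw [LinearMap.pi_apply_eq_sum_univ f x]
      rfl
    have h1 : ∀ i ∈ (J : Set (Fin g)) ∪ (S : Set (Fin g)), Matrix.vecMul lam Em i = 0 := by
      intro i hi
      have h2 : (fun l => Em l i) ∈ Submodule.span F ((fun i => fun l => Em l i) '' Bs) :=
        hspan ⟨i, hi, rfl⟩
      have h3 := hf h2
      rw [LinearMap.mem_ker, hflam] at h3
      show ∑ l, lam l * Em l i = 0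
      rw [← h3]
      exact Finset.sum_congr rfl fun l _ => mul_comm _ _
    have h2 := hzero _ (hmem lam) (fun i hi => h1 i (Or.inl hi)) (fun i hi => h1 i (Or.inr hi))
    have h3 : ∀ l, lam l = 0 := by
      intro l
      rw [← hvb lam l, h2]
      rfl
    ext x
    rw [LinearMap.comp_apply, hflam]
    simp [h3]
  -- the cardinal of `B`
  have hcard : Fintype.card Bs = e := by
    have h1 : LinearIndependent F (fun i : Bs => (fun l => Em l i.1)) := hBind
    have h2 := finrank_span_eq_card h1
    have h3 : Set.range (fun i : Bs => (fun l => Em l i.1)) =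
        (fun i => fun l => Em l i) '' Bs := by
      ext x
      constructor
      · rintro ⟨i, rfl⟩
        exact ⟨i.1, i.2, rfl⟩
      · rintro ⟨i, hi, rfl⟩
        exact ⟨⟨i, hi⟩, rfl⟩
    rw [h3, htop, finrank_top, Module.finrank_fintype_fun_eq_card, Fintype.card_fin] at h2
    exact h2.symm
  let eq : Fin e ≃ Bs := (Fintype.equivFinOfCardEq hcard).symm
  let b : Fin e → Fin g := fun l => (eq l).1
  have hbinj : Function.Injective b := fun l l' h => eq.injective (Subtype.ext h)
  have hcols : LinearIndependent F (Em.submatrix id b).col := by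
    have h1 : LinearIndependent F (fun i : Bs => (fun l => Em l i.1)) := hBind
    exact h1.comp eq eq.injective
  have hunit : (Em.submatrix id b).det ≠ 0 := by
    have h1 := Matrix.linearIndependent_cols_iff_isUnit.1 hcols
    exact ((Matrix.isUnit_iff_isUnit_det _).1 h1).ne_zero
  refine ⟨b, by rw [dn, hdet]; exact hunit, fun j hj => ?_⟩
  have hjB : j ∈ Bs := hJB hj
  refine ⟨eq.symm ⟨j, hjB⟩, ?_, fun i => ?_⟩
  · show (eq (eq.symm ⟨j, hjB⟩)).1 = j
    rw [Equiv.apply_symm_apply]
  · set l0 := eq.symm ⟨j, hjB⟩ with hl0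
    have hbl0 : b l0 = j := by
      show (eq (eq.symm ⟨j, hjB⟩)).1 = j
      rw [Equiv.apply_symm_apply]
    rw [dn, nm, hdet, hdet, eq_div_iff hunit]
    set N := Em.submatrix id b with hN
    set lam : Fin e → F := fun l => τ j (b0 l) with hlam
    have hlamN : Matrix.vecMul lam N = fun l => if l = l0 then 1 else 0 := by
      funext l
      have h1 : Matrix.vecMul lam N l = Matrix.vecMul lam Em (b l) := rfl
      rw [h1, hrep _ (hτ j hj).1]
      by_cases hl : l = l0
      · rw [if_pos hl, hl, hbl0]
        exact (hτ j hj).2.1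
      · rw [if_neg hl]
        have hne : b l ≠ j := by
          rw [← hbl0]
          exact fun hh => hl (hbinj hh)
        rcases hBt (eq l).2 with h2 | h2
        · exact (hτ j hj).2.2.1 _ h2 hne
        · exact (hτ j hj).2.2.2 _ h2
    have hadj : ∀ l, N.det * lam l = N.adjugate l0 l := by
      intro l
      have h1 : Matrix.vecMul (Matrix.vecMul lam N) N.adjugate = N.det • lam := by
        rw [Matrix.vecMul_vecMul, Matrix.mul_adjugate, Matrix.vecMul_smul, Matrix.vecMul_one]
      rw [hlamN] at h1
      have h2 := congrFun h1 l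
      rw [Pi.smul_apply, smul_eq_mul] at h2
      rw [← h2]
      show ∑ l', (if l' = l0 then 1 else 0) * N.adjugate l' l = _
      simp
    have hupd : Em.submatrix id (Function.update b l0 i) =
        N.updateCol l0 (fun l => Em l i) := by
      ext l l'
      by_cases hl : l' = l0
      · subst hl
        simp [hN]
      · simp [hN, hl]
    rw [hupd, ← Matrix.cramer_apply, Matrix.cramer_eq_adjugate_mulVec]
    show _ = ∑ l, N.adjugate l0 l * Em l i
    have h1 : τ j i = ∑ l, lam l * Em l i := by
      have := congrFun (hrep _ (hτ j hj).1) i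
      rw [← this]
      rfl
    rw [h1, Finset.sum_mul]
    refine Finset.sum_congr rfl fun l _ => ?_
    rw [← hadj l]
    ring

end PKE
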