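import Pool.Agent.PKE.Targets

set_option autoImplicit false

open MvPolynomial RD

namespace PKE

namespace ELQ_

/-- substituting polynomials of degree at most one does not increase the degree -/
theorem deg_aeval {k σ τ : Type} [Field k] (ψ : σ → MvPolynomial τ k)
    (hψ : ∀ i, (ψ i).totalDegree ≤ 1) (q : MvPolynomial σ k) :
    (aeval ψ q).totalDegree ≤ q.totalDegree := by
  classical
  rw [aeval_def, eval₂_eq]
  refine totalDegree_finsetSum_le (fun m hm => ?_)
  refine (totalDegree_mul _ _).trans ?_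
  have h1 : (algebraMap k (MvPolynomial τ k) (coeff m q)).totalDegree = 0 := by
    rw [algebraMap_eq]; exact totalDegree_C _
  rw [h1, zero_add]
  refine (totalDegree_finsetProd _ _).trans ?_
  have h2 : ∀ i ∈ m.support, (ψ i ^ m i).totalDegree ≤ m i := fun i _ => by
    refine (totalDegree_pow _ _).trans ?_
    have := Nat.mul_le_mul_left (m i) (hψ i)
    simpa using this
  refine (Finset.sum_le_sum h2).trans ?_
  have h3 := le_totalDegree hm
  exact h3

theorem eval_aev {k σ τ : Type} [Field k] (ψ : σ → MvPolynomial τ k) (x : τ → k)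
    (q : MvPolynomial σ k) : eval x (aeval ψ q) = eval (fun i => eval x (ψ i)) q := by
  induction q using MvPolynomial.induction_on with
  | C a => simp
  | add p q hp hq => rw [map_add, map_add, map_add, hp, hq]
  | mul_X p i hp => rw [map_mul, map_mul, map_mul, hp, aeval_X, eval_X]

end ELQ_

theorem p_ELQ (h : PKD.T_ELI) : T_ELQ := by
  intro d n D ρ ι A _ _ _ _ Q
  have hQd : Q.card ≤ d := by
    have := Finset.card_le_univ Q
    simpa using this
  have hE : Fintype.card {i : Fin d // i ∉ Q} = d - Q.card := by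
    rw [Fintype.card_subtype_compl]
    simp
  let E : {i : Fin d // i ∉ Q} ≃ Fin (d - Q.card) := Fintype.equivFinOfCardEq hE
  let G : ι ≃ Fin (Fintype.card ι) := Fintype.equivFin ι
  obtain ⟨L, hL⟩ := h (d - Q.card) n D (Fintype.card ι) ρ A
  refine ⟨L, fun k _ b u α0 S J W τ hb hu hSW hJW hcard => ?_⟩
  let φ : Fin d → MvPolynomial (Fin (d - Q.card)) k :=
    fun i => if h : i ∈ Q then 0 else X (E ⟨i, h⟩)
  let ψ : Fin d ⊕ Fin n → MvPolynomial (Fin (d - Q.card) ⊕ Fin n) k :=
    Sum.elim (fun i => rename Sum.inl (φ i)) (fun j => X (Sum.inr j))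
  have hφ : ∀ i, (φ i).totalDegree ≤ 1 := by
    intro i
    by_cases hi : i ∈ Q
    · simp [φ, hi]
    · simp [φ, hi, totalDegree_X]
  have hψ : ∀ i, (ψ i).totalDegree ≤ 1 := by
    rintro (i | j)
    · exact (totalDegree_rename_le _ _).trans (hφ i)
    · simp [ψ, totalDegree_X]
  obtain ⟨Φ', h0, hd', hΦ⟩ := hL k (fun j l => aeval φ (b j l)) (fun α => aeval ψ (u α)) α0
    (S.map G.toEmbedding) (J.map G.toEmbedding) (W.map G.toEmbedding)
    (fun i i' => τ (G.symm i) (G.symm i'))
    (fun j l hl => (ELQ_.deg_aeval φ hφ _).trans (hb j l hl))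
    (fun α => (ELQ_.deg_aeval ψ hψ _).trans (hu α))
    ((Finset.disjoint_map _).mpr hSW) (Finset.map_subset_map.mpr hJW)
    (by rw [Finset.card_map, Finset.card_map]; omega)
  have hinj : Function.Injective (Prod.map G.symm (id : A → A)) :=
    G.symm.injective.prodMap Function.injective_id
  refine ⟨rename (Prod.map G.symm id) Φ', ?_, (totalDegree_rename_le _ _).trans hd', ?_⟩
  · intro h1
    apply h0
    apply rename_injective _ hinj
    rw [h1, map_zero]
  intro c p s hh hsys
  obtain ⟨s1, s2, s3, s4, s5, s6⟩ := hsys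
  rw [eval_rename]
  have e1 : ∀ i, eval (fun m => p (E.symm m).1) (φ i) = p i := by
    intro i
    by_cases hi : i ∈ Q
    · simp [φ, hi, s2 i hi]
    · simp [φ, hi]
  have e2 : ∀ q : MvPolynomial (Fin d) k, eval (fun m => p (E.symm m).1) (aeval φ q) =
      eval p q := by
    intro q
    rw [ELQ_.eval_aev]
    simp only [e1]
  have e3 : ∀ q : MvPolynomial (Fin d ⊕ Fin n) k,
      eval (Sum.elim (fun m => p (E.symm m).1) s) (aeval ψ q) = eval (Sum.elim p s) q := by
    intro q
    rw [ELQ_.eval_aev]
    congr 2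
    funext x
    rcases x with i | j
    · show eval _ (rename Sum.inl (φ i)) = _
      rw [eval_rename, Sum.elim_comp_inl, e1]
      rfl
    · simp [ψ]
  refine hΦ (c ∘ Prod.map G.symm id) (fun m => p (E.symm m).1) s (hh ∘ G.symm) ⟨?_, ?_, ?_, ?_, ?_⟩
  · intro j
    have := s1 j
    simp only [e2]
    exact this
  · rw [e3]; exact s3
  · intro i hi
    obtain ⟨i0, hi0, rfl⟩ := Finset.mem_map.mp hi
    have := s4 i0 hi0
    simp only [e3]
    simpa using this
  · intro i hi
    obtain ⟨i0, hi0, rfl⟩ := Finset.mem_map.mp hi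
    have := s5 i0 hi0
    simp only [e3]
    simpa using this
  · intro i hi
    obtain ⟨i0, hi0, rfl⟩ := Finset.mem_map.mp hi
    have h7 := s6 i0 hi0
    have h8 : W.map G.toEmbedding \ J.map G.toEmbedding = (W \ J).map G.toEmbedding := by
      ext x
      simp only [Finset.mem_sdiff, Finset.mem_map_equiv]
    rw [h8, Finset.sum_map]
    simpa using h7

end PKE
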