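import Pool.Agent.PKE.CRE
import Pool.Agent.PKD.BRG

/-! The final assembly. -/

set_option autoImplicit false
set_option maxHeartbeats 4000000

namespace PKE

open MvPolynomial RD PKD Filter

/-- the theorem, with coefficient functions `F0` -/
def T_FIN : Prop := ∀ (K : Type) [Field K] [NumberField K] [DecidableEq (AlgebraicClosure K)]
  (m : ℕ) (g : Fin m → ℕ) (d n w D : ℕ), w ≤ D → DegC g d (Module.finrank ℚ K) →
  ∀ (om : Module.Basis (Fin (Module.finrank ℚ K)) ℚ K) (ρ : Fin n → ℕ)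
    (b : Fin n → ℕ → MvPolynomial (Fin d) (AlgebraicClosure K))
    (A B : Fin m → MvPolynomial (Fin d ⊕ Fin n) (AlgebraicClosure K))
    (I : Finset (MonS d n D)) (F0 : (Σ k, Fin (g k)) × MonS d n D → AlgebraicClosure K),
    (∀ ty, al0 D ty ∈ I) →
    (∀ j l, l < ρ j → (b j l).totalDegree ≤ ρ j - l) →
    (∀ k, (A k).totalDegree ≤ 2 * w ∧ (B k).totalDegree ≤ 3 * w) →
  ∀ ε : ℝ, 0 < ε → ∃ C : ℝ, ∀ H : ℕ, 1 ≤ H →
    (Nat.card {x : ℕ × (((Σ k, Fin (g k)) × {α // α ∈ I}) → Fin (Module.finrank ℚ K) → ℤ) //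
      1 ≤ x.1 ∧ x.1 ≤ H ∧ (∀ u l, |x.2 u l| ≤ (H : ℤ)) ∧
      Bad g D ρ b A B (cf I F0 fun u => algebraMap K (AlgebraicClosure K)
        (∑ l, (x.2 u l : ℚ) • om l) / (x.1 : AlgebraicClosure K))} : ℝ) ≤
      C * (H : ℝ) ^ (((Module.finrank ℚ K * ((∑ k, g k) * I.card) : ℕ) : ℝ) + ε)

theorem p_FIN (hCRE : T_CRE) (hSV3 : T_SV3) : T_FIN := by
  classical
  intro K _ _ _ m g d n w D hwD hK om ρ b A B I F0 hI hb hdeg ε hε
  obtain ⟨C, p0, hC⟩ := hCRE K (AlgebraicClosure K) m g d n w D hwD hK om ρ b A B I F0 hI hb hdeg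
  have hex : ∀ p : ℕ, ∃ Bp : Finset (((Σ k, Fin (g k)) × {α // α ∈ I}) →
        Fin (Module.finrank ℚ K) → ZMod p),
      p0 ≤ p → p.Prime →
      Bp.card * p ≤
        C * p ^ (Module.finrank ℚ K * Fintype.card ((Σ k, Fin (g k)) × {α // α ∈ I})) ∧
      ∀ (β : ℕ) (a : ((Σ k, Fin (g k)) × {α // α ∈ I}) → Fin (Module.finrank ℚ K) → ℤ),
        0 < β → p ∣ β →
        Bad g D ρ b A B (cf I F0 fun u => algebraMap K (AlgebraicClosure K)
          (∑ l, (a u l : ℚ) • om l) / (β : AlgebraicClosure K)) →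
        (fun u l => (a u l : ZMod p)) ∈ Bp := by
    intro p
    by_cases h : p0 ≤ p ∧ p.Prime
    · obtain ⟨Bp, h1⟩ := hC p h.1 h.2
      exact ⟨Bp, fun _ _ => h1⟩
    · exact ⟨∅, fun h1 h2 => absurd ⟨h1, h2⟩ h⟩
  choose Bp hBp using hex
  let κ := ((Σ k, Fin (g k)) × {α // α ∈ I}) × Fin (Module.finrank ℚ K)
  have hcard : Fintype.card κ =
      Module.finrank ℚ K * Fintype.card ((Σ k, Fin (g k)) × {α // α ∈ I}) := by
    simp only [κ, Fintype.card_prod, Fintype.card_fin]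
    ring
  have hcard2 : Fintype.card κ = Module.finrank ℚ K * ((∑ k, g k) * I.card) := by
    rw [hcard, Fintype.card_prod, Fintype.card_sigma, Fintype.card_coe]
    simp only [Fintype.card_fin]
  obtain ⟨C', h1⟩ := hSV3 κ C p0 (fun p => (Bp p).map
      (Equiv.curry ((Σ k, Fin (g k)) × {α // α ∈ I}) (Fin (Module.finrank ℚ K))
        (ZMod p)).symm.toEmbedding)
    (fun β a => Bad g D ρ b A B (cf I F0 fun u => algebraMap K (AlgebraicClosure K)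
      (∑ l, (a (u, l) : ℚ) • om l) / (β : AlgebraicClosure K)))
    (fun p hp hpp => by
      rw [Finset.card_map, hcard]
      exact (hBp p hp hpp).1)
    (fun p hp hpp β a h2 h3 h4 => by
      have h5 := (hBp p hp hpp).2 β (fun u l => a (u, l)) h2 h3 h4
      rw [Finset.mem_map]
      refine ⟨_, h5, ?_⟩
      funext x
      rfl) ε hε
  rw [hcard2] at h1
  refine ⟨C', fun H hH => le_trans (le_of_eq ?_) (h1 H hH)⟩
  congr 1
  refine (Nat.card_congr (Equiv.subtypeEquiv ((Equiv.refl ℕ).prodCongr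
    (Equiv.curry ((Σ k, Fin (g k)) × {α // α ∈ I}) (Fin (Module.finrank ℚ K)) ℤ))
      fun x => ?_)).symm
  simp only [Equiv.prodCongr_apply, Prod.map_fst, Prod.map_snd, Equiv.refl_apply, Equiv.curry_apply]
  constructor
  · rintro ⟨a1, a2, a3, a4⟩
    exact ⟨a1, a2, fun u l => a3 (u, l), a4⟩
  · rintro ⟨a1, a2, a3, a4⟩
    exact ⟨a1, a2, fun i => a3 i.1 i.2, a4⟩

theorem fval_cf {Ω : Type} [Field Ω] {d n D : ℕ} {ι : Type} (I : Finset (MonS d n D))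
    (F : ι → MvPolynomial (Fin d ⊕ Fin n) Ω) (hF : ∀ i, (F i).totalDegree ≤ D)
    (c : ι × {α // α ∈ I} → Ω) (p : Fin d → Ω) (s : Fin n → Ω) (i : ι) :
    fval D (cf I (fun u => (F u.1).coeff (fsM u.2)) c) p s i =
      eval (Sum.elim p s) (F i) +
        ∑ α : {α // α ∈ I}, c (i, α) * ∏ j, Sum.elim p s j ^ (α.1.1 j : ℕ) := by
  classical
  rw [eval_mon (F i) (hF i)]
  unfold fval cf
  simp only [add_mul, Finset.sum_add_distrib]
  congr 1
  rw [PKD.COR_.sum_restrict I _ (fun α hα => by rw [dif_neg hα, zero_mul])]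
  refine Finset.sum_congr rfl fun α _ => ?_
  rw [dif_pos α.2]

theorem bad_iff {Ω : Type} [Field Ω] [DecidableEq Ω] {m : ℕ} (g : Fin m → ℕ) {d n D : ℕ}
    (ρ : Fin n → ℕ) (b : Fin n → ℕ → MvPolynomial (Fin d) Ω)
    (A B : Fin m → MvPolynomial (Fin d ⊕ Fin n) Ω) (I : Finset (MonS d n D))
    (F : (Σ k, Fin (g k)) → MvPolynomial (Fin d ⊕ Fin n) Ω) (hF : ∀ i, (F i).totalDegree ≤ D)
    (c : (Σ k, Fin (g k)) × {α // α ∈ I} → Ω) :
    Bad g D ρ b A B (cf I (fun u => (F u.1).coeff (fsM u.2)) c) ↔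
      ∃ (Q : Finset (Fin d)) (G : MvPolynomial (Fin d) Ω), G ≠ 0 ∧
        ∀ z : Fin d → Ω, eval z G ≠ 0 → ∃ (p : Fin d → Ω) (s : Fin n → Ω),
          (∀ j, s j ^ ρ j + ∑ l ∈ Finset.range (ρ j), eval p (b j l) * s j ^ l = 0) ∧
          (∀ i ∈ Q, p i = z i) ∧ ∃ e : Fin m → ℕ, ∑ k, e k + Q.card = d + 1 ∧
          ∃ P : (k : Fin m) → Fin (g k) →
            (curve 0 (eval (Sum.elim p s) (A k)) (eval (Sum.elim p s) (B k))).Point,
            (∀ k i, ∃ y h, P k i = WeierstrassCurve.Affine.Point.some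
              (eval (Sum.elim p s) (F ⟨k, i⟩) + ∑ α : {α // α ∈ I}, c (⟨k, i⟩, α) *
                ∏ j, Sum.elim p s j ^ (α.1.1 j : ℕ)) y h) ∧
            ∀ k, IntRel _ (e k) (P k) ∨ CMRel _ (e k) (P k) := by
  unfold Bad
  constructor
  · rintro ⟨Q, G, hG, h⟩
    refine ⟨Q, G, hG, fun z hz => ?_⟩
    obtain ⟨p, s, h1, h2, e, h3, P, h4, h5⟩ := h z hz
    exact ⟨p, s, h1, h2, e, h3, P,
      fun k i => (some_congr (fval_cf I F hF c p s ⟨k, i⟩) (P k i)).1 (h4 k i), h5⟩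
  · rintro ⟨Q, G, hG, h⟩
    refine ⟨Q, G, hG, fun z hz => ?_⟩
    obtain ⟨p, s, h1, h2, e, h3, P, h4, h5⟩ := h z hz
    exact ⟨p, s, h1, h2, e, h3, P,
      fun k i => (some_congr (fval_cf I F hF c p s ⟨k, i⟩) (P k i)).2 (h4 k i), h5⟩

/-- the theorem, with polynomials `F` -/
def T_FIN3 : Prop := ∀ (K : Type) [Field K] [NumberField K] [DecidableEq (AlgebraicClosure K)]
    (m : ℕ) (g : Fin m → ℕ) (d n w D : ℕ), w ≤ D →
    (∀ e : Fin m → ℕ, (∀ k, e k ≤ g k) → ∑ k, e k ≤ d + 1 →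
      2 * ∑ k, e k * (g k - e k) < Module.finrank ℚ K) →
    ∀ (om : Module.Basis (Fin (Module.finrank ℚ K)) ℚ K) (ρ : Fin n → ℕ)
    (b : Fin n → ℕ → MvPolynomial (Fin d) (AlgebraicClosure K))
    (A B : Fin m → MvPolynomial (Fin d ⊕ Fin n) (AlgebraicClosure K))
    (I : Finset (MonS d n D))
    (F : (Σ k, Fin (g k)) → MvPolynomial (Fin d ⊕ Fin n) (AlgebraicClosure K)),
    (∀ ty, al0 D ty ∈ I) →
    (∀ j l, l < ρ j → (b j l).totalDegree ≤ ρ j - l) →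
    (∀ k, (A k).totalDegree ≤ 2 * w ∧ (B k).totalDegree ≤ 3 * w) →
    (∀ i, (F i).totalDegree ≤ D) → ∀ ε : ℝ, 0 < ε → ∃ C : ℝ, ∀ H : ℕ, 1 ≤ H →
      (Nat.card {x : ℕ × (((Σ k, Fin (g k)) × {α // α ∈ I}) → Fin (Module.finrank ℚ K) → ℤ) //
        1 ≤ x.1 ∧ x.1 ≤ H ∧ (∀ u l, |x.2 u l| ≤ (H : ℤ)) ∧
        ∃ (Q : Finset (Fin d)) (G : MvPolynomial (Fin d) (AlgebraicClosure K)), G ≠ 0 ∧
          ∀ z : Fin d → AlgebraicClosure K, eval z G ≠ 0 →
          ∃ (p : Fin d → AlgebraicClosure K) (s : Fin n → AlgebraicClosure K),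
          (∀ j, s j ^ ρ j + ∑ l ∈ Finset.range (ρ j), eval p (b j l) * s j ^ l = 0) ∧
          (∀ i ∈ Q, p i = z i) ∧ ∃ e : Fin m → ℕ, ∑ k, e k + Q.card = d + 1 ∧
          ∃ P : (k : Fin m) → Fin (g k) →
            (curve 0 (eval (Sum.elim p s) (A k)) (eval (Sum.elim p s) (B k))).Point,
            (∀ k i, ∃ y h, P k i = WeierstrassCurve.Affine.Point.some
              (eval (Sum.elim p s) (F ⟨k, i⟩) + ∑ α : {α // α ∈ I},
                algebraMap K (AlgebraicClosure K) (∑ l, (x.2 (⟨k, i⟩, α) l : ℚ) • om l) /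
                  (x.1 : AlgebraicClosure K) *
                ∏ j, Sum.elim p s j ^ (α.1.1 j : ℕ)) y h) ∧
            ∀ k, IntRel _ (e k) (P k) ∨ CMRel _ (e k) (P k)} : ℝ) ≤
        C * (H : ℝ) ^ (((Module.finrank ℚ K * ((∑ k, g k) * I.card) : ℕ) : ℝ) + ε)

theorem p_FIN3 (h : T_FIN) : T_FIN3 := by
  classical
  intro K _ _ _ m g d n w D hwD hK om ρ b A B I F hI hb hdeg hF ε hε
  obtain ⟨C, hC⟩ := h K m g d n w D hwD hK om ρ b A B I (fun u => (F u.1).coeff (fsM u.2)) hI hb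
    hdeg ε hε
  refine ⟨C, fun H hH => le_trans (le_of_eq ?_) (hC H hH)⟩
  congr 1
  refine Nat.card_congr (Equiv.subtypeEquivRight fun x => ?_)
  rw [bad_iff g ρ b A B I F hF]

end PKE
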