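import Pool.Agent.PKE.CR2
import Pool.Agent.PKE.FIN

/-! The final assembly, uniformly in the elliptic schemes and in the fixed parts of the abscissas. -/

set_option autoImplicit false
set_option maxHeartbeats 4000000

namespace PKE

open MvPolynomial RD PKD

/-- the uniform theorem, with polynomials `F` -/
def T_FI2 : Prop := ∀ (K : Type) [Field K] [NumberField K] [DecidableEq (AlgebraicClosure K)]
    (m : ℕ) (g : Fin m → ℕ) (d n D : ℕ),
    (∀ e : Fin m → ℕ, (∀ k, e k ≤ g k) → ∑ k, e k ≤ d + 1 →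
      2 * ∑ k, e k * (g k - e k) < Module.finrank ℚ K) →
    ∀ (om : Module.Basis (Fin (Module.finrank ℚ K)) ℚ K) (ρ : Fin n → ℕ)
    (b : Fin n → ℕ → MvPolynomial (Fin d) (AlgebraicClosure K))
    (I : Finset (MonS d n D)),
    (∀ ty, al0 D ty ∈ I) →
    (∀ j l, l < ρ j → (b j l).totalDegree ≤ ρ j - l) → ∀ Δ : ℕ, 0 < Δ →
    ∀ ε : ℝ, 0 < ε → ∃ C : ℝ, ∀ H : ℕ, 1 ≤ H →
      (Nat.card {x : ℕ × (((Σ k, Fin (g k)) × {α // α ∈ I}) → Fin (Module.finrank ℚ K) → ℤ) //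
        1 ≤ x.1 ∧ x.1 ≤ H ∧ (∀ u l, |x.2 u l| ≤ (H : ℤ)) ∧
        ∃ (A B : Fin m → MvPolynomial (Fin d ⊕ Fin n) (AlgebraicClosure K))
          (F : (Σ k, Fin (g k)) → MvPolynomial (Fin d ⊕ Fin n) (AlgebraicClosure K)),
          (∀ k, (A k).totalDegree ≤ 2 * D ∧ (B k).totalDegree ≤ 3 * D) ∧
          (∀ i, (F i).totalDegree ≤ D) ∧
          (∀ t, (∀ k, ∃ j : ℕ, IsIntegral ℤ ((Δ : AlgebraicClosure K) ^ j * (A k).coeff t)) ∧
            (∀ k, ∃ j : ℕ, IsIntegral ℤ ((Δ : AlgebraicClosure K) ^ j * (B k).coeff t)) ∧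
            (∀ i, ∃ j : ℕ, IsIntegral ℤ ((Δ : AlgebraicClosure K) ^ j * (F i).coeff t))) ∧
        ∃ (Q : Finset (Fin d)) (G : MvPolynomial (Fin d) (AlgebraicClosure K)), G ≠ 0 ∧
          ∀ z : Fin d → AlgebraicClosure K, eval z G ≠ 0 →
          ∃ (p : Fin d → AlgebraicClosure K) (s : Fin n → AlgebraicClosure K),
          (∀ j, s j ^ ρ j + ∑ l ∈ Finset.range (ρ j), eval p (b j l) * s j ^ l = 0) ∧
          (∀ i ∈ Q, p i = z i) ∧ ∃ e : Fin m → ℕ, ∑ k, e k + Q.card = d + 1 ∧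
          ∃ P : (k : Fin m) → Fin (g k) →
            (curve 0 (eval (Sum.elim p s) (A k)) (eval (Sum.elim p s) (B k))).Point,
            (∀ k i, ∃ y h, P k i = WeierstrassCurve.Affine.Point.some
              (eval (Sum.elim p s) (F ⟨k, i⟩) + ∑ α : {α // α ∈ I},
                algebraMap K (AlgebraicClosure K) (∑ l, (x.2 (⟨k, i⟩, α) l : ℚ) • om l) /
                  (x.1 : AlgebraicClosure K) *
                ∏ j, Sum.elim p s j ^ (α.1.1 j : ℕ)) y h) ∧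
            ∀ k, IntRel _ (e k) (P k) ∨ CMRel _ (e k) (P k)} : ℝ) ≤
        C * (H : ℝ) ^ (((Module.finrank ℚ K * ((∑ k, g k) * I.card) : ℕ) : ℝ) + ε)

theorem p_FI2 (hCR2 : T_CR2) (hSV3 : T_SV3) : T_FI2 := by
  classical
  intro K _ _ _ m g d n D hK om ρ b I hI hb Δ hΔ ε hε
  obtain ⟨C, p0, hC⟩ := hCR2 K (AlgebraicClosure K) m g d n D hK om ρ b I hI hb Δ hΔ
  -- the property
  let BadU : ℕ → (((Σ k, Fin (g k)) × {α // α ∈ I}) → Fin (Module.finrank ℚ K) → ℤ) → Prop :=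
    fun β a => ∃ (A B : Fin m → MvPolynomial (Fin d ⊕ Fin n) (AlgebraicClosure K))
          (F : (Σ k, Fin (g k)) → MvPolynomial (Fin d ⊕ Fin n) (AlgebraicClosure K)),
          (∀ k, (A k).totalDegree ≤ 2 * D ∧ (B k).totalDegree ≤ 3 * D) ∧
          (∀ i, (F i).totalDegree ≤ D) ∧
          (∀ t, (∀ k, SI Δ ((A k).coeff t)) ∧ (∀ k, SI Δ ((B k).coeff t)) ∧
            (∀ i, SI Δ ((F i).coeff t))) ∧
          Bad g D ρ b A B (cf I (fun u => (F u.1).coeff (fsM u.2))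
            fun u => algebraMap K (AlgebraicClosure K) (∑ l, (a u l : ℚ) • om l) /
              (β : AlgebraicClosure K))
  have hex : ∀ p : ℕ, ∃ Bp : Finset (((Σ k, Fin (g k)) × {α // α ∈ I}) →
        Fin (Module.finrank ℚ K) → ZMod p),
      p0 ≤ p → p.Prime →
      Bp.card * p ≤
        C * p ^ (Module.finrank ℚ K * Fintype.card ((Σ k, Fin (g k)) × {α // α ∈ I})) ∧
      ∀ (β : ℕ) (a : ((Σ k, Fin (g k)) × {α // α ∈ I}) → Fin (Module.finrank ℚ K) → ℤ),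
        0 < β → p ∣ β → BadU β a → (fun u l => (a u l : ZMod p)) ∈ Bp := by
    intro p
    by_cases h : p0 ≤ p ∧ p.Prime
    · obtain ⟨Bp, h1, h2⟩ := hC p h.1 h.2
      refine ⟨Bp, fun _ _ => ⟨h1, fun β a hβ hpβ hbad => ?_⟩⟩
      obtain ⟨A, B, F, hdeg, -, hSI, hbad⟩ := hbad
      exact h2 β a hβ hpβ A B _ hdeg (fun k t => ⟨(hSI t).1 k, (hSI t).2.1 k⟩)
        (fun u => (hSI _).2.2 u.1) hbad
    · exact ⟨∅, fun h1 h2 => absurd ⟨h1, h2⟩ h⟩
  choose Bp hBp using hex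
  let κ := ((Σ k, Fin (g k)) × {α // α ∈ I}) × Fin (Module.finrank ℚ K)
  have hcard : Fintype.card κ =
      Module.finrank ℚ K * Fintype.card ((Σ k, Fin (g k)) × {α // α ∈ I}) := by
    simp only [κ, Fintype.card_prod, Fintype.card_fin]
    ring
  have hcard2 : Fintype.card κ = Module.finrank ℚ K * ((∑ k, g k) * I.card) := by
    rw [hcard, Fintype.card_prod, Fintype.card_sigma, Fintype.card_coe]
    simp only [Fintype.card_fin]
  obtain ⟨C', h1⟩ := hSV3 κ C p0 (fun p => (Bp p).map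
      (Equiv.curry ((Σ k, Fin (g k)) × {α // α ∈ I}) (Fin (Module.finrank ℚ K))
        (ZMod p)).symm.toEmbedding)
    (fun β a => BadU β fun u l => a (u, l))
    (fun p hp hpp => by
      rw [Finset.card_map, hcard]
      exact (hBp p hp hpp).1)
    (fun p hp hpp β a h2 h3 h4 => by
      have h5 := (hBp p hp hpp).2 β (fun u l => a (u, l)) h2 h3 h4
      rw [Finset.mem_map]
      refine ⟨_, h5, ?_⟩
      funext x
      rfl) ε hε
  rw [hcard2] at h1
  refine ⟨C', fun H hH => le_trans (le_of_eq ?_) (h1 H hH)⟩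
  congr 1
  refine (Nat.card_congr (Equiv.subtypeEquiv ((Equiv.refl ℕ).prodCongr
    (Equiv.curry ((Σ k, Fin (g k)) × {α // α ∈ I}) (Fin (Module.finrank ℚ K)) ℤ))
      fun x => ?_)).symm
  simp only [Equiv.prodCongr_apply, Prod.map_fst, Prod.map_snd, Equiv.refl_apply, Equiv.curry_apply,
    BadU]
  constructor
  · rintro ⟨a1, a2, a3, A, B, F, b1, b2, b3, b4⟩
    exact ⟨a1, a2, fun u l => a3 (u, l), A, B, F, b1, b2, b3, (bad_iff g ρ b A B I F b2 _).1 b4⟩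
  · rintro ⟨a1, a2, a3, A, B, F, b1, b2, b3, b4⟩
    exact ⟨a1, a2, fun i => a3 i.1 i.2, A, B, F, b1, b2, b3, (bad_iff g ρ b A B I F b2 _).2 b4⟩

end PKE
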