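import Pool.Agent.PKE.Targets
import Pool.Agent.PKD.GRP

set_option autoImplicit false

/-!
FRB: either all the residues of all the embeddings of a quadratic field are in the prime field,
or conjugate embeddings have Frobenius conjugate residues
-/

namespace PKE

open PKD

namespace FRB_

variable {Ω k : Type} [Field Ω] [CharZero Ω] [Field k] {v : AbsoluteValue Ω ℝ} {r : Ω → k}

/-- residues of rational numbers are fixed by the Frobenius -/
theorem rat_fix (hr : Red v r) {p : ℕ} (hp : p.Prime) (hvp : v (p : Ω) < 1) (q : ℚ)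
    (hq : v (q : Ω) ≤ 1) : r (q : Ω) ^ p = r (q : Ω) := by
  have hC : CharP k p := hr.charP hp hvp
  have hF : Fact p.Prime := ⟨hp⟩
  have hden : ((q.den : ℤ) : Ω) * (q : Ω) = ((q.num : ℤ) : Ω) := by
    have h1 : (q : Ω) = (q.num : Ω) / (q.den : Ω) := Rat.cast_def q
    have h2 : (q.den : Ω) ≠ 0 := Nat.cast_ne_zero.mpr q.den_ne_zero
    rw [h1]
    push_cast
    field_simp
  have hpd : IsCoprime (q.den : ℤ) (p : ℤ) := by
    rw [Nat.isCoprime_iff_coprime, Nat.coprime_comm, hp.coprime_iff_not_dvd]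
    rintro ⟨d, hd⟩
    have hnum : IsCoprime q.num (p : ℤ) := by
      have h0 : IsCoprime q.num (q.den : ℤ) := by
        rw [Int.isCoprime_iff_gcd_eq_one]
        exact q.reduced
      rw [hd] at h0
      push_cast at h0
      exact h0.of_mul_right_left
    have h1 := na_coprime hr.na hvp hnum
    have h2 : v ((q.den : ℤ) : Ω) < 1 := by
      rw [hd]
      push_cast
      rw [v.map_mul]
      calc v (p : Ω) * v (d : Ω) ≤ v (p : Ω) * 1 :=
            mul_le_mul_of_nonneg_left (na_nat hr.na d) (v.nonneg _)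
        _ < 1 := by rw [mul_one]; exact hvp
    have h3 := congrArg v hden
    rw [v.map_mul, h1] at h3
    have h4 : v ((q.den : ℤ) : Ω) * v (q : Ω) ≤ v ((q.den : ℤ) : Ω) * 1 :=
      mul_le_mul_of_nonneg_left hq (v.nonneg _)
    linarith
  have hvd := na_coprime hr.na hvp hpd
  have hrd : r ((q.den : ℤ) : Ω) = ((q.den : ℤ) : k) := hr.int _
  have hrn : r ((q.num : ℤ) : Ω) = ((q.num : ℤ) : k) := hr.int _
  have hne : ((q.den : ℤ) : k) ≠ 0 := by
    intro h0
    rw [← hrd] at h0
    have := (hr.ker _ hvd.le).1 h0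
    rw [hvd] at this
    exact lt_irrefl _ this
  have hm : ((q.den : ℤ) : k) * r (q : Ω) = ((q.num : ℤ) : k) := by
    rw [← hrd, ← hr.mul _ _ hvd.le hq, hden, hrn]
  have hfr := congrArg (frobenius k p) hm
  rw [map_mul, map_intCast, map_intCast, ← hm, frobenius_def] at hfr
  exact mul_left_cancel₀ hne hfr

theorem core (hr : Red v r) {p : ℕ} (hp : p.Prime) (hvp : v (p : Ω) < 1) (a : Ω) (t n : ℤ)
    (ha : a ^ 2 = t * a - n) (σ1 σ2 : Ω →+* Ω) (hne : σ1 a ≠ σ2 a) (x : Ω)
    (hx : x ∈ IntermediateField.adjoin ℚ {a}) (hvx : v (σ1 x) ≤ 1)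
    (hrx : r (σ1 x) ^ p ≠ r (σ1 x)) (y : Ω) (hy : y ∈ IntermediateField.adjoin ℚ {a})
    (hvy : v (σ1 y) ≤ 1) : v (σ2 y) ≤ 1 ∧ r (σ2 y) = r (σ1 y) ^ p := by
  have hC : CharP k p := hr.charP hp hvp
  have hF : Fact p.Prime := ⟨hp⟩
  obtain ⟨q, c, s, hq, hqx⟩ := RD.p_QFD Ω a t n ha x hx
  obtain ⟨q', c', s', hq', hqy⟩ := RD.p_QFD Ω a t n ha y hy
  have hb := GRP_.sigma_root σ1 a t n ha
  have hb2 := GRP_.sigma_root σ2 a t n ha
  have hbb : σ2 a = t - σ1 a := by
    rcases GRP_.root_cases (σ1 a) (σ2 a) t n hb hb2 with h | h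
    · exact absurd h.symm hne
    · exact h
  have hq0 : (q : Ω) ≠ 0 := Int.cast_ne_zero.mpr hq
  have hq0' : (q' : Ω) ≠ 0 := Int.cast_ne_zero.mpr hq'
  have e1 := congrArg σ1 hqx
  have e2 := congrArg σ2 hqx
  have f1 := congrArg σ1 hqy
  have f2 := congrArg σ2 hqy
  rw [map_mul, map_add, map_mul, map_intCast, map_intCast, map_intCast] at e1 e2 f1 f2
  rw [hbb] at e2 f2
  set u := σ1 x with hu
  set w := σ2 x with hw
  set b := σ1 a with hbdef
  -- trace and norm
  have hT : u + w = (((2 * c + s * t : ℤ) / (q : ℤ) : ℚ) : Ω) := by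
    push_cast
    rw [eq_div_iff hq0]
    linear_combination e1 + e2
  have hM : u * w = (((c ^ 2 + c * s * t + s ^ 2 * n : ℤ) / (q ^ 2 : ℤ) : ℚ) : Ω) := by
    push_cast
    rw [eq_div_iff (pow_ne_zero 2 hq0)]
    have h : (q : Ω) ^ 2 * (u * w) = (c + s * b) * (c + s * (t - b)) := by
      rw [← e1, ← e2]; ring
    linear_combination h - (s : Ω) ^ 2 * hb
  have hru0 : r u ≠ 0 := by
    intro h0
    apply hrx
    rw [h0, zero_pow hp.ne_zero]
  have hvu : v u = 1 := by
    refine le_antisymm hvx ?_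
    by_contra hc
    push Not at hc
    exact hru0 ((hr.ker _ hvx).2 hc)
  have hu0 : u ≠ 0 := by
    rintro h0
    rw [h0, v.map_zero] at hvu
    exact zero_ne_one hvu
  have hvw : v w ≤ 1 := by
    by_contra hc
    push Not at hc
    have hT1 : v (u + w) = v w := by
      rw [add_comm]
      exact na_eq hr.na (by rw [hvu]; exact hc)
    have hw0 : v w ≠ 0 := by linarith
    have hT0 : u + w ≠ 0 := by
      intro h0
      rw [h0, v.map_zero] at hT1
      exact hw0 hT1.symm
    have hMT : v (u * w / (u + w)) = 1 := by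
      rw [map_div₀, v.map_mul, hT1, hvu, one_mul, div_self hw0]
    have hd : u - u * w / (u + w) = u ^ 2 / (u + w) := by
      field_simp
      ring
    have h1 : v (u - u * w / (u + w)) < 1 := by
      rw [hd, map_div₀, v.map_pow, hvu, hT1, one_pow]
      rw [div_lt_one (by linarith)]
      exact hc
    have h2 := (hr.eq_iff hvx hMT.le).2 h1
    apply hrx
    rw [h2]
    rw [hT, hM] at hMT ⊢
    rw [← Rat.cast_div] at hMT ⊢
    exact rat_fix hr hp hvp _ hMT.le
  have hvT : v (u + w) ≤ 1 := (hr.na _ _).trans (max_le hvx hvw)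
  have hvM : v (u * w) ≤ 1 := by
    rw [v.map_mul]
    exact mul_le_one₀ hvx (v.nonneg _) hvw
  have hrT : (r u + r w) ^ p = r u + r w := by
    rw [← hr.add _ _ hvx hvw]
    rw [hT] at hvT ⊢
    exact rat_fix hr hp hvp _ hvT
  have hrM : (r u * r w) ^ p = r u * r w := by
    rw [← hr.mul _ _ hvx hvw]
    rw [hM] at hvM ⊢
    exact rat_fix hr hp hvp _ hvM
  have hrw : r w = r u ^ p := by
    have h0 : r u ^ 2 - (r u + r w) * r u + r u * r w = 0 := by ring
    have h1 := congrArg (frobenius k p) h0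
    rw [map_add, map_sub, map_mul, map_pow, map_zero, frobenius_def, frobenius_def, frobenius_def,
      hrT, hrM] at h1
    have h2 : (r u ^ p - r u) * (r u ^ p - r w) = 0 := by linear_combination h1
    rcases mul_eq_zero.mp h2 with h | h
    · exact absurd (sub_eq_zero.mp h) hrx
    · exact (sub_eq_zero.mp h).symm
  have hs : s ≠ 0 := by
    rintro rfl
    apply hrx
    have h1 : u = ((c / q : ℚ) : Ω) := by
      push_cast
      rw [eq_div_iff hq0]
      linear_combination e1
    rw [h1] at hvx ⊢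
    exact rat_fix hr hp hvp _ hvx
  have hs0 : (s : Ω) ≠ 0 := Int.cast_ne_zero.mpr hs
  obtain ⟨be, hbe⟩ : ∃ be : ℚ, be = (s' * q) / (s * q') := ⟨_, rfl⟩
  obtain ⟨al, hal⟩ : ∃ al : ℚ, al = (c' - s' * c / s) / q' := ⟨_, rfl⟩
  have hbe' : (be : Ω) = (s' * q) / (s * q') := by rw [hbe]; push_cast; rfl
  have hal' : (al : Ω) = (c' - s' * c / s) / q' := by rw [hal]; push_cast; rfl
  have g1 : σ1 y = al + be * u := by
    have h1 : σ1 y = (c' + s' * b) / q' := by
      rw [eq_div_iff hq0', ← f1]; ring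
    have h2 : u = (c + s * b) / q := by
      rw [eq_div_iff hq0, ← e1]; ring
    rw [h1, h2, hbe', hal']
    field_simp
    ring
  have g2 : σ2 y = al + be * w := by
    have h1 : σ2 y = (c' + s' * (t - b)) / q' := by
      rw [eq_div_iff hq0', ← f2]; ring
    have h2 : w = (c + s * (t - b)) / q := by
      rw [eq_div_iff hq0, ← e2]; ring
    rw [h1, h2, hbe', hal']
    field_simp
    ring
  have hvbe : v (be : Ω) ≤ 1 := by
    by_contra hc
    push Not at hc
    have hb0 : (be : Ω) ≠ 0 := by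
      intro h0
      rw [h0, v.map_zero] at hc
      linarith
    have h1 : v (u + (al : Ω) / be) < 1 := by
      have h2 : u + (al : Ω) / be = σ1 y / be := by
        rw [g1]; field_simp; ring
      rw [h2, map_div₀, div_lt_one (by linarith)]
      linarith
    have h3 : v ((al : Ω) / be) ≤ 1 := by
      have h4 : (al : Ω) / be = (u + (al : Ω) / be) - u := by ring
      rw [h4]
      exact (na_sub hr.na _ _).trans (max_le h1.le hvx)
    have h5 : r (u + (al : Ω) / be) = 0 :=
      (hr.ker _ ((hr.na _ _).trans (max_le hvx h3))).2 h1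
    rw [hr.add _ _ hvx h3] at h5
    have h6 : r u = - r ((al : Ω) / be) := eq_neg_of_add_eq_zero_left h5
    have h7 : r ((al : Ω) / be) ^ p = r ((al : Ω) / be) := by
      rw [← Rat.cast_div] at h3 ⊢
      exact rat_fix hr hp hvp _ h3
    apply hrx
    rw [h6, ← frobenius_def, map_neg, frobenius_def, h7]
  have hvbu : v ((be : Ω) * u) ≤ 1 := by
    rw [v.map_mul]; exact mul_le_one₀ hvbe (v.nonneg _) hvx
  have hvbw : v ((be : Ω) * w) ≤ 1 := by
    rw [v.map_mul]; exact mul_le_one₀ hvbe (v.nonneg _) hvw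
  have hval : v (al : Ω) ≤ 1 := by
    have h4 : (al : Ω) = σ1 y - be * u := by rw [g1]; ring
    rw [h4]
    exact (na_sub hr.na _ _).trans (max_le hvy hvbu)
  refine ⟨?_, ?_⟩
  · rw [g2]
    exact (hr.na _ _).trans (max_le hval hvbw)
  · rw [g2, g1, hr.add _ _ hval hvbw, hr.add _ _ hval hvbu, hr.mul _ _ hvbe hvw,
      hr.mul _ _ hvbe hvx, hrw, ← frobenius_def, ← frobenius_def, map_add, map_mul, frobenius_def,
      frobenius_def, frobenius_def, rat_fix hr hp hvp _ hval, rat_fix hr hp hvp _ hvbe]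

end FRB_

open FRB_ in
theorem p_FRB : T_FRB := by
  intro Ω k _ _ _ p v r hr hp hvp a t n ha
  have hC : CharP k p := hr.charP hp hvp
  have hF : Fact p.Prime := ⟨hp⟩
  by_cases h : ∀ σ : Ω →+* Ω, ∀ x ∈ IntermediateField.adjoin ℚ {a}, v (σ x) ≤ 1 →
      r (σ x) ^ p = r (σ x)
  · exact Or.inl h
  · right
    push Not at h
    obtain ⟨σ1, x, hx, hvx, hrx⟩ := h
    intro σ σ' hne y hy hvy
    by_cases h1 : σ a = σ1 a
    · have h2 := GRP_.sigma_eq σ σ1 a t n ha h1 x hx
      exact core hr hp hvp a t n ha σ σ' hne x hx (by rw [h2]; exact hvx)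
        (by rw [h2]; exact hrx) y hy hvy
    · obtain ⟨h3, h4⟩ := core hr hp hvp a t n ha σ1 σ (Ne.symm h1) x hx hvx hrx x hx hvx
      refine core hr hp hvp a t n ha σ σ' hne x hx h3 ?_ y hy hvy
      rw [h4]
      intro h5
      apply hrx
      exact frobenius_inj k p (by rw [frobenius_def, frobenius_def]; exact h5)

end PKE
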