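import Pool.Agent.PKE.Targets
import Pool.Agent.PKD.RedLem
import Pool.Agent.PKD.PLC

/-! PLC: everything at one place, from the two cases. -/

set_option autoImplicit false
set_option maxHeartbeats 4000000

namespace PKE

open MvPolynomial RD PKD

theorem p_PLC (h1 : T_PLCM) (h2 : T_PLCI) : T_PLC := by
  intro Ω k _ _ _ _ _ p v r hr hp hp5 hvp d n w D hwD ι _ ρ b hb A B hAB hdeg β c hβ0 hβ hc x s
    hbase P hP
  by_cases hx : ∀ j, v (x j) ≤ 1
  · obtain ⟨μ, S, x', s', h, e1, e2, e3, e4, e0, e5, e6, e7, e8⟩ :=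
      h1 Ω k p v r hr hp hp5 hvp d n D ι ρ b (fun j l hl => (hb j l hl).2) A B hAB β c hβ0 hβ hc x s
        hbase hx P hP
    refine ⟨1, μ, S, none, x', s', h, e1, e2, by simpa using e3, e4, e0, e5, ?_, e6, e7, e8⟩
    show eval (Sum.elim x' s') (um k (al0 D none)) ≠ 0
    rw [PKD.PLC_.al0_none]
    exact one_ne_zero
  · push Not at hx
    obtain ⟨j0, hj0⟩ := hx
    haveI : Nonempty (Fin d) := ⟨j0⟩
    obtain ⟨m0, hm0⟩ := Finite.exists_max fun j => v (x j)
    obtain ⟨R, μ, S, x', s', h, e0, e1, e2, e3, e4, e00, e5, e6, e7, e8⟩ :=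
      h2 Ω k p v r hr hp hp5 hvp d n w D hwD ι ρ b hb A B hAB hdeg β c hβ0 hβ hc x s
        hbase m0 (lt_of_lt_of_le hj0 (hm0 j0)) hm0 P hP
    refine ⟨R, μ, S, some m0, x', s', h, e1, e2, e3, e4, e00, e5, ?_, e6, e7, e8⟩
    show eval (Sum.elim x' s') (if ∑ j, ((al0 (d := d) (n := n) D (some m0)).1 j : ℕ) = D then
      um k (al0 D (some m0)) else 0) ≠ 0
    rw [if_pos (PKD.PLC_.al0_some_sum D m0), PKD.PLC_.al0_some, Sum.elim_inl, e0, one_pow]
    exact one_ne_zero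

end PKE
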