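import Pool.Agent.PKE.Targets
import Pool.Agent.PKD.PLCM

/-!
The local data at an integral point of the base.
-/

set_option autoImplicit false
set_option maxHeartbeats 4000000

namespace PKE

open MvPolynomial RD PKD WeierstrassCurve.Affine

namespace PLCM_

/-- the value of `β * f_i` and its reduction -/
theorem fval_red {Ω k : Type} [Field Ω] [Field k] {v : AbsoluteValue Ω ℝ} {r : Ω → k}
    (hr : Red v r) {d n D : ℕ} {ι : Type} (β : Ω) (c : ι × MonS d n D → Ω)
    (hc : ∀ u, v (β * c u) ≤ 1) (x : Fin d → Ω) (s : Fin n → Ω)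
    (hx : ∀ j, v (x j) ≤ 1) (hs : ∀ j, v (s j) ≤ 1) (i : ι) :
    v (β * PKE.fval D c x s i) ≤ 1 ∧
      r (β * PKE.fval D c x s i) = ∑ α : MonS d n D, r (β * c (i, α)) *
        eval (Sum.elim (fun j => r (x j)) (fun j => r (s j))) (um k α) := by
  have hz : ∀ j, v (Sum.elim x s j) ≤ 1 := by
    rintro (j | j)
    · exact hx j
    · exact hs j
  have hzp : ∀ (j : Fin d ⊕ Fin n) (e : ℕ), v (Sum.elim x s j ^ e) ≤ 1 := fun j e => by
    rw [v.map_pow]; exact pow_le_one₀ (v.nonneg _) (hz j)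
  have hprod : ∀ α : MonS d n D, v (∏ j, Sum.elim x s j ^ (α.1 j : ℕ)) ≤ 1 := fun α =>
    na_prod_le _ _ fun j _ => hzp j _
  have he : β * PKE.fval D c x s i =
      ∑ α : MonS d n D, (β * c (i, α)) * ∏ j, Sum.elim x s j ^ (α.1 j : ℕ) := by
    unfold PKE.fval
    rw [Finset.mul_sum]
    exact Finset.sum_congr rfl fun α _ => by ring
  have ht : ∀ α ∈ (Finset.univ : Finset (MonS d n D)),
      v ((β * c (i, α)) * ∏ j, Sum.elim x s j ^ (α.1 j : ℕ)) ≤ 1 := fun α _ => by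
    rw [v.map_mul]; exact mul_le_one₀ (hc _) (v.nonneg _) (hprod α)
  rw [he]
  refine ⟨na_sum hr.na _ _ _ zero_le_one ht, ?_⟩
  rw [hr.sum _ _ ht]
  refine Finset.sum_congr rfl fun α _ => ?_
  rw [hr.mul _ _ (hc _) (hprod α)]
  congr 1
  rw [hr.prod _ _ fun j _ => hzp j _, um, map_prod]
  refine Finset.prod_congr rfl fun j _ => ?_
  rw [hr.pow (hz j), map_pow, eval_X]
  congr 1
  rcases j with j | j <;> rfl

theorem main : T_PLCM := by
  intro Ω k _ _ _ _ _ p v r hr pp p5 vp d n D ι _ ρ b hb A B hAB β c hβ0 hβ hc x s hon hx P hP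
  obtain ⟨hs, hon'⟩ := PLCM_base hr ρ b hb x s hon hx
  have hz : ∀ j, v (Sum.elim x s j) ≤ 1 := by
    rintro (j | j)
    · exact hx j
    · exact hs j
  have hA := fun i => (rdP_eval hr (A i) (fun t => (hAB i t).1) (Sum.elim x s) hz).1
  have hB := fun i => (rdP_eval hr (B i) (fun t => (hAB i t).2) (Sum.elim x s) hz).1
  have hp0 : 0 < v (p : Ω) := v.pos (by exact_mod_cast pp.ne_zero)
  have hvβ : 0 < v β := v.pos hβ0
  obtain ⟨ρ0, hρ0⟩ := IsAlgClosed.exists_pow_nat_eq β (n := 2) (by norm_num)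
  have hμ2 : v ρ0 ^ 2 = v β := by rw [← v.map_pow, hρ0]
  have hμ0 : 0 < v ρ0 := by
    rcases (v.nonneg ρ0).lt_or_eq with h | h
    · exact h
    · rw [← h] at hμ2
      norm_num at hμ2
      exact absurd hμ2 hvβ.ne
  have hρne : ρ0 ≠ 0 := by
    rintro rfl
    rw [v.map_zero] at hμ0
    exact lt_irrefl _ hμ0
  have hG := fun i => fval_red hr β c hc x s hx hs i
  classical
  have key : ∀ i, ¬ v (β * PKE.fval D c x s i) < 1 → InE v 1 (P i) ∧ v (zz (P i)) ≤ v ρ0 ∧
      r (zz (P i) / ρ0) ^ 2 * r (β * PKE.fval D c x s i) = 1 := by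
    intro i hi
    have hi1 : v (β * PKE.fval D c x s i) = 1 := le_antisymm (hG i).1 (not_lt.1 hi)
    obtain ⟨y, h, hPi⟩ := hP i
    have hX : 1 < v (PKE.fval D c x s i) := by
      rw [v.map_mul] at hi1
      by_contra hc'
      push Not at hc'
      have h2 : v β * v (PKE.fval D c x s i) ≤ v β * 1 :=
        mul_le_mul_of_nonneg_left hc' hvβ.le
      linarith
    have heq : y ^ 2 = PKE.fval D c x s i ^ 3 + eval (Sum.elim x s) (A i) * PKE.fval D c x s i +
        eval (Sum.elim x s) (B i) := by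
      have h1 := (WeierstrassCurve.Affine.equation_iff _ _).1 h.1
      simpa [curve] using h1
    obtain ⟨hz1, hz2⟩ := PLCM_zz hr.na _ _ _ y (hA i) (hB i) hX heq
    have hzz : zz (P i) = PKE.fval D c x s i / y := by rw [hPi]; rfl
    have hzv : v (zz (P i)) ^ 2 = v ρ0 ^ 2 := by
      rw [hzz, hμ2]
      rw [v.map_mul] at hi1
      have hX0 : v (PKE.fval D c x s i) ≠ 0 := (lt_trans zero_lt_one hX).ne'
      apply mul_right_cancel₀ hX0
      rw [hz1, hi1]
    have hzv' : v (zz (P i)) = v ρ0 := by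
      have := (sq_eq_sq₀ (v.nonneg _) hμ0.le).1 hzv
      exact this
    refine ⟨?_, hzv'.le, ?_⟩
    · rw [hPi]
      exact hX
    · have hw : v (zz (P i) / ρ0) ≤ 1 := by
        rw [map_div₀, hzv', div_self hμ0.ne']
      have e1 : (zz (P i) / ρ0) ^ 2 * (β * PKE.fval D c x s i) =
          (PKE.fval D c x s i / y) ^ 2 * PKE.fval D c x s i := by
        rw [hzz, ← hρ0]
        field_simp
      have hw2 : v ((zz (P i) / ρ0) ^ 2) ≤ 1 := by
        rw [v.map_pow]; exact pow_le_one₀ (v.nonneg _) hw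
      rw [← hr.pow hw, ← hr.mul _ _ hw2 (hG i).1, e1, ← hr.one, hr.eq_iff ?_ (by rw [v.map_one])]
      · exact hz2
      · rw [← e1, v.map_mul]
        exact mul_le_one₀ hw2 (v.nonneg _) (hG i).1
  refine ⟨v ρ0, Finset.univ.filter (fun i => v (β * PKE.fval D c x s i) < 1), fun j => r (x j),
    fun j => r (s j), fun i => r (zz (P i) / ρ0), ?_, hμ0, ?_, ?_, ?_, hon', ?_, ?_, ?_⟩
  · intro i
    exact ⟨hr.na, pp, p5, vp, le_rfl, by simpa using hA i, by simpa using hB i⟩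
  · have h4 : v ρ0 ^ 4 = v β * v β := by rw [← hμ2]; ring
    rw [h4]
    have hβ1 : v β < 1 := hβ.trans_lt vp
    exact (mul_lt_of_lt_one_left hvβ hβ1).trans_le hβ
  · intro i hi
    have hi' : ¬ v (β * PKE.fval D c x s i) < 1 := fun h =>
      hi (Finset.mem_filter.2 ⟨Finset.mem_univ _, h⟩)
    exact ⟨(key i hi').1, (key i hi').2.1⟩
  · intro j hj
    exact (hr.ker _ (hx j)).2 hj
  · intro i hi
    have hi' := (Finset.mem_filter.1 hi).2
    rw [← (hG i).2]
    exact (hr.ker _ (hG i).1).2 hi'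
  · intro i hi
    have hi' : ¬ v (β * PKE.fval D c x s i) < 1 := fun h =>
      hi (Finset.mem_filter.2 ⟨Finset.mem_univ _, h⟩)
    rw [← (hG i).2]
    exact (key i hi').2.2
  · intro T hT τ hτ hsum
    have hi' : ∀ i ∈ T, v (zz (P i) / ρ0) ≤ 1 := by
      intro i hi
      have hi' : ¬ v (β * PKE.fval D c x s i) < 1 := fun h =>
        (hT i hi) (Finset.mem_filter.2 ⟨Finset.mem_univ _, h⟩)
      rw [map_div₀, div_le_one hμ0]
      exact (key i hi').2.1
    have ht : ∀ i ∈ T, v (τ i * (zz (P i) / ρ0)) ≤ 1 := fun i hi => by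
      rw [v.map_mul]; exact mul_le_one₀ (hτ i) (v.nonneg _) (hi' i hi)
    have e1 : ∑ i ∈ T, r (τ i) * r (zz (P i) / ρ0) = r (∑ i ∈ T, τ i * (zz (P i) / ρ0)) := by
      rw [hr.sum _ _ ht]
      exact Finset.sum_congr rfl fun i hi => (hr.mul _ _ (hτ i) (hi' i hi)).symm
    rw [e1, hr.ker _ (na_sum hr.na _ _ _ zero_le_one ht)]
    have e2 : ∑ i ∈ T, τ i * (zz (P i) / ρ0) = (∑ i ∈ T, τ i * zz (P i)) / ρ0 := by
      rw [Finset.sum_div]
      exact Finset.sum_congr rfl fun i _ => by ring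
    rw [e2, map_div₀, div_lt_one hμ0]
    exact hsum

end PLCM_

theorem p_PLCM : T_PLCM := PLCM_.main

end PKE
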