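import Mathlib
import Pool.Agent.RD.Defs
import Pool.Agent.PKD.Defs

/-!
Definitions for project PKE (MP_28d749_ag): Pink's conclusion, with expected dimensions, for all but
a power saving proportion of the multisections of a product of fibre powers of elliptic schemes.
-/

set_option autoImplicit false

namespace PKE

open MvPolynomial RD PKD

/-- The value at `(p, s)` of the `i`-th function with coefficients `c`. -/
noncomputable def fval {R : Type} [CommRing R] {d n : ℕ} {ι : Type} (D : ℕ)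
    (c : ι × MonS d n D → R) (p : Fin d → R) (s : Fin n → R) (i : ι) : R :=
  ∑ α : MonS d n D, c (i, α) * ∏ j, Sum.elim p s j ^ (α.1 j : ℕ)

/-- The multisection with coefficients `c` is bad: for some set `Q` of coordinates, over a set of
points of the base which dominates the `Q`-coordinates the points `P k i` with abscissas
`f_(k, i)(p, s)` satisfy `d + 1 - |Q|` independent relations (`e k` of them among the points `P k` of
the `k`-th elliptic scheme). -/
def Bad {Ω : Type} [Field Ω] [DecidableEq Ω] {d n m : ℕ} (g : Fin m → ℕ) (D : ℕ) (ρ : Fin n → ℕ)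
    (b : Fin n → ℕ → MvPolynomial (Fin d) Ω) (A B : Fin m → MvPolynomial (Fin d ⊕ Fin n) Ω)
    (c : (Σ k, Fin (g k)) × MonS d n D → Ω) : Prop :=
  ∃ (Q : Finset (Fin d)) (G : MvPolynomial (Fin d) Ω), G ≠ 0 ∧ ∀ z : Fin d → Ω, eval z G ≠ 0 →
    ∃ (p : Fin d → Ω) (s : Fin n → Ω), OnBase ρ b p s ∧ (∀ i ∈ Q, p i = z i) ∧
      ∃ e : Fin m → ℕ, ∑ k, e k + Q.card = d + 1 ∧
      ∃ P : (k : Fin m) → Fin (g k) →
          (curve 0 (eval (Sum.elim p s) (A k)) (eval (Sum.elim p s) (B k))).Point,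
        (∀ k i, ∃ y h, P k i = WeierstrassCurve.Affine.Point.some (fval D c p s ⟨k, i⟩) y h) ∧
        ∀ k, IntRel _ (e k) (P k) ∨ CMRel _ (e k) (P k)

/-- the system over the residue field; the coordinates in `Q` vanish -/
def Sys {k : Type} [Field k] {d n : ℕ} {ι A : Type} [DecidableEq ι] [Fintype A] (ρ : Fin n → ℕ)
    (b : Fin n → ℕ → MvPolynomial (Fin d) k) (u : A → MvPolynomial (Fin d ⊕ Fin n) k) (α0 : A)
    (Q : Finset (Fin d)) (S J W : Finset ι) (τ : ι → ι → k) (c : ι × A → k)
    (p : Fin d → k) (s : Fin n → k) (h : ι → k) : Prop :=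
  OnBase ρ b p s ∧ (∀ i ∈ Q, p i = 0) ∧ eval (Sum.elim p s) (u α0) ≠ 0 ∧
  (∀ i ∈ S, ∑ α, c (i, α) * eval (Sum.elim p s) (u α) = 0) ∧
  (∀ i ∈ W, h i ^ 2 * ∑ α, c (i, α) * eval (Sum.elim p s) (u α) = 1) ∧
  (∀ j ∈ J, h j = ∑ i ∈ W \ J, τ j i * h i)

/-- residual data of a subspace of `F ^ g`: for every set `S` of coordinates the pivots and the
residues of an echelon basis of the vectors which vanish on `S` -/
abbrev Dat (g : ℕ) (k : Type) : Type := Finset (Fin g) → Finset (Fin g) × (Fin g → Fin g → k)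

/-- `D` is the residual data of the subspace `U` of dimension (at least) `e`, for the size `w` and
the reduction `r` -/
def Rz {F k : Type} [Field F] [Field k] {g : ℕ} (w : F → ℝ) (r : F → k)
    (U : Submodule F (Fin g → F)) (e : ℕ) (D : Dat g k) : Prop :=
  ∀ S : Finset (Fin g), Disjoint (D S).1 S ∧ e ≤ (D S).1.card + S.card ∧
    ∃ τ : Fin g → Fin g → F, ∀ i ∈ (D S).1, τ i ∈ U ∧ τ i i = 1 ∧
      (∀ i' ∈ (D S).1, i' ≠ i → τ i i' = 0) ∧ (∀ i' ∈ S, τ i i' = 0) ∧
      ∀ i', w (τ i i') ≤ 1 ∧ r (τ i i') = (D S).2 i i'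

/-- the generic `e × g` matrix with the identity matrix at the columns `b0` -/
noncomputable def gen (e g : ℕ) (b0 : Fin e → Fin g) : Matrix (Fin e) (Fin g)
    (MvPolynomial (Fin e × {i : Fin g // ∀ l, b0 l ≠ i}) ℤ) := fun l i =>
  if h : ∀ l', b0 l' ≠ i then X (l, ⟨i, h⟩) else if b0 l = i then 1 else 0

/-- the minor at the columns `b` -/
noncomputable def dn (e g : ℕ) (b0 b : Fin e → Fin g) :
    MvPolynomial (Fin e × {i : Fin g // ∀ l, b0 l ≠ i}) ℤ :=
  ((gen e g b0).submatrix id b).det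

/-- the minor at the columns `b` where the column number `l` is replaced by the column `i` -/
noncomputable def nm (e g : ℕ) (b0 b : Fin e → Fin g) (l : Fin e) (i : Fin g) :
    MvPolynomial (Fin e × {i : Fin g // ∀ l, b0 l ≠ i}) ℤ :=
  ((gen e g b0).submatrix id (Function.update b l i)).det

end PKE
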