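import Mathlib
import Pool.Agent.PKE.Defs
import Pool.Agent.PKD.Targets

/-!
Targets of project PKE. Each job proves one of them in its own file `Pool/Agent/PKE/<NAME>.lean` as
`theorem p_<NAME> (hypotheses...) : T_<NAME>`. Proofs: `Pool/Agent/PKE/Blueprint.lean.txt`.
-/

set_option autoImplicit false

namespace PKE

open MvPolynomial RD PKD WeierstrassCurve.Affine

/-! ### Block 1: one place -/

/-- PLCM: integral points; adapt `Pool/Agent/PKD/PLCM.lean` -/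
def T_PLCM : Prop := ∀ (Ω k : Type) [Field Ω] [CharZero Ω] [IsAlgClosed Ω] [DecidableEq Ω]
  [Field k] (p : ℕ) (v : AbsoluteValue Ω ℝ) (r : Ω → k), Red v r → p.Prime → 5 ≤ p →
  v (p : Ω) < 1 →
  ∀ (d n D : ℕ) (ι : Type) [Fintype ι] (ρ : Fin n → ℕ) (b : Fin n → ℕ → MvPolynomial (Fin d) Ω),
    (∀ j l, l < ρ j → ∀ t, v ((b j l).coeff t) ≤ 1) →
  ∀ (A B : ι → MvPolynomial (Fin d ⊕ Fin n) Ω),
    (∀ i t, v ((A i).coeff t) ≤ 1 ∧ v ((B i).coeff t) ≤ 1) →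
  ∀ (β : Ω) (c : ι × MonS d n D → Ω), β ≠ 0 → v β ≤ v (p : Ω) → (∀ u, v (β * c u) ≤ 1) →
  ∀ (x : Fin d → Ω) (s : Fin n → Ω), OnBase ρ b x s → (∀ j, v (x j) ≤ 1) →
  ∀ P : (i : ι) → (curve 0 (eval (Sum.elim x s) (A i)) (eval (Sum.elim x s) (B i))).Point,
    (∀ i, ∃ y h, P i = WeierstrassCurve.Affine.Point.some (fval D c x s i) y h) →
  ∃ (μ : ℝ) (S : Finset ι) (x' : Fin d → k) (s' : Fin n → k) (h : ι → k),
    (∀ i, Cx p v 1 (eval (Sum.elim x s) (A i)) (eval (Sum.elim x s) (B i))) ∧ 0 < μ ∧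
    μ ^ 4 < v (p : Ω) ∧ (∀ i, i ∉ S → InE v 1 (P i) ∧ v (zz (P i)) ≤ μ) ∧
    (∀ j, v (x j) < 1 → x' j = 0) ∧
    OnBase ρ (fun j l => rdP r (b j l)) x' s' ∧
    (∀ i ∈ S, ∑ α : MonS d n D, r (β * c (i, α)) * eval (Sum.elim x' s') (um k α) = 0) ∧
    (∀ i, i ∉ S →
      h i ^ 2 * ∑ α : MonS d n D, r (β * c (i, α)) * eval (Sum.elim x' s') (um k α) = 1) ∧
    ∀ (T : Finset ι), (∀ i ∈ T, i ∉ S) → ∀ τ : ι → Ω, (∀ i, v (τ i) ≤ 1) →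
      v (∑ i ∈ T, τ i * zz (P i)) < μ → ∑ i ∈ T, r (τ i) * h i = 0

/-- PLCI: the points which are not integral; `x m0` is a coordinate of maximal absolute value (type
`some m0`); adapt `Pool/Agent/PKD/PLCI.lean` -/
def T_PLCI : Prop := ∀ (Ω k : Type) [Field Ω] [CharZero Ω] [IsAlgClosed Ω] [DecidableEq Ω]
  [Field k] (p : ℕ) (v : AbsoluteValue Ω ℝ) (r : Ω → k), Red v r → p.Prime → 5 ≤ p →
  v (p : Ω) < 1 →
  ∀ (d n w D : ℕ), w ≤ D → ∀ (ι : Type) [Fintype ι] (ρ : Fin n → ℕ)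
    (b : Fin n → ℕ → MvPolynomial (Fin d) Ω),
    (∀ j l, l < ρ j → (b j l).totalDegree ≤ ρ j - l ∧ ∀ t, v ((b j l).coeff t) ≤ 1) →
  ∀ (A B : ι → MvPolynomial (Fin d ⊕ Fin n) Ω),
    (∀ i t, v ((A i).coeff t) ≤ 1 ∧ v ((B i).coeff t) ≤ 1) →
    (∀ i, (A i).totalDegree ≤ 2 * w ∧ (B i).totalDegree ≤ 3 * w) →
  ∀ (β : Ω) (c : ι × MonS d n D → Ω), β ≠ 0 → v β ≤ v (p : Ω) → (∀ u, v (β * c u) ≤ 1) →
  ∀ (x : Fin d → Ω) (s : Fin n → Ω), OnBase ρ b x s →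
  ∀ m0 : Fin d, 1 < v (x m0) → (∀ j, v (x j) ≤ v (x m0)) →
  ∀ P : (i : ι) → (curve 0 (eval (Sum.elim x s) (A i)) (eval (Sum.elim x s) (B i))).Point,
    (∀ i, ∃ y h, P i = WeierstrassCurve.Affine.Point.some (fval D c x s i) y h) →
  ∃ (R μ : ℝ) (S : Finset ι) (x' : Fin d → k) (s' : Fin n → k) (h : ι → k),
    x' m0 = 1 ∧
    (∀ i, Cx p v R (eval (Sum.elim x s) (A i)) (eval (Sum.elim x s) (B i))) ∧ 0 < μ ∧
    R ^ 2 * μ ^ 4 < v (p : Ω) ∧ (∀ i, i ∉ S → InE v R (P i) ∧ v (zz (P i)) ≤ μ) ∧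
    (∀ j, v (x j) < 1 → x' j = 0) ∧
    OnBase ρ (fun j l => rdT r (ρ j - l) (b j l)) x' s' ∧
    (∀ i ∈ S, ∑ α : MonS d n D, r (β * c (i, α)) *
      eval (Sum.elim x' s') (if ∑ j, (α.1 j : ℕ) = D then um k α else 0) = 0) ∧
    (∀ i, i ∉ S → h i ^ 2 * ∑ α : MonS d n D, r (β * c (i, α)) *
      eval (Sum.elim x' s') (if ∑ j, (α.1 j : ℕ) = D then um k α else 0) = 1) ∧
    ∀ (T : Finset ι), (∀ i ∈ T, i ∉ S) → ∀ τ : ι → Ω, (∀ i, v (τ i) ≤ 1) →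
      v (∑ i ∈ T, τ i * zz (P i)) < μ → ∑ i ∈ T, r (τ i) * h i = 0

/-- PLC (from T_PLCM, T_PLCI): everything at one place -/
def T_PLC : Prop := ∀ (Ω k : Type) [Field Ω] [CharZero Ω] [IsAlgClosed Ω] [DecidableEq Ω]
  [Field k] (p : ℕ) (v : AbsoluteValue Ω ℝ) (r : Ω → k), Red v r → p.Prime → 5 ≤ p →
  v (p : Ω) < 1 →
  ∀ (d n w D : ℕ), w ≤ D → ∀ (ι : Type) [Fintype ι] (ρ : Fin n → ℕ)
    (b : Fin n → ℕ → MvPolynomial (Fin d) Ω),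
    (∀ j l, l < ρ j → (b j l).totalDegree ≤ ρ j - l ∧ ∀ t, v ((b j l).coeff t) ≤ 1) →
  ∀ (A B : ι → MvPolynomial (Fin d ⊕ Fin n) Ω),
    (∀ i t, v ((A i).coeff t) ≤ 1 ∧ v ((B i).coeff t) ≤ 1) →
    (∀ i, (A i).totalDegree ≤ 2 * w ∧ (B i).totalDegree ≤ 3 * w) →
  ∀ (β : Ω) (c : ι × MonS d n D → Ω), β ≠ 0 → v β ≤ v (p : Ω) → (∀ u, v (β * c u) ≤ 1) →
  ∀ (x : Fin d → Ω) (s : Fin n → Ω), OnBase ρ b x s →
  ∀ P : (i : ι) → (curve 0 (eval (Sum.elim x s) (A i)) (eval (Sum.elim x s) (B i))).Point,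
    (∀ i, ∃ y h, P i = WeierstrassCurve.Affine.Point.some (fval D c x s i) y h) →
  ∃ (R μ : ℝ) (S : Finset ι) (ty : Option (Fin d)) (x' : Fin d → k) (s' : Fin n → k)
    (h : ι → k),
    (∀ i, Cx p v R (eval (Sum.elim x s) (A i)) (eval (Sum.elim x s) (B i))) ∧ 0 < μ ∧
    R ^ 2 * μ ^ 4 < v (p : Ω) ∧ (∀ i, i ∉ S → InE v R (P i) ∧ v (zz (P i)) ≤ μ) ∧
    (∀ j, v (x j) < 1 → x' j = 0) ∧
    OnBase ρ (bty r ρ b ty) x' s' ∧ eval (Sum.elim x' s') (uty k ty (al0 D ty)) ≠ 0 ∧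
    (∀ i ∈ S, ∑ α : MonS d n D, r (β * c (i, α)) * eval (Sum.elim x' s') (uty k ty α) = 0) ∧
    (∀ i, i ∉ S →
      h i ^ 2 * ∑ α : MonS d n D, r (β * c (i, α)) * eval (Sum.elim x' s') (uty k ty α) = 1) ∧
    ∀ (T : Finset ι), (∀ i ∈ T, i ∉ S) → ∀ τ : ι → Ω, (∀ i, v (τ i) ≤ 1) →
      v (∑ i ∈ T, τ i * zz (P i)) < μ → ∑ i ∈ T, r (τ i) * h i = 0

/-! ### Block 2: counting the residual data -/

/-- RAT: residue vectors of the values of rational functions in `V` variables: there are at most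
`C q ^ |V|` of them with entries in the field with `q = p ^ f` elements -/
def T_RAT : Prop := ∀ (V M : Type) [Fintype V] [Fintype M] (num den : M → MvPolynomial V ℤ),
  ∃ C : ℕ, ∀ (k : Type) [Field k] (p f : ℕ), p.Prime → 1 ≤ f → CharP k p →
    ∃ Y : Finset (M → k), Y.card ≤ C * (p ^ f) ^ Fintype.card V ∧
      ∀ (F : Type) [Field F] [CharZero F] (v : AbsoluteValue F ℝ) (r : F → k), Red v r →
        v (p : F) < 1 → ∀ t : V → F, (∀ i, aeval t (den i) ≠ 0) →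
        (∀ i, v (aeval t (num i) / aeval t (den i)) ≤ 1) →
        (∀ i, r (aeval t (num i) / aeval t (den i)) ^ (p ^ f) =
          r (aeval t (num i) / aeval t (den i))) →
        (fun i => r (aeval t (num i) / aeval t (den i))) ∈ Y

/-- ECH: the entries of the echelon bases of all the coordinate sections of a subspace are quotients
of the maximal minors of one matrix with `e (g - e)` free entries -/
def T_ECH : Prop := ∀ (F : Type) [Field F] (g e : ℕ) (U : Submodule F (Fin g → F)),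
  Module.finrank F U = e →
  ∃ (b0 : Fin e → Fin g) (t : Fin e × {i : Fin g // ∀ l, b0 l ≠ i} → F),
    Function.Injective b0 ∧
    ∀ (S J : Finset (Fin g)) (τ : Fin g → Fin g → F),
      (∀ j ∈ J, τ j ∈ U ∧ τ j j = 1 ∧ (∀ j' ∈ J, j' ≠ j → τ j j' = 0) ∧ ∀ i ∈ S, τ j i = 0) →
      J.card = Module.finrank F
        (U ⊓ (⨅ i ∈ S, LinearMap.ker (LinearMap.proj i : (Fin g → F) →ₗ[F] F)) :
          Submodule F (Fin g → F)) →
      ∃ b : Fin e → Fin g, aeval t (dn e g b0 b) ≠ 0 ∧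
        ∀ j ∈ J, ∃ l, b l = j ∧ ∀ i, τ j i = aeval t (nm e g b0 b l i) / aeval t (dn e g b0 b)

/-- FRB: either all the residues of all the embeddings of a quadratic field are in the prime field,
or conjugate embeddings have Frobenius conjugate residues -/
def T_FRB : Prop := ∀ (Ω k : Type) [Field Ω] [CharZero Ω] [Field k] (p : ℕ)
  (v : AbsoluteValue Ω ℝ) (r : Ω → k), Red v r → p.Prime → v (p : Ω) < 1 →
  ∀ (a : Ω) (t n : ℤ), a ^ 2 = t * a - n →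
  (∀ σ : Ω →+* Ω, ∀ x ∈ IntermediateField.adjoin ℚ {a}, v (σ x) ≤ 1 → r (σ x) ^ p = r (σ x)) ∨
  (∀ σ σ' : Ω →+* Ω, σ a ≠ σ' a → ∀ x ∈ IntermediateField.adjoin ℚ {a}, v (σ x) ≤ 1 →
    v (σ' x) ≤ 1 ∧ r (σ' x) = r (σ x) ^ p)

/-- DAT (from T_RAT, T_ECH, T_FRB, PKD.T_RES, RD.T_PIV, RD.T_DIM): the pairs of residual data at the
two classes of embeddings -/
def T_DAT : Prop := ∀ g e : ℕ, ∃ C : ℕ, ∀ (k : Type) [Field k] (p : ℕ), p.Prime → CharP k p →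
  ∃ Ds : Finset (Bool → Dat g k), Ds.card ≤ C * p ^ (2 * (e * (g - e))) ∧
    ∀ (Ω : Type) [Field Ω] [CharZero Ω] (v : AbsoluteValue Ω ℝ) (r : Ω → k), Red v r →
      v (p : Ω) < 1 → ∀ (a : Ω) (t n : ℤ), a ^ 2 = t * a - n →
      ∀ U : Submodule (IntermediateField.adjoin ℚ {a}) (Fin g → IntermediateField.adjoin ℚ {a}),
        Module.finrank (IntermediateField.adjoin ℚ {a}) U = e →
        ∃ D ∈ Ds, ∀ σ : Ω →+* Ω,
          (σ a = a → Rz (fun x : IntermediateField.adjoin ℚ {a} => v (σ (x : Ω)))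
            (fun x => r (σ (x : Ω))) U e (D true)) ∧
          (σ a ≠ a → Rz (fun x : IntermediateField.adjoin ℚ {a} => v (σ (x : Ω)))
            (fun x => r (σ (x : Ω))) U e (D false))

/-! ### Block 3: elimination and the sieve -/

/-- ELQ (from PKD.T_ELI): elimination when the coordinates in `Q` vanish -/
def T_ELQ : Prop := ∀ (d n D : ℕ) (ρ : Fin n → ℕ) (ι A : Type) [Fintype ι] [DecidableEq ι]
  [Fintype A] [DecidableEq A] (Q : Finset (Fin d)),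
  ∃ L : ℕ, ∀ (k : Type) [Field k] (b : Fin n → ℕ → MvPolynomial (Fin d) k)
    (u : A → MvPolynomial (Fin d ⊕ Fin n) k) (α0 : A) (S J W : Finset ι) (τ : ι → ι → k),
    (∀ j l, l < ρ j → (b j l).totalDegree ≤ ρ j - l) → (∀ α, (u α).totalDegree ≤ D) →
    Disjoint S W → J ⊆ W → S.card + J.card + Q.card = d + 1 →
    ∃ Φ : MvPolynomial (ι × A) k, Φ ≠ 0 ∧ Φ.totalDegree ≤ L ∧
      ∀ c p s h, Sys ρ b u α0 Q S J W τ c p s h → eval c Φ = 0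

/-- RNK: Rankin's trick -/
def T_RNK : Prop := ∀ (C p0 : ℕ) (ε : ℝ), 0 < ε → ∃ C' : ℝ, ∀ H : ℕ, 1 ≤ H →
  ∑ β ∈ Finset.Icc 1 H, ∏ p ∈ β.primeFactors.filter (fun p => p0 ≤ p), ((C : ℝ) / p) ≤
    C' * (H : ℝ) ^ ε

/-- BOX: lattice points of a box with prescribed residues -/
def T_BOX : Prop := ∀ (κ : Type) [Fintype κ] [DecidableEq κ] (P : Finset ℕ),
  (∀ p ∈ P, p.Prime) → ∀ (B : (p : ℕ) → Finset (κ → ZMod p)) (H : ℕ), 1 ≤ H →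
  ∏ p ∈ P, p ≤ 2 * H + 1 →
  Nat.card {a : κ → ℤ // (∀ i, |a i| ≤ (H : ℤ)) ∧ ∀ p ∈ P, (fun i => (a i : ZMod p)) ∈ B p} *
      (∏ p ∈ P, p) ^ Fintype.card κ ≤
    (2 * (2 * H + 1)) ^ Fintype.card κ * ∏ p ∈ P, (B p).card

/-- SV3 (from T_RNK, T_BOX): the sieve with all the primes -/
def T_SV3 : Prop := ∀ (κ : Type) [Fintype κ] [DecidableEq κ] (C p0 : ℕ)
  (Bp : (p : ℕ) → Finset (κ → ZMod p)) (Bad : ℕ → (κ → ℤ) → Prop),
  (∀ p : ℕ, p0 ≤ p → p.Prime → (Bp p).card * p ≤ C * p ^ Fintype.card κ) →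
  (∀ p : ℕ, p0 ≤ p → p.Prime → ∀ (β : ℕ) (a : κ → ℤ), 0 < β → p ∣ β → Bad β a →
    (fun i => (a i : ZMod p)) ∈ Bp p) →
  ∀ ε : ℝ, 0 < ε → ∃ C' : ℝ, ∀ H : ℕ, 1 ≤ H →
    (Nat.card {x : ℕ × (κ → ℤ) // 1 ≤ x.1 ∧ x.1 ≤ H ∧ (∀ i, |x.2 i| ≤ (H : ℤ)) ∧
      Bad x.1 x.2} : ℝ) ≤ C' * (H : ℝ) ^ ((Fintype.card κ : ℝ) + ε)

end PKE
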