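import Mathlib
import Pool.Agent.PKE.Targets
import Pool.Agent.PKD.RedLem
import Pool.Agent.RD.PIV

/-!
RAT: counting the residue vectors of the values of rational functions (polynomial method).
-/

set_option autoImplicit false

namespace PKE

open MvPolynomial RD PKD

namespace RAT_

/-- pivot bases over the rational numbers, with `p`-integral entries -/
theorem piv_rat (p : ℕ) [Fact p.Prime] (A : Type) [Fintype A] [DecidableEq A]
    (U : Submodule ℚ (A → ℚ)) :
    ∃ (J : Finset A) (τ : A → A → ℚ), J.card = Module.finrank ℚ U ∧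
      ∀ j ∈ J, τ j ∈ U ∧ τ j j = 1 ∧ (∀ j' ∈ J, j' ≠ j → τ j j' = 0) ∧
        ∀ i, ‖((τ j i : ℚ) : ℚ_[p])‖ ≤ 1 := by
  classical
  obtain ⟨e⟩ : Nonempty (A ≃ Fin (Fintype.card A)) := ⟨Fintype.equivFin A⟩
  set g := Fintype.card A with hg
  let E : (Fin g → ℚ) ≃ₗ[ℚ] (A → ℚ) := LinearEquiv.funCongrLeft ℚ ℚ e
  have hE : ∀ (w : Fin g → ℚ) (a : A), E w a = w (e a) := fun w a => rfl
  let U' : Submodule ℚ (Fin g → ℚ) := U.comap E.toLinearMap
  obtain ⟨J, τ, hJ, h⟩ := RD.p_PIV ℚ (fun x => ‖((x : ℚ) : ℚ_[p])‖) (by simp)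
    (fun x hx => norm_pos_iff.2 (by exact_mod_cast hx))
    (fun x y => by push_cast; exact norm_mul _ _)
    (fun x y => by push_cast; exact Padic.nonarchimedean _ _) g U'
  refine ⟨J.map e.symm.toEmbedding, fun a b => τ (e a) (e b), ?_, ?_⟩
  · rw [Finset.card_map, hJ]
    have h1 : U'.map E.toLinearMap = U := by
      rw [Submodule.map_comap_eq_of_surjective E.surjective]
    have h2 : Module.finrank ℚ (U'.map (E : (Fin g → ℚ) →ₗ[ℚ] (A → ℚ))) = Module.finrank ℚ U' :=
      LinearEquiv.finrank_map_eq E U'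
    rw [← h2]
    exact congrArg (fun W : Submodule ℚ (A → ℚ) => Module.finrank ℚ W) h1
  · intro a ha
    rw [Finset.mem_map] at ha
    obtain ⟨j, hj, rfl⟩ := ha
    obtain ⟨h1, h2, h3, h4⟩ := h j hj
    simp only [Equiv.coe_toEmbedding, Equiv.apply_symm_apply]
    refine ⟨h1, h2, ?_, fun i => h4 _⟩
    intro a' ha' hne
    rw [Finset.mem_map] at ha'
    obtain ⟨j', hj', rfl⟩ := ha'
    simp only [Equiv.coe_toEmbedding, Equiv.apply_symm_apply]
    refine h3 j' hj' ?_
    rintro rfl
    exact hne rfl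

/-- reduction of `p`-integral rational numbers -/
theorem red_rat {F k : Type} [Field F] [CharZero F] [Field k] {v : AbsoluteValue F ℝ} {r : F → k}
    (hr : Red v r) (p : ℕ) [Fact p.Prime] (hp : v (p : F) < 1) (x : ℚ)
    (hx : ‖(x : ℚ_[p])‖ ≤ 1) : v (x : F) ≤ 1 ∧ r (x : F) = (x.num : k) / (x.den : k) := by
  have h1 : ¬ p ∣ x.den := by
    intro hd
    have h2 := PadicInt.isUnit_den x hx
    rw [PadicInt.isUnit_iff, PadicInt.norm_natCast_eq_one_iff] at h2
    exact (Nat.Prime.coprime_iff_not_dvd Fact.out).1 h2 hd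
  have h2 : IsCoprime ((x.den : ℕ) : ℤ) (p : ℤ) := by
    rw [Nat.isCoprime_iff_coprime]
    exact ((Nat.Prime.coprime_iff_not_dvd Fact.out).2 h1).symm
  have h3 : v ((x.den : ℕ) : F) = 1 := by
    have := na_coprime hr.na hp h2
    push_cast at this
    exact this
  have hd0 : ((x.den : ℕ) : F) ≠ 0 := by
    intro h0
    rw [h0, v.map_zero] at h3
    exact zero_ne_one h3
  have hxe : (x : F) * (x.den : F) = (x.num : F) := by
    have h4 : (x : F) = (x.num : F) / (x.den : F) := Rat.cast_def x
    rw [h4, div_mul_cancel₀ _ hd0]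
  have hv : v (x : F) ≤ 1 := by
    have h4 := congrArg v hxe
    rw [v.map_mul, h3, mul_one] at h4
    rw [h4]
    exact na_int hr.na _
  refine ⟨hv, ?_⟩
  have h5 := congrArg r hxe
  rw [hr.mul _ _ hv h3.le, hr.nat, hr.int] at h5
  have h6 : (x.den : k) ≠ 0 := by
    rw [← hr.nat]
    intro h0
    have := (hr.ker _ h3.le).1 h0
    rw [h3] at this
    exact lt_irrefl _ this
  rw [← h5, mul_div_assoc, div_self h6, mul_one]

/-- counting by linear algebra -/
theorem count {k M : Type} [Field k] [Fintype M] [DecidableEq M] [DecidableEq k] (q : ℕ)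
    (E : Finset k) (hE : E.card ≤ q) (Y : Finset (M → k))
    (hY : ∀ y ∈ Y, ∀ i, y i ∈ E)
    (J : Finset (M → Fin q)) (c : (M → Fin q) → (M → Fin q) → k)
    (hc1 : ∀ j ∈ J, c j j = 1) (hc2 : ∀ j ∈ J, ∀ j' ∈ J, j' ≠ j → c j j' = 0)
    (hc : ∀ j ∈ J, ∀ y ∈ Y, ∑ α, c j α * ∏ i, y i ^ (α i : ℕ) = 0) :
    Y.card + J.card ≤ Fintype.card (M → Fin q) := by
  classical
  let Φ : ({α : M → Fin q // α ∉ J} → k) →ₗ[k] (Y → k) :=
    { toFun := fun w y => ∑ α, w α * ∏ i, y.1 i ^ (α.1 i : ℕ)
      map_add' := fun w w' => by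
        ext y
        simp only [Pi.add_apply, add_mul, Finset.sum_add_distrib]
      map_smul' := fun t w => by
        ext y
        simp only [Pi.smul_apply, smul_eq_mul, RingHom.id_apply, Finset.mul_sum, mul_assoc] }
  have hΦ : ∀ w y, Φ w y = ∑ α, w α * ∏ i, y.1 i ^ (α.1 i : ℕ) := fun w y => rfl
  -- the monomials
  have hmon : ∀ α : M → Fin q, (fun y : Y => ∏ i, y.1 i ^ (α i : ℕ)) ∈ LinearMap.range Φ := by
    intro α
    by_cases hα : α ∈ J
    · refine ⟨fun β => - c α β.1, ?_⟩
      ext y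
      rw [hΦ]
      have h1 := hc α hα y.1 y.2
      have h2 : ∑ β, c α β * ∏ i, y.1 i ^ (β i : ℕ) =
          ∑ β ∈ J, c α β * ∏ i, y.1 i ^ (β i : ℕ) +
            ∑ β : {β : M → Fin q // β ∉ J}, c α β.1 * ∏ i, y.1 i ^ (β.1 i : ℕ) := by
        rw [← Finset.sum_add_sum_compl J]
        congr 1
        rw [Finset.sum_subtype Jᶜ (fun x => Finset.mem_compl)]
      have h3 : ∑ β ∈ J, c α β * ∏ i, y.1 i ^ (β i : ℕ) = ∏ i, y.1 i ^ (α i : ℕ) := by
        rw [Finset.sum_eq_single_of_mem α hα]
        · rw [hc1 α hα, one_mul]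
        · intro b hb hne
          rw [hc2 α hα b hb hne, zero_mul]
      rw [h2, h3] at h1
      have h4 : ∑ β : {β : M → Fin q // β ∉ J}, -c α β.1 * ∏ i, y.1 i ^ (β.1 i : ℕ) =
          - ∑ β : {β : M → Fin q // β ∉ J}, c α β.1 * ∏ i, y.1 i ^ (β.1 i : ℕ) := by
        rw [← Finset.sum_neg_distrib]
        exact Finset.sum_congr rfl fun β _ => by ring
      rw [h4]
      linear_combination -h1
    · refine ⟨Pi.single ⟨α, hα⟩ 1, ?_⟩
      ext y
      rw [hΦ, Finset.sum_eq_single ⟨α, hα⟩]
      · rw [Pi.single_eq_same, one_mul]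
      · intro b _ hne
        rw [Pi.single_eq_of_ne hne, zero_mul]
      · intro h
        exact absurd (Finset.mem_univ _) h
  -- the indicator functions
  have hind : ∀ y0 : Y, (Pi.single y0 1 : Y → k) ∈ LinearMap.range Φ := by
    intro y0
    have hdeg : ∀ i, (Lagrange.basis E id (y0.1 i)).natDegree < q := by
      intro i
      have h1 := Lagrange.degree_basis (s := E) (v := id) (fun _ _ _ _ h => h) (hY y0.1 y0.2 i)
      have h2 : 0 < E.card := Finset.card_pos.2 ⟨_, hY y0.1 y0.2 i⟩
      have h3 := Polynomial.natDegree_le_of_degree_le h1.le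
      omega
    have h1 : (Pi.single y0 1 : Y → k) = ∑ α : M → Fin q,
        (∏ i, (Lagrange.basis E id (y0.1 i)).coeff (α i : ℕ)) •
          (fun y : Y => ∏ i, y.1 i ^ (α i : ℕ)) := by
      ext y
      rw [Finset.sum_apply]
      simp only [Pi.smul_apply, smul_eq_mul]
      have h2 : ∀ α : M → Fin q, (∏ i, (Lagrange.basis E id (y0.1 i)).coeff (α i : ℕ)) *
          ∏ i, y.1 i ^ (α i : ℕ) =
          ∏ i, ((Lagrange.basis E id (y0.1 i)).coeff (α i : ℕ) * y.1 i ^ (α i : ℕ)) := fun α =>
        (Finset.prod_mul_distrib).symm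
      rw [Finset.sum_congr rfl fun α _ => h2 α]
      have h3 := Finset.prod_univ_sum (fun _ : M => (Finset.univ : Finset (Fin q)))
        (fun i a => (Lagrange.basis E id (y0.1 i)).coeff (a : ℕ) * y.1 i ^ (a : ℕ))
      rw [Fintype.piFinset_univ] at h3
      rw [← h3]
      have h4 : ∀ i, ∑ a : Fin q, (Lagrange.basis E id (y0.1 i)).coeff (a : ℕ) * y.1 i ^ (a : ℕ) =
          (Lagrange.basis E id (y0.1 i)).eval (y.1 i) := by
        intro i
        rw [Polynomial.eval_eq_sum_range' (hdeg i), Finset.sum_range]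
      rw [Finset.prod_congr rfl fun i _ => h4 i]
      by_cases hy : y = y0
      · subst hy
        rw [Pi.single_eq_same]
        symm
        refine Finset.prod_eq_one fun i _ => ?_
        exact Lagrange.eval_basis_self (s := E) (v := id) (fun _ _ _ _ h => h) (hY y.1 y.2 i)
      · rw [Pi.single_eq_of_ne hy]
        have h5 : ∃ i, y.1 i ≠ y0.1 i := by
          by_contra hcon
          push Not at hcon
          exact hy (Subtype.ext (funext hcon))
        obtain ⟨i, hi⟩ := h5
        symm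
        refine Finset.prod_eq_zero (Finset.mem_univ i) ?_
        exact Lagrange.eval_basis_of_ne (s := E) (v := id) (Ne.symm hi) (hY y.1 y.2 i)
    rw [h1]
    exact Submodule.sum_mem _ fun α _ => Submodule.smul_mem _ _ (hmon α)
  have hsurj : Function.Surjective Φ := by
    rw [← LinearMap.range_eq_top, eq_top_iff]
    intro w _
    have h1 : w = ∑ y0, w y0 • (Pi.single y0 1 : Y → k) := by
      ext y
      rw [Finset.sum_apply, Finset.sum_eq_single y]
      · simp
      · intro b _ hne
        rw [Pi.smul_apply, Pi.single_eq_of_ne (Ne.symm hne), smul_zero]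
      · intro h
        exact absurd (Finset.mem_univ _) h
    rw [h1]
    exact Submodule.sum_mem _ fun y0 _ => Submodule.smul_mem _ _ (hind y0)
  have h1 := LinearMap.finrank_le_finrank_of_surjective hsurj
  rw [Module.finrank_fintype_fun_eq_card, Module.finrank_fintype_fun_eq_card,
    Fintype.card_coe, Fintype.card_subtype_compl, Fintype.card_coe] at h1
  have h2 : J.card ≤ Fintype.card (M → Fin q) := Finset.card_le_univ J
  omega

theorem rel_of_coeffs {V M : Type} [Fintype V] [Fintype M] [DecidableEq M] (q N : ℕ)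
    (mono : (M → Fin q) → MvPolynomial V ℤ) (hmono : ∀ α, (mono α).totalDegree < N)
    (b : (M → Fin q) → ℚ)
    (hb : ∀ s : V → Fin N, ∑ α, b α *
      (((mono α).coeff (Finsupp.equivFunOnFinite.symm fun i => ((s i : ℕ))) : ℤ) : ℚ) = 0) :
    ∑ α, b α • MvPolynomial.map (algebraMap ℤ ℚ) (mono α) = 0 := by
  classical
  ext s
  rw [MvPolynomial.coeff_sum, MvPolynomial.coeff_zero]
  simp only [MvPolynomial.coeff_smul, MvPolynomial.coeff_map, smul_eq_mul]
  by_cases hs : ∀ i, s i < N
  · have h1 := hb (fun i => ⟨s i, hs i⟩)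
    have h2 : (Finsupp.equivFunOnFinite.symm fun i => (s i : ℕ)) = s := by
      ext i
      rfl
    simp only [h2] at h1
    exact h1
  · push Not at hs
    obtain ⟨i, hi⟩ := hs
    refine Finset.sum_eq_zero fun α _ => ?_
    have h1 : (mono α).coeff s = 0 := by
      refine MvPolynomial.coeff_eq_zero_of_totalDegree_lt ((hmono α).trans_le (hi.trans ?_))
      exact Finset.single_le_sum (f := fun i => s i) (fun _ _ => Nat.zero_le _)
        (Finsupp.mem_support_iff.2 (by
          intro h0
          rw [h0] at hi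
          have := hmono α
          omega))
    rw [h1, map_zero, mul_zero]

end RAT_

open RAT_ in
theorem p_RAT : T_RAT := by
  classical
  intro V M _ _ num den
  set dg : ℕ := ∑ i, ((num i).totalDegree + (den i).totalDegree) with hdg
  refine ⟨(dg + 1) ^ Fintype.card V, ?_⟩
  intro k _ p f hp hf hchar
  have : Fact p.Prime := ⟨hp⟩
  set q := p ^ f with hq
  have hq2 : 2 ≤ q := by
    calc 2 ≤ p := hp.two_le
      _ = p ^ 1 := (pow_one p).symm
      _ ≤ p ^ f := Nat.pow_le_pow_right hp.pos hf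
  -- the finite set `E`
  have hPdeg : (Polynomial.X ^ q - Polynomial.X : Polynomial k).natDegree = q :=
    FiniteField.X_pow_card_sub_X_natDegree_eq k (by omega)
  have hP : (Polynomial.X ^ q - Polynomial.X : Polynomial k) ≠ 0 := by
    intro h0
    rw [h0, Polynomial.natDegree_zero] at hPdeg
    omega
  set E : Finset k := (Polynomial.X ^ q - Polynomial.X : Polynomial k).roots.toFinset with hE
  have hEmem : ∀ x : k, x ^ q = x → x ∈ E := by
    intro x hx
    rw [hE, Multiset.mem_toFinset, Polynomial.mem_roots hP]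
    simp [Polynomial.IsRoot.def, hx]
  have hEcard : E.card ≤ q := by
    calc E.card ≤ Multiset.card (Polynomial.X ^ q - Polynomial.X : Polynomial k).roots :=
          Multiset.toFinset_card_le _
      _ ≤ (Polynomial.X ^ q - Polynomial.X : Polynomial k).natDegree := Polynomial.card_roots' _
      _ = q := hPdeg
  -- the monomials
  set mono : (M → Fin q) → MvPolynomial V ℤ :=
    fun α => ∏ i, (num i ^ (α i : ℕ) * den i ^ (q - 1 - (α i : ℕ))) with hmonodef
  have hmono : ∀ α, (mono α).totalDegree < (q - 1) * dg + 1 := by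
    intro α
    rw [Nat.lt_succ_iff, hmonodef]
    refine (MvPolynomial.totalDegree_finsetProd _ _).trans ?_
    rw [hdg, Finset.mul_sum]
    refine Finset.sum_le_sum fun i _ => ?_
    refine (MvPolynomial.totalDegree_mul _ _).trans ?_
    have h1 := MvPolynomial.totalDegree_pow (num i) (α i : ℕ)
    have h2 := MvPolynomial.totalDegree_pow (den i) (q - 1 - (α i : ℕ))
    have h3 : (α i : ℕ) ≤ q - 1 := by
      have := (α i).2
      omega
    have h4 : (α i : ℕ) * (num i).totalDegree ≤ (q - 1) * (num i).totalDegree :=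
      Nat.mul_le_mul_right _ h3
    have h5 : (q - 1 - (α i : ℕ)) * (den i).totalDegree ≤ (q - 1) * (den i).totalDegree :=
      Nat.mul_le_mul_right _ (Nat.sub_le _ _)
    rw [mul_add]
    omega
  set N := (q - 1) * dg + 1 with hN
  let Λ : ((M → Fin q) → ℚ) →ₗ[ℚ] ((V → Fin N) → ℚ) :=
    { toFun := fun b s => ∑ α, b α *
        (((mono α).coeff (Finsupp.equivFunOnFinite.symm fun i => ((s i : ℕ))) : ℤ) : ℚ)
      map_add' := fun b b' => by
        ext s
        simp only [Pi.add_apply, add_mul, Finset.sum_add_distrib]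
      map_smul' := fun t b => by
        ext s
        simp only [Pi.smul_apply, smul_eq_mul, RingHom.id_apply, Finset.mul_sum, mul_assoc] }
  have hΛ : ∀ b ∈ LinearMap.ker Λ, ∑ α, b α • MvPolynomial.map (algebraMap ℤ ℚ) (mono α) = 0 := by
    intro b hb
    exact rel_of_coeffs q N mono hmono b fun s => congrFun (LinearMap.mem_ker.1 hb) s
  obtain ⟨J, τ, hJ, hτ⟩ := piv_rat p (M → Fin q) (LinearMap.ker Λ)
  have hrk : Fintype.card (M → Fin q) ≤ J.card + N ^ Fintype.card V := by
    have h1 := LinearMap.finrank_range_add_finrank_ker Λ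
    have h2 : Module.finrank ℚ (LinearMap.range Λ) ≤ Module.finrank ℚ ((V → Fin N) → ℚ) :=
      Submodule.finrank_le _
    rw [Module.finrank_fintype_fun_eq_card] at h1 h2
    rw [Fintype.card_fun, Fintype.card_fin] at h2
    omega
  let Y : Finset (M → k) := (Fintype.piFinset fun _ => E).filter fun y => ∀ j ∈ J,
    ∑ α, ((τ j α).num : k) / ((τ j α).den : k) * ∏ i, y i ^ (α i : ℕ) = 0
  refine ⟨Y, ?_, ?_⟩
  · have h1 := count q E hEcard Y
      (fun y hy i => Fintype.mem_piFinset.1 (Finset.mem_filter.1 hy).1 i) J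
      (fun j α => ((τ j α).num : k) / ((τ j α).den : k))
      (fun j hj => by
        show ((τ j j).num : k) / ((τ j j).den : k) = 1
        rw [(hτ j hj).2.1]
        simp)
      (fun j hj j' hj' hne => by
        show ((τ j j').num : k) / ((τ j j').den : k) = 0
        rw [(hτ j hj).2.2.1 j' hj' hne]
        simp)
      (fun j hj y hy => (Finset.mem_filter.1 hy).2 j hj)
    have h2 : Y.card ≤ N ^ Fintype.card V := by omega
    refine h2.trans ?_
    rw [← mul_pow]
    refine Nat.pow_le_pow_left ?_ _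
    rw [hN]
    have h3 : (q - 1) * dg ≤ q * dg := Nat.mul_le_mul_right _ (Nat.sub_le _ _)
    nlinarith
  · intro F _ _ v r hr hvp t hden hint hres
    set z : M → F := fun i => aeval t (num i) / aeval t (den i) with hz
    have hint' : ∀ i, v (z i) ≤ 1 := hint
    have hzint : ∀ α : M → Fin q, v (∏ i, z i ^ (α i : ℕ)) ≤ 1 := by
      intro α
      refine na_prod_le _ _ fun i _ => ?_
      rw [v.map_pow]
      exact pow_le_one₀ (v.nonneg _) (hint i)
    refine Finset.mem_filter.2 ⟨Fintype.mem_piFinset.2 fun i => hEmem _ (hres i), ?_⟩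
    intro j hj
    obtain ⟨h1, -, -, h4⟩ := hτ j hj
    have h5 : ∑ α, ((τ j α : ℚ) : F) * ∏ i, z i ^ (α i : ℕ) = 0 := by
      have h6 := congrArg (aeval t : MvPolynomial V ℚ →ₐ[ℚ] F) (hΛ _ h1)
      rw [map_sum, map_zero] at h6
      have h7 : ∀ α : M → Fin q, aeval t (τ j α • MvPolynomial.map (algebraMap ℤ ℚ) (mono α)) =
          (∏ i, aeval t (den i) ^ (q - 1)) * (((τ j α : ℚ) : F) * ∏ i, z i ^ (α i : ℕ)) := by
        intro α
        rw [map_smul, MvPolynomial.aeval_map_algebraMap, hmonodef, Rat.smul_def, map_prod]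
        have h8 : ∏ i, aeval t (num i ^ (α i : ℕ) * den i ^ (q - 1 - (α i : ℕ))) =
            (∏ i, aeval t (den i) ^ (q - 1)) * ∏ i, z i ^ (α i : ℕ) := by
          rw [← Finset.prod_mul_distrib]
          refine Finset.prod_congr rfl fun i _ => ?_
          have h9 : (α i : ℕ) ≤ q - 1 := by
            have := (α i).2
            omega
          have h10 : aeval t (den i) ^ (q - 1) =
              aeval t (den i) ^ (q - 1 - (α i : ℕ)) * aeval t (den i) ^ (α i : ℕ) := by
            rw [← pow_add, Nat.sub_add_cancel h9]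
          rw [map_mul, map_pow, map_pow, h10, hz, div_pow]
          have h11 : aeval t (den i) ^ (α i : ℕ) ≠ 0 := pow_ne_zero _ (hden i)
          field_simp
        rw [h8]
        ring
      rw [Finset.sum_congr rfl fun α _ => h7 α, ← Finset.mul_sum] at h6
      rcases mul_eq_zero.1 h6 with h8 | h8
      · exfalso
        rw [Finset.prod_eq_zero_iff] at h8
        obtain ⟨i, -, h9⟩ := h8
        exact pow_ne_zero _ (hden i) h9
      · exact h8
    have h6 := congrArg r h5
    have h7 : ∀ α : M → Fin q, v (((τ j α : ℚ) : F) * ∏ i, z i ^ (α i : ℕ)) ≤ 1 := by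
      intro α
      rw [v.map_mul]
      exact mul_le_one₀ (red_rat hr p hvp _ (h4 α)).1 (v.nonneg _) (hzint α)
    rw [hr.sum _ _ fun α _ => h7 α, hr.zero] at h6
    rw [← h6]
    refine Finset.sum_congr rfl fun α _ => ?_
    rw [hr.mul _ _ (red_rat hr p hvp _ (h4 α)).1 (hzint α), (red_rat hr p hvp _ (h4 α)).2,
      hr.prod _ _ fun i _ => by
        rw [v.map_pow]
        exact pow_le_one₀ (v.nonneg _) (hint i)]
    congr 1
    refine Finset.prod_congr rfl fun i _ => ?_
    rw [hr.pow (hint' i)]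

end PKE
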