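import Pool.Agent.PKE.Targets

set_option autoImplicit false

namespace PKE

namespace RNK_

open Finset

/-- the weight -/
noncomputable def g (C p0 : ℕ) (β : ℕ) : ℝ :=
  ∏ p ∈ β.primeFactors.filter (fun p => p0 ≤ p), ((C : ℝ) / p)

/-- the multiplicative function of Rankin's trick -/
noncomputable def f (C p0 : ℕ) (ε : ℝ) (β : ℕ) : ℝ := (β : ℝ) ^ (-ε) * g C p0 β

theorem g_nonneg (C p0 β : ℕ) : 0 ≤ g C p0 β := by
  unfold g
  exact Finset.prod_nonneg (fun p _ => by positivity)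

theorem f_nonneg (C p0 : ℕ) (ε : ℝ) (β : ℕ) : 0 ≤ f C p0 ε β := by
  unfold f
  exact mul_nonneg (Real.rpow_nonneg (Nat.cast_nonneg _) _) (g_nonneg _ _ _)

theorem g_one (C p0 : ℕ) : g C p0 1 = 1 := by
  unfold g
  simp

theorem f_one (C p0 : ℕ) (ε : ℝ) : f C p0 ε 1 = 1 := by
  unfold f
  rw [g_one]
  simp

theorem g_mul (C p0 : ℕ) {m n : ℕ} (h : m.Coprime n) :
    g C p0 (m * n) = g C p0 m * g C p0 n := by
  unfold g
  rw [h.primeFactors_mul, Finset.filter_union, Finset.prod_union]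
  exact Finset.disjoint_filter_filter h.disjoint_primeFactors

theorem f_mul (C p0 : ℕ) (ε : ℝ) {m n : ℕ} (h : m.Coprime n) :
    f C p0 ε (m * n) = f C p0 ε m * f C p0 ε n := by
  unfold f
  rw [g_mul C p0 h]
  push_cast
  rw [Real.mul_rpow (Nat.cast_nonneg m) (Nat.cast_nonneg n)]
  ring

/-- the factor at a prime -/
noncomputable def cp (C p0 p : ℕ) : ℝ := if p0 ≤ p then (C : ℝ) / p else 1

theorem cp_nonneg (C p0 p : ℕ) : 0 ≤ cp C p0 p := by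
  unfold cp
  split_ifs
  · positivity
  · exact zero_le_one

theorem g_pow (C p0 : ℕ) {p : ℕ} (hp : p.Prime) (j : ℕ) :
    g C p0 (p ^ (j + 1)) = cp C p0 p := by
  unfold g cp
  rw [Nat.primeFactors_prime_pow (Nat.succ_ne_zero j) hp, Finset.filter_singleton]
  split_ifs
  · exact Finset.prod_singleton _ _
  · exact Finset.prod_empty

theorem f_pow (C p0 : ℕ) (ε : ℝ) {p : ℕ} (hp : p.Prime) (j : ℕ) :
    f C p0 ε (p ^ (j + 1)) = cp C p0 p * (p : ℝ) ^ (-ε) * ((p : ℝ) ^ (-ε)) ^ j := by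
  unfold f
  rw [g_pow C p0 hp j]
  have h : (((p ^ (j + 1) : ℕ) : ℝ)) ^ (-ε) = ((p : ℝ) ^ (-ε)) ^ (j + 1) := by
    push_cast
    rw [← Real.rpow_natCast, ← Real.rpow_natCast, ← Real.rpow_mul (Nat.cast_nonneg p),
      ← Real.rpow_mul (Nat.cast_nonneg p)]
    congr 1
    ring
  rw [h, pow_succ]
  ring

theorem x_lt {ε : ℝ} (hε : 0 < ε) {p : ℕ} (hp : p.Prime) :
    (p : ℝ) ^ (-ε) ≤ (2 : ℝ) ^ (-ε) := by
  have h2 : (2 : ℝ) ≤ p := by exact_mod_cast hp.two_le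
  exact Real.rpow_le_rpow_of_nonpos (by norm_num) h2 (by linarith)

theorem two_lt {ε : ℝ} (hε : 0 < ε) : (2 : ℝ) ^ (-ε) < 1 :=
  Real.rpow_lt_one_of_one_lt_of_neg (by norm_num) (by linarith)

theorem x_nonneg (ε : ℝ) (p : ℕ) : 0 ≤ (p : ℝ) ^ (-ε) := Real.rpow_nonneg (Nat.cast_nonneg _) _

theorem summ (C p0 : ℕ) {ε : ℝ} (hε : 0 < ε) {p : ℕ} (hp : p.Prime) :
    Summable (fun j : ℕ => f C p0 ε (p ^ j)) := by
  have hx1 : (p : ℝ) ^ (-ε) < 1 := lt_of_le_of_lt (x_lt hε hp) (two_lt hε)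
  have h : Summable (fun j : ℕ => f C p0 ε (p ^ (j + 1))) := by
    have h2 : (fun j : ℕ => f C p0 ε (p ^ (j + 1)))
        = fun j : ℕ => cp C p0 p * (p : ℝ) ^ (-ε) * ((p : ℝ) ^ (-ε)) ^ j := by
      funext j
      exact f_pow C p0 ε hp j
    rw [h2]
    exact (summable_geometric_of_lt_one (x_nonneg ε p) hx1).mul_left _
  exact (summable_nat_add_iff 1).mp h

theorem tsum_le (C p0 : ℕ) {ε : ℝ} (hε : 0 < ε) {p : ℕ} (hp : p.Prime) :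
    (∑' j : ℕ, f C p0 ε (p ^ j)) ≤
      Real.exp ((if p < p0 then (1 - (2 : ℝ) ^ (-ε))⁻¹ else 0) +
        (C : ℝ) * (1 - (2 : ℝ) ^ (-ε))⁻¹ * ((p : ℝ) ^ (1 + ε))⁻¹) := by
  have hx0 := x_nonneg ε p
  have hx2 := x_lt hε hp
  have h2 := two_lt hε
  have hx1 : (p : ℝ) ^ (-ε) < 1 := lt_of_le_of_lt hx2 h2
  rw [(summ C p0 hε hp).tsum_eq_zero_add]
  have h3 : (∑' j : ℕ, f C p0 ε (p ^ (j + 1))) =
      cp C p0 p * (p : ℝ) ^ (-ε) * (1 - (p : ℝ) ^ (-ε))⁻¹ := by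
    rw [← tsum_geometric_of_lt_one hx0 hx1, ← tsum_mul_left]
    exact tsum_congr (fun j => f_pow C p0 ε hp j)
  rw [h3, pow_zero, f_one]
  have hinv : (1 - (p : ℝ) ^ (-ε))⁻¹ ≤ (1 - (2 : ℝ) ^ (-ε))⁻¹ :=
    inv_anti₀ (by linarith) (by linarith)
  have hd : 0 < (1 - (2 : ℝ) ^ (-ε))⁻¹ := inv_pos.mpr (by linarith)
  have hp0 : (0 : ℝ) < p := by exact_mod_cast hp.pos
  have h4 : cp C p0 p * (p : ℝ) ^ (-ε) * (1 - (p : ℝ) ^ (-ε))⁻¹ ≤
      (if p < p0 then (1 - (2 : ℝ) ^ (-ε))⁻¹ else 0) +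
        (C : ℝ) * (1 - (2 : ℝ) ^ (-ε))⁻¹ * ((p : ℝ) ^ (1 + ε))⁻¹ := by
    have h5 : cp C p0 p * (p : ℝ) ^ (-ε) * (1 - (p : ℝ) ^ (-ε))⁻¹ ≤
        cp C p0 p * (p : ℝ) ^ (-ε) * (1 - (2 : ℝ) ^ (-ε))⁻¹ :=
      mul_le_mul_of_nonneg_left hinv (mul_nonneg (cp_nonneg _ _ _) hx0)
    refine h5.trans ?_
    unfold cp
    by_cases hpp : p0 ≤ p
    · rw [if_pos hpp, if_neg (not_lt.mpr hpp), zero_add]
      apply le_of_eq
      have h6 : (p : ℝ) ^ (1 + ε) = p * (p : ℝ) ^ ε := by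
        rw [Real.rpow_add hp0, Real.rpow_one]
      rw [h6, mul_inv, Real.rpow_neg hp0.le, div_eq_mul_inv]
      ring
    · rw [if_neg hpp, if_pos (not_le.mp hpp), one_mul]
      have h7 : (p : ℝ) ^ (-ε) * (1 - (2 : ℝ) ^ (-ε))⁻¹ ≤ 1 * (1 - (2 : ℝ) ^ (-ε))⁻¹ :=
        mul_le_mul_of_nonneg_right hx1.le hd.le
      have h8 : 0 ≤ (C : ℝ) * (1 - (2 : ℝ) ^ (-ε))⁻¹ * ((p : ℝ) ^ (1 + ε))⁻¹ := by
        have : 0 ≤ ((p : ℝ) ^ (1 + ε))⁻¹ := inv_nonneg.mpr (Real.rpow_nonneg hp0.le _)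
        exact mul_nonneg (mul_nonneg (Nat.cast_nonneg _) hd.le) this
      linarith
  have h9 := Real.add_one_le_exp ((if p < p0 then (1 - (2 : ℝ) ^ (-ε))⁻¹ else 0) +
        (C : ℝ) * (1 - (2 : ℝ) ^ (-ε))⁻¹ * ((p : ℝ) ^ (1 + ε))⁻¹)
  linarith

theorem sum_f (C p0 : ℕ) {ε : ℝ} (hε : 0 < ε) (H : ℕ) :
    ∑ β ∈ Finset.Icc 1 H, f C p0 ε β ≤
      Real.exp ((p0 : ℝ) * (1 - (2 : ℝ) ^ (-ε))⁻¹ +
        (C : ℝ) * (1 - (2 : ℝ) ^ (-ε))⁻¹ * ∑' n : ℕ, ((n : ℝ) ^ (1 + ε))⁻¹) := by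
  classical
  have hd : 0 < (1 - (2 : ℝ) ^ (-ε))⁻¹ := inv_pos.mpr (by linarith [two_lt hε])
  have key := (EulerProduct.summable_and_hasSum_smoothNumbers_prod_primesBelow_tsum
    (f := f C p0 ε) (f_one C p0 ε) (fun {m n} h => f_mul C p0 ε h)
    (fun {p} hp => by
      have := summ C p0 hε hp
      exact this.norm) (H + 1)).2
  have hmem : ∀ β ∈ Finset.Icc 1 H, β ∈ (H + 1).smoothNumbers := by
    intro β hβ
    rw [Finset.mem_Icc] at hβ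
    exact Nat.mem_smoothNumbers_of_lt (by omega) (by omega)
  have h1 : ∑ β ∈ Finset.Icc 1 H, f C p0 ε β =
      ∑ x ∈ Finset.subtype (fun β => β ∈ (H + 1).smoothNumbers) (Finset.Icc 1 H),
        f C p0 ε (x : ℕ) := by
    rw [Finset.sum_subtype_of_mem (f C p0 ε) hmem]
  rw [h1]
  have h2 := sum_le_hasSum (Finset.subtype (fun β => β ∈ (H + 1).smoothNumbers)
    (Finset.Icc 1 H)) (fun i _ => f_nonneg C p0 ε (i : ℕ)) key
  refine h2.trans ?_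
  have h3 : ∏ p ∈ (H + 1).primesBelow, ∑' n : ℕ, f C p0 ε (p ^ n) ≤
      ∏ p ∈ (H + 1).primesBelow, Real.exp ((if p < p0 then (1 - (2 : ℝ) ^ (-ε))⁻¹ else 0) +
        (C : ℝ) * (1 - (2 : ℝ) ^ (-ε))⁻¹ * ((p : ℝ) ^ (1 + ε))⁻¹) := by
    apply Finset.prod_le_prod
    · intro p _
      exact tsum_nonneg (fun n => f_nonneg C p0 ε _)
    · intro p hp
      exact tsum_le C p0 hε (Nat.prime_of_mem_primesBelow hp)
  refine h3.trans ?_
  rw [← Real.exp_sum, Real.exp_le_exp, Finset.sum_add_distrib]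
  apply add_le_add
  · rw [← Finset.sum_filter, Finset.sum_const, nsmul_eq_mul]
    apply mul_le_mul_of_nonneg_right _ hd.le
    have : ((H + 1).primesBelow.filter (fun p => p < p0)).card ≤ p0 := by
      have hsub : (H + 1).primesBelow.filter (fun p => p < p0) ⊆ Finset.range p0 := by
        intro p hp
        rw [Finset.mem_filter] at hp
        exact Finset.mem_range.mpr hp.2
      have := Finset.card_le_card hsub
      rwa [Finset.card_range] at this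
    exact_mod_cast this
  · rw [← Finset.mul_sum]
    apply mul_le_mul_of_nonneg_left _ (mul_nonneg (Nat.cast_nonneg _) hd.le)
    apply Summable.sum_le_tsum
    · intro n _
      exact inv_nonneg.mpr (Real.rpow_nonneg (Nat.cast_nonneg _) _)
    · exact Real.summable_nat_rpow_inv.mpr (by linarith)

end RNK_

theorem p_RNK : T_RNK := by
  intro C p0 ε hε
  refine ⟨Real.exp ((p0 : ℝ) * (1 - (2 : ℝ) ^ (-ε))⁻¹ +
        (C : ℝ) * (1 - (2 : ℝ) ^ (-ε))⁻¹ * ∑' n : ℕ, ((n : ℝ) ^ (1 + ε))⁻¹), ?_⟩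
  intro H hH
  have h1 : ∑ β ∈ Finset.Icc 1 H, ∏ p ∈ β.primeFactors.filter (fun p => p0 ≤ p), ((C : ℝ) / p)
      ≤ ∑ β ∈ Finset.Icc 1 H, RNK_.f C p0 ε β * (H : ℝ) ^ ε := by
    apply Finset.sum_le_sum
    intro β hβ
    rw [Finset.mem_Icc] at hβ
    have hβ0 : (0 : ℝ) < β := by exact_mod_cast (by omega : 0 < β)
    have h2 : (β : ℝ) ^ ε ≤ (H : ℝ) ^ ε :=
      Real.rpow_le_rpow hβ0.le (by exact_mod_cast hβ.2) hε.le
    have h3 : ∏ p ∈ β.primeFactors.filter (fun p => p0 ≤ p), ((C : ℝ) / p)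
        = RNK_.f C p0 ε β * (β : ℝ) ^ ε := by
      have h4 : (β : ℝ) ^ (-ε) * (β : ℝ) ^ ε = 1 := by
        rw [← Real.rpow_add hβ0]
        simp
      show RNK_.g C p0 β = (β : ℝ) ^ (-ε) * RNK_.g C p0 β * (β : ℝ) ^ ε
      calc RNK_.g C p0 β = ((β : ℝ) ^ (-ε) * (β : ℝ) ^ ε) * RNK_.g C p0 β := by
            rw [h4, one_mul]
        _ = (β : ℝ) ^ (-ε) * RNK_.g C p0 β * (β : ℝ) ^ ε := by ring
    rw [h3]
    exact mul_le_mul_of_nonneg_left h2 (RNK_.f_nonneg C p0 ε β)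
  refine h1.trans ?_
  rw [← Finset.sum_mul]
  exact mul_le_mul_of_nonneg_right (RNK_.sum_f C p0 hε H)
    (Real.rpow_nonneg (Nat.cast_nonneg _) _)

end PKE
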