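import Pool.Agent.PKE.Targets
import Pool.Agent.PKD.SIV

/-! SV3: the sieve with all the primes. -/

set_option autoImplicit false
set_option maxHeartbeats 4000000

namespace PKE

open Finset

namespace SV3_

open PKD.SIV_

variable {κ : Type} [Fintype κ] [DecidableEq κ]

theorem one_beta (h2 : T_BOX) (C p0 : ℕ) (Bp : (p : ℕ) → Finset (κ → ZMod p))
    (Bad : ℕ → (κ → ℤ) → Prop)
    (hB : ∀ p : ℕ, p0 ≤ p → p.Prime → (Bp p).card * p ≤ C * p ^ Fintype.card κ)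
    (hBad : ∀ p : ℕ, p0 ≤ p → p.Prime → ∀ (β : ℕ) (a : κ → ℤ), 0 < β → p ∣ β → Bad β a →
      (fun i => (a i : ZMod p)) ∈ Bp p) (H β : ℕ) (hβ : 1 ≤ β) (hβH : β ≤ H) :
    (Nat.card {a : κ → ℤ // (∀ i, |a i| ≤ (H : ℤ)) ∧ Bad β a} : ℝ) ≤
      (2 * (2 * (H : ℝ) + 1)) ^ Fintype.card κ *
        ∏ p ∈ β.primeFactors.filter (fun p => p0 ≤ p), ((C : ℝ) / p) := by
  classical
  set P := β.primeFactors.filter (fun p => p0 ≤ p) with hP
  have hPp : ∀ p ∈ P, p.Prime := fun p hp => Nat.prime_of_mem_primeFactors (mem_filter.1 hp).1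
  have hq : ∏ p ∈ P, p ≤ 2 * H + 1 := by
    have h3 : ∏ p ∈ P, p ∣ ∏ p ∈ β.primeFactors, p :=
      prod_dvd_prod_of_subset _ _ _ (filter_subset _ _)
    have h4 : ∏ p ∈ P, p ∣ β := h3.trans (Nat.prod_primeFactors_dvd β)
    have := Nat.le_of_dvd (by omega) h4
    omega
  have h5 := h2 κ P hPp Bp H (by omega) hq
  -- finiteness
  have hfin : Finite {a : κ → ℤ // (∀ i, |a i| ≤ (H : ℤ)) ∧
      ∀ p ∈ P, (fun i => (a i : ZMod p)) ∈ Bp p} := by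
    refine Set.Finite.to_subtype (s := {a : κ → ℤ | (∀ i, |a i| ≤ (H : ℤ)) ∧
      ∀ p ∈ P, (fun i => (a i : ZMod p)) ∈ Bp p}) ?_
    refine (finite_toSet (box κ H)).subset ?_
    intro a ha
    rw [mem_coe, mem_box]
    exact ha.1
  have h6 : Nat.card {a : κ → ℤ // (∀ i, |a i| ≤ (H : ℤ)) ∧ Bad β a} ≤
      Nat.card {a : κ → ℤ // (∀ i, |a i| ≤ (H : ℤ)) ∧
        ∀ p ∈ P, (fun i => (a i : ZMod p)) ∈ Bp p} := by
    refine Nat.card_le_card_of_injective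
      (fun a => (⟨a.1, a.2.1, fun p hp => hBad p (mem_filter.1 hp).2 (hPp p hp) β a.1 (by omega)
        (Nat.dvd_of_mem_primeFactors (mem_filter.1 hp).1) a.2.2⟩ :
        {a : κ → ℤ // (∀ i, |a i| ≤ (H : ℤ)) ∧ ∀ p ∈ P, (fun i => (a i : ZMod p)) ∈ Bp p})) ?_
    intro a b h
    exact Subtype.ext (congrArg (fun x : {a : κ → ℤ // (∀ i, |a i| ≤ (H : ℤ)) ∧
      ∀ p ∈ P, (fun i => (a i : ZMod p)) ∈ Bp p} => x.1) h)
  set q : ℝ := ∏ p ∈ P, (p : ℝ) with hqdef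
  have hq0 : 0 < q := prod_pos fun p hp => Nat.cast_pos.2 (hPp p hp).pos
  have h7 : ∏ p ∈ P, ((Bp p).card : ℝ) ≤ (∏ p ∈ P, ((C : ℝ) / p)) * q ^ Fintype.card κ := by
    rw [hqdef, ← prod_pow, ← prod_mul_distrib]
    refine prod_le_prod (fun _ _ => Nat.cast_nonneg _) fun p hp => ?_
    have h8 := hB p (mem_filter.1 hp).2 (hPp p hp)
    have hp0 : (0 : ℝ) < p := Nat.cast_pos.2 (hPp p hp).pos
    have h9 : ((Bp p).card : ℝ) * p ≤ C * (p : ℝ) ^ Fintype.card κ := by exact_mod_cast h8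
    rw [div_mul_eq_mul_div, le_div_iff₀ hp0]
    exact h9
  have h10 : (Nat.card {a : κ → ℤ // (∀ i, |a i| ≤ (H : ℤ)) ∧
        ∀ p ∈ P, (fun i => (a i : ZMod p)) ∈ Bp p} : ℝ) * q ^ Fintype.card κ ≤
      (2 * (2 * (H : ℝ) + 1)) ^ Fintype.card κ * ∏ p ∈ P, ((Bp p).card : ℝ) := by
    rw [hqdef]
    have h5' := (Nat.cast_le (α := ℝ)).2 h5
    push_cast at h5'
    exact h5'
  have h11 : (Nat.card {a : κ → ℤ // (∀ i, |a i| ≤ (H : ℤ)) ∧
        ∀ p ∈ P, (fun i => (a i : ZMod p)) ∈ Bp p} : ℝ) * q ^ Fintype.card κ ≤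
      ((2 * (2 * (H : ℝ) + 1)) ^ Fintype.card κ * ∏ p ∈ P, ((C : ℝ) / p)) *
        q ^ Fintype.card κ := by
    refine h10.trans ?_
    rw [mul_assoc]
    exact mul_le_mul_of_nonneg_left h7 (by positivity)
  have h12 := le_of_mul_le_mul_right h11 (pow_pos hq0 _)
  refine le_trans ?_ h12
  exact_mod_cast h6

end SV3_

open SV3_ PKD.SIV_ in
theorem p_SV3 (h1 : T_RNK) (h2 : T_BOX) : T_SV3 := by
  classical
  intro κ _ _ C p0 Bp Bad hB hBad ε hε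
  obtain ⟨C', hC'⟩ := h1 C p0 ε hε
  refine ⟨6 ^ Fintype.card κ * |C'|, fun H hH => ?_⟩
  have hH0 : (0 : ℝ) < H := by exact_mod_cast hH
  have hcard : Nat.card {x : ℕ × (κ → ℤ) // 1 ≤ x.1 ∧ x.1 ≤ H ∧
      (∀ i, |x.2 i| ≤ (H : ℤ)) ∧ Bad x.1 x.2} =
      ∑ β ∈ Icc 1 H, Nat.card {a : κ → ℤ // (∀ i, |a i| ≤ (H : ℤ)) ∧ Bad β a} := by
    have e1 : ∀ β : ℕ, Nat.card {a : κ → ℤ // (∀ i, |a i| ≤ (H : ℤ)) ∧ Bad β a} =
        ((box κ H).filter (fun a => Bad β a)).card := by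
      intro β
      rw [← Nat.card_eq_finsetCard]
      refine Nat.card_congr (Equiv.subtypeEquivRight fun a => ?_)
      rw [mem_filter, mem_box]
    have e2 : Nat.card {x : ℕ × (κ → ℤ) // 1 ≤ x.1 ∧ x.1 ≤ H ∧
        (∀ i, |x.2 i| ≤ (H : ℤ)) ∧ Bad x.1 x.2} =
        ((Icc 1 H).sigma fun β => (box κ H).filter (fun a => Bad β a)).card := by
      rw [← Nat.card_eq_finsetCard]
      refine Nat.card_congr (Equiv.subtypeEquiv (Equiv.sigmaEquivProd ℕ (κ → ℤ)).symm fun x => ?_)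
      rw [mem_sigma, mem_Icc, mem_filter, mem_box]
      simp only [Equiv.sigmaEquivProd_symm_apply]
      tauto
    rw [e2, card_sigma]
    exact sum_congr rfl fun β _ => (e1 β).symm
  rw [hcard]
  push_cast
  calc ∑ β ∈ Icc 1 H, (Nat.card {a : κ → ℤ // (∀ i, |a i| ≤ (H : ℤ)) ∧ Bad β a} : ℝ)
      ≤ ∑ β ∈ Icc 1 H, (2 * (2 * (H : ℝ) + 1)) ^ Fintype.card κ *
        ∏ p ∈ β.primeFactors.filter (fun p => p0 ≤ p), ((C : ℝ) / p) := by
        refine sum_le_sum fun β hβ => ?_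
        rw [mem_Icc] at hβ
        exact one_beta h2 C p0 Bp Bad hB hBad H β hβ.1 hβ.2
    _ = (2 * (2 * (H : ℝ) + 1)) ^ Fintype.card κ * ∑ β ∈ Icc 1 H,
        ∏ p ∈ β.primeFactors.filter (fun p => p0 ≤ p), ((C : ℝ) / p) := by rw [mul_sum]
    _ ≤ (6 * (H : ℝ)) ^ Fintype.card κ * (|C'| * (H : ℝ) ^ ε) := by
        have hH1 : (1 : ℝ) ≤ H := by exact_mod_cast hH
        refine mul_le_mul ?_ ?_ ?_ (by positivity)
        · exact pow_le_pow_left₀ (by positivity) (by linarith) _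
        · refine (hC' H hH).trans ?_
          exact mul_le_mul_of_nonneg_right (le_abs_self _) (by positivity)
        · exact sum_nonneg fun β _ => prod_nonneg fun p _ => by positivity
    _ = 6 ^ Fintype.card κ * |C'| * (H : ℝ) ^ ((Fintype.card κ : ℝ) + ε) := by
        rw [Real.rpow_add hH0, Real.rpow_natCast, mul_pow]
        ring

end PKE
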