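import Pool.Agent.PKD.All
import Pool.Agent.PKE.PLCM
import Pool.Agent.PKE.PLCI
import Pool.Agent.PKE.PLC
import Pool.Agent.PKE.ELQ
import Pool.Agent.PKE.RAT
import Pool.Agent.PKE.ECH
import Pool.Agent.PKE.FRB
import Pool.Agent.PKE.DAT
import Pool.Agent.PKE.RNK
import Pool.Agent.PKE.BOX
import Pool.Agent.PKE.SV3
import Pool.Agent.PKE.CRE
import Pool.Agent.PKE.FIN
import Pool.Agent.PKE.CR2
import Pool.Agent.PKE.FI2

/-! Assembly of project PKE. -/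

set_option autoImplicit false

namespace PKE

theorem all_PLC : T_PLC := p_PLC p_PLCM p_PLCI
theorem all_DAT : T_DAT := p_DAT p_RAT p_ECH p_FRB
theorem all_ELQ : T_ELQ := p_ELQ PKD.all_ELI
theorem all_SV3 : T_SV3 := p_SV3 p_RNK p_BOX
theorem all_CRE : T_CRE :=
  p_CRE PKD.all_REL all_PLC all_DAT all_ELQ PKD.p_CNT PKD.p_EXP PKD.p_ALM PKD.p_EMB
theorem all_FIN3 : T_FIN3 := p_FIN3 (p_FIN all_CRE all_SV3)
theorem all_CR2 : T_CR2 :=
  p_CR2 PKD.all_REL all_PLC all_DAT all_ELQ PKD.p_CNT PKD.p_EXP PKD.p_ALM PKD.p_EMB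
theorem all_FI2 : T_FI2 := p_FI2 all_CR2 all_SV3

end PKE
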