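import Pool.Agent.PKE.Targets
import Pool.Agent.PKD.RedLem

/-! From a bad multisection to the residue fields of all the embeddings. -/

set_option autoImplicit false
set_option maxHeartbeats 4000000

namespace PKE

open MvPolynomial RD PKD

/-- the part of `S` in the block `k` -/
def sec {m : ℕ} {g : Fin m → ℕ} (S : Finset (Σ k, Fin (g k))) (k : Fin m) : Finset (Fin (g k)) :=
  Finset.univ.filter fun i => (⟨k, i⟩ : Σ k, Fin (g k)) ∈ S

/-- the block matrix made of the residual data `D`, for the classes `cl` and the set `S` -/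
def flat {K : Type} [Field K] {m : ℕ} {g : Fin m → ℕ} (D : (k : Fin m) → Bool → Dat (g k) K)
    (cl : Fin m → Bool) (S : Finset (Σ k, Fin (g k))) (x y : Σ k, Fin (g k)) : K :=
  if h : y.1 = x.1 then -(D x.1 (cl x.1) (sec S x.1)).2 x.2 (h ▸ y.2) else 0

namespace STP_

theorem mem_sec {m : ℕ} {g : Fin m → ℕ} (S : Finset (Σ k, Fin (g k))) (k : Fin m) (i : Fin (g k)) :
    i ∈ sec S k ↔ (⟨k, i⟩ : Σ k, Fin (g k)) ∈ S := by
  simp [sec]

theorem card_sec {m : ℕ} {g : Fin m → ℕ} (S : Finset (Σ k, Fin (g k))) :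
    ∑ k, (sec S k).card = S.card := by
  rw [← Finset.card_sigma]
  congr 1
  ext ⟨k, i⟩
  simp [mem_sec]

theorem flat_same {K : Type} [Field K] {m : ℕ} {g : Fin m → ℕ}
    (D : (k : Fin m) → Bool → Dat (g k) K) (cl : Fin m → Bool) (S : Finset (Σ k, Fin (g k)))
    (k : Fin m) (i i' : Fin (g k)) :
    flat D cl S ⟨k, i⟩ ⟨k, i'⟩ = -(D k (cl k) (sec S k)).2 i i' := by
  unfold flat
  rw [dif_pos rfl]

theorem flat_ne {K : Type} [Field K] {m : ℕ} {g : Fin m → ℕ}
    (D : (k : Fin m) → Bool → Dat (g k) K) (cl : Fin m → Bool) (S : Finset (Σ k, Fin (g k)))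
    (x y : Σ k, Fin (g k)) (h : y.1 ≠ x.1) : flat D cl S x y = 0 := by
  unfold flat
  rw [dif_neg h]

/-- a point `p * u` with integral `u` off a hypersurface -/
theorem exists_point {Ω : Type} [Field Ω] [CharZero Ω] {d : ℕ} (p : ℕ) (hp : p ≠ 0)
    (G : MvPolynomial (Fin d) Ω) (hG : G ≠ 0) :
    ∃ u : Fin d → ℤ, eval (fun i => (p : Ω) * (u i : Ω)) G ≠ 0 := by
  by_contra hcon
  push Not at hcon
  apply hG
  refine MvPolynomial.funext_set (fun _ : Fin d => Set.range fun u : ℤ => (p : Ω) * (u : Ω)) ?_ ?_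
  · intro i
    apply Set.infinite_range_of_injective
    intro u u' h
    have hp' : (p : Ω) ≠ 0 := Nat.cast_ne_zero.2 hp
    exact Int.cast_injective (mul_left_cancel₀ hp' h)
  · intro x hx
    have h1 : ∀ i, ∃ u : ℤ, (p : Ω) * (u : Ω) = x i := fun i => hx i (Set.mem_univ i)
    choose u hu using h1
    have h2 : x = fun i => (p : Ω) * (u i : Ω) := by
      funext i
      exact (hu i).symm
    show eval x G = eval x 0
    rw [map_zero, h2]
    exact hcon u

end STP_

open STP_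

theorem step (hREL : PKD.T_REL) (hPLC : T_PLC) {Ω kk : Type} [Field Ω] [CharZero Ω]
    [IsAlgClosed Ω] [DecidableEq Ω] [Field kk] {p : ℕ} {v : AbsoluteValue Ω ℝ} {r : Ω → kk}
    (hr : Red v r) (hp : p.Prime) (hp5 : 5 ≤ p) (hvp : v (p : Ω) < 1) {m : ℕ} (g : Fin m → ℕ)
    {d n w D N : ℕ} (hwD : w ≤ D) (σ : Fin N → Ω →+* Ω)
    (Ds : (k : Fin m) → ℕ → Finset (Bool → Dat (g k) kk))
    (hDs : ∀ (k : Fin m) (e : ℕ) (a : Ω) (t n : ℤ), a ^ 2 = t * a - n →
      ∀ U : Submodule (IntermediateField.adjoin ℚ {a})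
        (Fin (g k) → IntermediateField.adjoin ℚ {a}),
        Module.finrank (IntermediateField.adjoin ℚ {a}) U = e →
        ∃ D ∈ Ds k e, ∀ σ : Ω →+* Ω,
          (σ a = a → Rz (fun x : IntermediateField.adjoin ℚ {a} => v (σ (x : Ω)))
            (fun x => r (σ (x : Ω))) U e (D true)) ∧
          (σ a ≠ a → Rz (fun x : IntermediateField.adjoin ℚ {a} => v (σ (x : Ω)))
            (fun x => r (σ (x : Ω))) U e (D false)))
    (ρ : Fin n → ℕ)
    (b : Fin n → ℕ → MvPolynomial (Fin d) Ω) (A B : Fin m → MvPolynomial (Fin d ⊕ Fin n) Ω)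
    (hb : ∀ j l, l < ρ j → (b j l).totalDegree ≤ ρ j - l)
    (hbi : ∀ i j l, l < ρ j → ∀ t, v (σ i ((b j l).coeff t)) ≤ 1)
    (hAB : ∀ i k t, v (σ i ((A k).coeff t)) ≤ 1 ∧ v (σ i ((B k).coeff t)) ≤ 1)
    (hdeg : ∀ k, (A k).totalDegree ≤ 2 * w ∧ (B k).totalDegree ≤ 3 * w)
    (β : Ω) (c : (Σ k, Fin (g k)) × MonS d n D → Ω) (hβ0 : β ≠ 0)
    (hβ : ∀ i, v (σ i β) ≤ v (p : Ω)) (hc : ∀ i u, v (σ i (β * c u)) ≤ 1)
    (hbad : Bad g D ρ b A B c) :
    ∃ (Q : Finset (Fin d)) (e : Fin m → ℕ) (De : (k : Fin m) → Bool → Dat (g k) kk),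
      (∀ k, e k ≤ g k) ∧ ∑ k, e k + Q.card = d + 1 ∧ (∀ k, De k ∈ Ds k (e k)) ∧
      ∀ j : Fin N, ∃ (cl : Fin m → Bool) (S S' J W : Finset (Σ k, Fin (g k))),
        Disjoint S' W ∧ J ⊆ W ∧ S'.card + J.card + Q.card = d + 1 ∧
        ∃ ty x' s' h, Sys ρ (bty (fun x => r (σ j x)) ρ b ty) (uty kk ty) (al0 D ty) Q S' J W
          (flat De cl S) (fun u => r (σ j (β * c u))) x' s' h := by
  classical
  obtain ⟨Q, G, hG, hbad⟩ := hbad
  obtain ⟨u, hu⟩ := exists_point p hp.ne_zero G hG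
  obtain ⟨x, s, hon, hxQ, e, he, P, hP, hrel⟩ := hbad _ hu
  choose a t n' ha U hU hR using fun k => hREL Ω _ _ (g k) (e k) (P k) (hrel k)
  choose De hDe1 hDe2 using fun k => hDs k (e k) (a k) (t k) (n' k) (ha k) (U k) (hU k)
  have heg : ∀ k, e k ≤ g k := by
    intro k
    rw [← hU k]
    refine (Submodule.finrank_le _).trans ?_
    rw [Module.finrank_fin_fun]
  refine ⟨Q, e, De, heg, he, hDe1, fun j => ?_⟩
  obtain ⟨R, μ, S, ty, x', s', h, hCx, hμ, hRμ, hE, hx0, hbase, hal, hS, hW, hrelk⟩ :=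
    hPLC Ω kk p (v.comp (σ j).injective) (fun x => r (σ j x)) (hr.comp (σ j)) hp hp5
      (by change v (σ j (p : Ω)) < 1; rw [map_natCast]; exact hvp)
      d n w D hwD (Σ k, Fin (g k)) ρ b (fun i l hl => ⟨hb i l hl, fun t => hbi j i l hl t⟩)
      (fun i => A i.1) (fun i => B i.1)
      (fun i t => hAB j i.1 t) (fun i => hdeg i.1) β c hβ0
      (by change v (σ j β) ≤ v (σ j (p : Ω)); rw [map_natCast]; exact hβ j)
      (fun u => hc j u) x s hon (fun i => P i.1 i.2) (fun i => hP i.1 i.2)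
  set cl : Fin m → Bool := fun k => decide (σ j (a k) = a k) with hcl
  have hRz : ∀ k, Rz (fun x : IntermediateField.adjoin ℚ {a k} => v (σ j (x : Ω)))
      (fun x => r (σ j (x : Ω))) (U k) (e k) (De k (cl k)) := by
    intro k
    by_cases h1 : σ j (a k) = a k
    · have : cl k = true := by simp [hcl, h1]
      rw [this]
      exact (hDe2 k (σ j)).1 h1
    · have : cl k = false := by simp [hcl, h1]
      rw [this]
      exact (hDe2 k (σ j)).2 h1
  -- the pivots
  set J0 : Finset (Σ k, Fin (g k)) := Finset.univ.sigma fun k => (De k (cl k) (sec S k)).1 with hJ0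
  have hJ0m : ∀ (k : Fin m) (i : Fin (g k)), (⟨k, i⟩ : Σ k, Fin (g k)) ∈ J0 ↔
      i ∈ (De k (cl k) (sec S k)).1 := by
    intro k i
    rw [hJ0, Finset.mem_sigma]
    simp
  have hdis : Disjoint J0 S := by
    rw [Finset.disjoint_left]
    rintro ⟨k, i⟩ hi hi'
    rw [hJ0m] at hi
    have h1 := (hRz k (sec S k)).1
    exact (Finset.disjoint_left.1 h1) hi ((mem_sec S k i).2 hi')
  have hcard : ∑ k, e k ≤ J0.card + S.card := by
    rw [hJ0, Finset.card_sigma, ← card_sec S, ← Finset.sum_add_distrib]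
    exact Finset.sum_le_sum fun k _ => (hRz k (sec S k)).2.1
  have hrows : ∀ (k : Fin m) (i : Fin (g k)), i ∈ (De k (cl k) (sec S k)).1 →
      (De k (cl k) (sec S k)).2 i i = 1 ∧
      (∀ i' ∈ (De k (cl k) (sec S k)).1, i' ≠ i → (De k (cl k) (sec S k)).2 i i' = 0) ∧
      ∑ i' ∈ (sec S k)ᶜ, (De k (cl k) (sec S k)).2 i i' * h ⟨k, i'⟩ = 0 := by
    intro k i hi
    obtain ⟨-, -, τ, hτ⟩ := hRz k (sec S k)
    obtain ⟨h1, h2, h3, h4, h5⟩ := hτ i hi
    refine ⟨?_, ?_, ?_⟩
    · rw [← (h5 i).2, h2]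
      simp [hr.one]
    · intro i' hi' hne
      rw [← (h5 i').2, h3 i' hi' hne]
      simp [hr.zero]
    · have h6 := hR k p (v.comp (σ j).injective) R (hCx ⟨k, i⟩) (sec S k) μ hμ hRμ
        (fun i' hi' => hE ⟨k, i'⟩ (fun hc' => hi' ((mem_sec S k i').2 hc'))) (τ i) h1 h4
        (fun i' => (h5 i').1)
      let emb : Fin (g k) ↪ (Σ k, Fin (g k)) :=
        Function.Embedding.sigmaMk (β := fun k => Fin (g k)) k
      let T : (Σ k, Fin (g k)) → Ω := fun y =>
        if hy : y.1 = k then (τ i (hy ▸ y.2) : Ω) else 0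
      have hT : ∀ i', T ⟨k, i'⟩ = (τ i i' : Ω) := by
        intro i'
        exact dif_pos rfl
      have h7 := hrelk ((sec S k)ᶜ.map emb) (by
          intro y hy
          obtain ⟨i', hi', rfl⟩ := Finset.mem_map.1 hy
          intro hc'
          exact (Finset.mem_compl.1 hi') ((mem_sec S k i').2 hc')) T (by
          rintro ⟨k', i'⟩
          by_cases hk : k' = k
          · subst hk
            rw [hT]
            exact (h5 i').1
          · have : T ⟨k', i'⟩ = 0 := dif_neg hk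
            rw [this]
            simp) (by
          rw [Finset.sum_map]
          refine lt_of_eq_of_lt ?_ h6
          congr 1
          refine Finset.sum_congr rfl fun i' _ => ?_
          show T ⟨k, i'⟩ * zz (P k i') = _
          rw [hT])
      rw [Finset.sum_map] at h7
      rw [← h7]
      refine Finset.sum_congr rfl fun i' _ => ?_
      rw [← (h5 i').2]
      show _ = r (σ j (T ⟨k, i'⟩)) * _
      rw [hT]
      rfl
  have hQ0 : ∀ i ∈ Q, x' i = 0 := by
    intro i hi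
    refine hx0 i ?_
    change v (σ j (x i)) < 1
    rw [hxQ i hi, map_mul, map_natCast, map_intCast, v.map_mul]
    calc v (p : Ω) * v ((u i : ℤ) : Ω) ≤ v (p : Ω) * 1 :=
          mul_le_mul_of_nonneg_left (na_int hr.na _) (v.nonneg _)
      _ < 1 := by rw [mul_one]; exact hvp
  by_cases hSc : ∑ k, e k ≤ S.card
  · obtain ⟨S1, hS1, hS1c⟩ := Finset.exists_subset_card_eq hSc
    refine ⟨cl, S, S1, ∅, ∅, Finset.disjoint_empty_right _, Finset.empty_subset _, by
      rw [hS1c, Finset.card_empty, add_zero]; exact he, ty, x', s', h, hbase, hQ0, hal,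
      fun i hi => hS i (hS1 hi), by simp, by simp⟩
  · push Not at hSc
    obtain ⟨J1, hJ1, hJ1c⟩ := Finset.exists_subset_card_eq
      (show ∑ k, e k - S.card ≤ J0.card by omega)
    have hJ1W : J1 ⊆ Sᶜ := by
      intro i hi
      rw [Finset.mem_compl]
      exact fun h' => (Finset.disjoint_left.1 hdis) (hJ1 hi) h'
    refine ⟨cl, S, S, J1, Sᶜ, disjoint_compl_right, hJ1W, by omega, ty, x', s', h, hbase, hQ0, hal,
      fun i hi => hS i hi, fun i hi => hW i (Finset.mem_compl.1 hi), ?_⟩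
    rintro ⟨k, i⟩ hi
    obtain ⟨h1, h2, h3⟩ := hrows k i ((hJ0m k i).1 (hJ1 hi))
    -- the sum over the whole complement
    have h4 : ∑ y ∈ Sᶜ, flat De cl S ⟨k, i⟩ y * h y = 0 := by
      have e1 : ∑ y ∈ Sᶜ, flat De cl S ⟨k, i⟩ y * h y =
          ∑ y ∈ (Finset.univ.sigma fun k' => (sec S k')ᶜ), flat De cl S ⟨k, i⟩ y * h y := by
        congr 1
        ext ⟨k', i'⟩
        simp [mem_sec]
      rw [e1, Finset.sum_sigma, Finset.sum_eq_single k]
      · rw [← neg_eq_zero, ← Finset.sum_neg_distrib, ← h3]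
        refine Finset.sum_congr rfl fun i' _ => ?_
        rw [flat_same]
        ring
      · intro k' _ hk
        refine Finset.sum_eq_zero fun i' _ => ?_
        rw [flat_ne _ _ _ _ _ hk, zero_mul]
      · intro h'
        exact absurd (Finset.mem_univ _) h'
    rw [← Finset.sum_sdiff hJ1W] at h4
    have h5 : ∑ y ∈ J1, flat De cl S ⟨k, i⟩ y * h y = - h ⟨k, i⟩ := by
      rw [Finset.sum_eq_single_of_mem _ hi]
      · rw [flat_same, h1, neg_mul, one_mul]
      · rintro ⟨k', i'⟩ hi' hne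
        by_cases hk : k' = k
        · subst hk
          have hne' : i' ≠ i := by
            rintro rfl
            exact hne rfl
          rw [flat_same, h2 i' ((hJ0m k' i').1 (hJ1 hi')) hne', neg_zero, zero_mul]
        · rw [flat_ne _ _ _ _ _ hk, zero_mul]
    rw [h5] at h4
    linear_combination -h4

end PKE
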